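import Pool.Agent.P.MP_e1cc3f_lc.Arc

/-! Algebraic description of Lombardi drawings. -/

namespace Pool.Agent.P.MP_e1cc3f_lc

open Complex ComplexConjugate Real

/-- Points `p` and unit tangents `t` of a Lombardi drawing of the relation `A` on the vertex set
`S`, where the tangents at `u` lie in a regular `dg u`-gon. -/
structure Alg {β : Type} (S : Set β) (A : β → β → Prop) (dg : β → ℕ) (p : β → ℂ)
    (t : β → β → ℂ) : Prop where
  inj : Set.InjOn p S
  unit : ∀ u v, A u v → ‖t u v‖ = 1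
  ok : ∀ u v, A u v → ArcOK (p u) (p v) (t u v) (t v u)
  avoid : ∀ u v, A u v → ∀ w ∈ S, ¬ OnArc (p u) (p v) (t u v) (p w)
  frame : ∀ u v v', A u v → A u v' → t u v ^ dg u = t u v' ^ dg u
  tinj : ∀ u v v', A u v → A u v' → t u v = t u v' → v = v'

theorem unit_eq {a b : ℂ} {c c' : ℝ} (ha : ‖a‖ = 1) (hb : ‖b‖ = 1) (hc : 0 < c) (hc' : 0 < c')
    (h : c * a = c' * b) : a = b := by
  have h1 := congrArg norm h
  rw [norm_mul, norm_mul, ha, hb, mul_one, mul_one, Complex.norm_real, Complex.norm_real,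
    Real.norm_of_nonneg hc.le, Real.norm_of_nonneg hc'.le] at h1
  subst h1
  exact mul_left_cancel₀ (by exact_mod_cast hc.ne') h

theorem E_arg {u : ℂ} (hu : ‖u‖ = 1) : E (arg u) = u := by
  have := Complex.norm_mul_exp_arg_mul_I u
  rwa [hu, ofReal_one, one_mul] at this

theorem IsSegmentOrArc.exists_curve {γ : ℝ → ℂ} (h : IsSegmentOrArc γ) :
    ∃ t t', Curve γ t t' := by
  rcases h with ⟨p, q, hpq, h⟩ | ⟨c, r, α, β, hr, hb, hβ, h⟩
  · obtain rfl : γ = _ := funext h
    exact ⟨_, _, segment_curve hpq⟩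
  · obtain rfl : γ = _ := funext h
    rcases lt_or_gt_of_ne hb with h1 | h1
    · exact ⟨_, _, circle_curve (ε := -1) c hr hb hβ (by rw [abs_of_neg h1]; ring) (by norm_num)⟩
    · exact ⟨_, _, circle_curve (ε := 1) c hr hb hβ (by rw [abs_of_pos h1]; ring) (by norm_num)⟩

theorem IsSegmentOrArc.rev {γ : ℝ → ℂ} (h : IsSegmentOrArc γ) :
    IsSegmentOrArc (fun s => γ (1 - s)) := by
  rcases h with ⟨p, q, hpq, h⟩ | ⟨c, r, α, β, hr, hb, hβ, h⟩
  · refine Or.inl ⟨q, p, hpq.symm, fun s => ?_⟩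
    simp only [h]; push_cast; ring
  · refine Or.inr ⟨c, r, α + β, -β, hr, neg_ne_zero.mpr hb, by rwa [abs_neg], fun s => ?_⟩
    simp only [h]
    congr 4; ring_nf

theorem mul_conj_unit {t : ℂ} (ht : ‖t‖ = 1) : t * conj t = 1 := by
  rw [Complex.mul_conj, Complex.normSq_eq_norm_sq, ht]; simp

theorem exists_curve {p q t t' : ℂ} (hpq : p ≠ q) (ht : ‖t‖ = 1) (h : ArcOK p q t t') :
    ∃ γ, IsSegmentOrArc γ ∧ γ 0 = p ∧ γ 1 = q ∧ Curve γ t t' := by
  have hΔ : q - p ≠ 0 := sub_ne_zero.mpr hpq.symm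
  have hn : 0 < ‖q - p‖ := norm_pos_iff.mpr hΔ
  have hn' : ((‖q - p‖ : ℝ) : ℂ) ≠ 0 := by exact_mod_cast hn.ne'
  have ht0 : t ≠ 0 := by rintro rfl; simp at ht
  have hm : (q - p) * conj (q - p) = ((‖q - p‖ : ℝ) : ℂ) ^ 2 := by
    rw [Complex.mul_conj, Complex.normSq_eq_norm_sq]; push_cast; rfl
  suffices H : ∃ γ t'', IsSegmentOrArc γ ∧ γ 0 = p ∧ γ 1 = q ∧ Curve γ t t'' by
    obtain ⟨γ, t'', h1, h2, h3, h4⟩ := H
    have h5 := h4.ok.1
    rw [h2, h3, ← h.1] at h5
    have h6 : t'' = t' := mul_left_cancel₀ ht0 (mul_right_cancel₀ ((map_ne_zero _).2 hΔ) h5)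
    exact ⟨γ, h1, h2, h3, h6 ▸ h4⟩
  set u := t * conj (q - p) / ‖q - p‖ with hu
  have hun : ‖u‖ = 1 := by
    rw [hu, norm_div, norm_mul, ht, Complex.norm_conj, Complex.norm_real, norm_norm, one_mul,
      div_self hn.ne']
  have hu1 : u ≠ -1 := by
    intro h1
    apply h.2
    rw [pos_iff]
    refine ⟨_, hn, ?_⟩
    rw [hu, div_eq_iff hn'] at h1
    linear_combination -h1
  by_cases hu0 : u = 1
  · have : t = (q - p) / ‖q - p‖ := by
      rw [hu, div_eq_iff hn'] at hu0
      rw [eq_div_iff hn']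
      apply mul_left_cancel₀ hn'
      linear_combination (q - p) * hu0 - t * hm
    exact ⟨_, _, Or.inl ⟨p, q, hpq, fun s => rfl⟩, by simp, by simp, this ▸ segment_curve hpq⟩
  · set β := -2 * arg u with hβ
    have ha0 : arg u ≠ 0 := fun h0 => hu0 (by rw [← E_arg hun, h0]; simp [E])
    have haπ : arg u ≠ π := fun h0 => hu1 (by rw [← E_arg hun, h0]; simp [E])
    have hb : β ≠ 0 := by rw [hβ]; simpa using ha0
    have hβ2 : |β| < 2 * π := by
      have h1 := Complex.neg_pi_lt_arg u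
      have h2 := lt_of_le_of_ne (Complex.arg_le_pi u) haπ
      rw [hβ, abs_lt]; constructor <;> linarith
    obtain ⟨ε, hε, hε1⟩ : ∃ ε : ℝ, ε * β = |β| ∧ ε ^ 2 = 1 := by
      rcases lt_or_gt_of_ne hb with h1 | h1
      · exact ⟨-1, by rw [abs_of_neg h1]; ring, by norm_num⟩
      · exact ⟨1, by rw [abs_of_pos h1]; ring, by norm_num⟩
    have hS : 0 < ε * Real.sin (β / 2) := by
      simpa using sin_sign hβ2 hε hε1 hb one_pos le_rfl
    have hε2 : (ε : ℂ) ^ 2 = 1 := by exact_mod_cast hε1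
    have hεn : ‖(ε : ℂ)‖ = 1 := by
      rw [Complex.norm_real, Real.norm_eq_abs]
      nlinarith [abs_nonneg ε, sq_abs ε]
    set r := ‖q - p‖ / (2 * (ε * Real.sin (β / 2))) with hr
    have hr0 : 0 < r := by positivity
    set α := arg (-(ε * I * t)) with hα
    have hEα : E α = -(ε * I * t) := E_arg (by simp [ht, hεn, -Complex.norm_real])
    have ht' : ε * I * E α = t := by
      rw [hEα]; linear_combination (-(I ^ 2) * t) * hε2 - t * I_mul_I
    refine ⟨_, _, Or.inr ⟨p - r * E α, r, α, β, hr0, hb, hβ2, fun s => rfl⟩, ?_, ?_,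
      ht' ▸ circle_curve (p - r * E α) hr0 hb hβ2 hε hε1⟩
    · simp [E]
    · have h1 := E_sub_E (α + β / 2) (β / 2)
      rw [show α + β / 2 + β / 2 = α + 1 * β by ring, add_sub_cancel_right, E_add α (β / 2)] at h1
      have h2 : E (β / 2) = conj u := by
        rw [← E_arg hun, conj_E]; congr 1; rw [hβ]; ring
      have h3 : ((r : ℝ) : ℂ) * (2 * (ε * (Real.sin (β / 2) : ℝ))) = (‖q - p‖ : ℝ) := by
        have : r * (2 * (ε * Real.sin (β / 2))) = ‖q - p‖ := by
          rw [hr]; exact div_mul_cancel₀ _ (by positivity)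
        exact_mod_cast this
      have h4 : conj u * (‖q - p‖ : ℝ) = conj t * (q - p) := by
        rw [hu, map_div₀, map_mul, conj_conj, conj_ofReal]; field_simp
      have h5 := mul_conj_unit ht
      change p - r * E α + r * E (α + 1 * β) = q
      rw [h2] at h1
      linear_combination (r : ℂ) * h1 + (2 * I * r * (Real.sin (β / 2) : ℝ) * conj u) * hEα +
        (-2 * r * (Real.sin (β / 2) : ℝ) * conj u * ε * t) * I_mul_I + (conj u * t) * h3 +
        t * h4 + (q - p) * h5

theorem E_frame (θ : ℝ) (k d : ℕ) : E (θ + 2 * π * k / d) = E θ * Complex.exp (2 * π * I / d) ^ k := by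
  rw [E_add, ← Complex.exp_nat_mul, E, E]
  congr 2
  push_cast; ring

theorem lombardi_iff_alg {V : Type} [Finite V] (G : SimpleGraph V) :
    HasLombardiDrawing G ↔
      ∃ p t, Alg Set.univ G.Adj (fun v => (G.neighborSet v).ncard) p t := by
  classical
  constructor
  · rintro ⟨p, γ, hp, hγ, hv⟩
    choose t t' hc using fun e => (hγ e).1.exists_curve
    have hsymm : ∀ e : G.Dart, t e.symm = t' e := by
      intro e
      obtain ⟨c, hc0, h1⟩ := (hc e.symm).d0
      obtain ⟨c', hc0', h2⟩ := (hc e).d1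
      rw [show γ e.symm = fun s => γ e (1 - s) from funext (hγ e).2.2.2.1, h2] at h1
      exact unit_eq (hc _).unit (hc _).unit' hc0 hc0' h1.symm
    let T : V → V → ℂ := fun u v => if h : G.Adj u v then t ⟨(u, v), h⟩ else 0
    have hT : ∀ u v (h : G.Adj u v), T u v = t ⟨(u, v), h⟩ := fun u v h => dif_pos h
    have hfr : ∀ u, ∃ (σ : G.neighborSet u ≃ Fin (G.neighborSet u).ncard) (θ : ℝ),
        ∀ w : G.neighborSet u, T u w = E θ *
          Complex.exp (2 * π * I / (G.neighborSet u).ncard) ^ (σ w : ℕ) := by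
      intro u
      obtain ⟨d, σ, θ, h⟩ := hv u
      obtain rfl : d = (G.neighborSet u).ncard := by
        rw [← Nat.card_coe_set_eq, Nat.card_congr σ]; simp
      refine ⟨σ, θ, fun w => ?_⟩
      obtain ⟨c, hc0, h1⟩ := h w
      obtain ⟨c', hc0', h2⟩ := (hc ⟨(u, w), w.2⟩).d0
      rw [hT u w w.2, ← E_frame]
      exact unit_eq (hc _).unit (norm_E _) hc0' hc0 (h2.symm.trans h1)
    refine ⟨p, T, hp.injOn, fun u v h => ?_, fun u v h => ?_, fun u v h w _ => ?_,
      fun u v v' h h' => ?_, fun u v v' h h' e => ?_⟩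
    · rw [hT u v h]; exact (hc _).unit
    · rw [hT u v h, hT v u h.symm]
      have := (hc ⟨(u, v), h⟩).ok
      rw [(hγ _).2.1, (hγ _).2.2.1, ← hsymm] at this
      exact this
    · rw [hT u v h]
      have := (hc ⟨(u, v), h⟩).int (p w)
      rw [(hγ _).2.1, (hγ _).2.2.1] at this
      intro h1
      obtain ⟨s, hs, h2⟩ := this.1 h1
      exact (hγ _).2.2.2.2 s hs w h2
    · obtain ⟨σ, θ, hσ⟩ := hfr u
      have hd : (G.neighborSet u).ncard ≠ 0 := by
        have := (σ ⟨v, h⟩).2; omega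
      have h1 := (Complex.isPrimitiveRoot_exp _ hd).pow_eq_one
      rw [hσ ⟨v, h⟩, hσ ⟨v', h'⟩, mul_pow, mul_pow, ← pow_mul, ← pow_mul, mul_comm (σ _ : ℕ),
        mul_comm (σ _ : ℕ), pow_mul, pow_mul, h1, one_pow, one_pow]
    · obtain ⟨σ, θ, hσ⟩ := hfr u
      have hd : (G.neighborSet u).ncard ≠ 0 := by
        have := (σ ⟨v, h⟩).2; omega
      rw [hσ ⟨v, h⟩, hσ ⟨v', h'⟩] at e
      have h1 := (Complex.isPrimitiveRoot_exp _ hd).pow_inj (σ _).2 (σ _).2
        (mul_left_cancel₀ (E_ne θ) e)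
      exact congrArg Subtype.val (σ.injective (Fin.ext h1))
  · rintro ⟨p, t, H⟩
    have hp : Function.Injective p := Set.injOn_univ.1 H.inj
    choose γ h1 h2 h3 h4 using fun e : G.Dart =>
      exists_curve (hp.ne e.adj.ne) (H.unit _ _ e.adj) (H.ok _ _ e.adj)
    obtain ⟨o, ho⟩ := exists_injective_nat V
    let γ' : G.Dart → ℝ → ℂ := fun e =>
      if o e.fst < o e.snd then γ e else fun s => γ e.symm (1 - s)
    have hav : ∀ e : G.Dart, ∀ s ∈ Set.Ioo (0 : ℝ) 1, ∀ w, γ e s ≠ p w := by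
      intro e s hs w h
      have := ((h4 e).int (p w)).2 ⟨s, hs, h⟩
      rw [h2, h3] at this
      exact H.avoid _ _ e.adj w trivial this
    have hd : ∀ e : G.Dart, ∃ c : ℝ, 0 < c ∧ deriv (γ' e) 0 = c * t e.fst e.snd := by
      intro e
      simp only [γ']
      split_ifs
      · exact (h4 e).d0
      · exact (h4 e.symm).d1
    refine ⟨p, γ', hp, fun e => ?_, fun v => ?_⟩
    · have hne : o e.fst ≠ o e.snd := ho.ne e.adj.ne
      simp only [γ', SimpleGraph.Dart.symm_symm]
      by_cases h : o e.fst < o e.snd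
      · have h' : ¬ o e.symm.fst < o e.symm.snd := by
          change ¬ o e.snd < o e.fst; omega
        rw [if_pos h, if_neg h']
        exact ⟨h1 e, h2 e, h3 e, fun s => rfl, hav e⟩
      · have h' : o e.symm.fst < o e.symm.snd := by
          change o e.snd < o e.fst; omega
        rw [if_neg h, if_pos h']
        refine ⟨(h1 _).rev, by simpa using h3 e.symm, by simpa using h2 e.symm, fun s => by simp,
          fun s hs w => hav _ _ ⟨by linarith [hs.2], by linarith [hs.1]⟩ w⟩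
    · set d := (G.neighborSet v).ncard with hd'
      have hcard : Nat.card (G.neighborSet v) = Nat.card (Fin d) := by
        rw [Nat.card_coe_set_eq]; simp [d]
      rcases isEmpty_or_nonempty (G.neighborSet v) with he | ⟨⟨w0⟩⟩
      · exact ⟨d, Finite.equivFinOfCardEq (by simpa using hcard), 0, fun w => he.elim w⟩
      · have hd0 : d ≠ 0 := by
          have : 0 < Nat.card (G.neighborSet v) := Nat.card_pos_iff.2 ⟨⟨w0⟩, inferInstance⟩
          rw [Nat.card_coe_set_eq] at this; omega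
        have hζ := Complex.isPrimitiveRoot_exp _ hd0
        have : NeZero d := ⟨hd0⟩
        have h0 : t v w0 ≠ 0 := fun h => by simpa [h] using H.unit v w0 w0.2
        have hk : ∀ w : G.neighborSet v, ∃ k : Fin d,
            t v w = t v w0 * Complex.exp (2 * π * I / d) ^ (k : ℕ) := by
          intro w
          obtain ⟨k, hk, h⟩ := hζ.eq_pow_of_pow_eq_one (ξ := t v w / t v w0) (by
            rw [div_pow, H.frame v w w0 w.2 w0.2, div_self (pow_ne_zero _ h0)])
          exact ⟨⟨k, hk⟩, by rw [h]; field_simp⟩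
        choose k hk using hk
        have hki : Function.Injective k := fun a b hab =>
          Subtype.ext (H.tinj v a b a.2 b.2 (by rw [hk a, hk b, hab]))
        refine ⟨d, Equiv.ofBijective k ((Nat.bijective_iff_injective_and_card k).2 ⟨hki, hcard⟩),
          arg (t v w0), fun w => ?_⟩
        obtain ⟨c, hc, h⟩ := hd ⟨(v, w), w.2⟩
        refine ⟨c, hc, h.trans ?_⟩
        congr 1
        change t v w = E _
        rw [E_frame, E_arg (H.unit v w0 w0.2)]
        exact hk w

end Pool.Agent.P.MP_e1cc3f_lc
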