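import Pool.Agent.P.MP_e1cc3f_lc.Defs

/-! Algebraic description of segments and circular arcs. -/

namespace Pool.Agent.P.MP_e1cc3f_lc

open Complex ComplexConjugate Real

/-- `z` is a positive real number. -/
def Pos (z : ℂ) : Prop := z.im = 0 ∧ 0 < z.re

theorem pos_iff {z : ℂ} : Pos z ↔ ∃ r : ℝ, 0 < r ∧ z = r := by
  constructor
  · rintro ⟨h1, h2⟩
    exact ⟨z.re, h2, Complex.ext rfl (by simpa using h1)⟩
  · rintro ⟨r, hr, rfl⟩
    exact ⟨by simp, by simpa using hr⟩

theorem pos_real_mul {r : ℝ} (hr : 0 < r) {z : ℂ} : Pos (r * z) ↔ Pos z := by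
  simp [Pos, hr.ne', hr]

/-- `w` lies in the interior of the arc from `p` to `q` with initial tangent `t`. -/
def OnArc (p q t w : ℂ) : Prop := Pos ((w - p) * conj (q - w) * conj t * (q - p))

/-- `t` and `t'` are the tangents at both ends of an arc from `p` to `q`. -/
def ArcOK (p q t t' : ℂ) : Prop :=
  t * t' * conj (q - p) = -(q - p) ∧ ¬ Pos (-(t * conj (q - p)))

/-- A curve with its two unit tangents and its interior. -/
structure Curve (γ : ℝ → ℂ) (t t' : ℂ) : Prop where
  unit : ‖t‖ = 1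
  unit' : ‖t'‖ = 1
  d0 : ∃ c : ℝ, 0 < c ∧ deriv γ 0 = c * t
  d1 : ∃ c : ℝ, 0 < c ∧ deriv (fun s => γ (1 - s)) 0 = c * t'
  ok : ArcOK (γ 0) (γ 1) t t'
  int : ∀ w, OnArc (γ 0) (γ 1) t w ↔ ∃ s ∈ Set.Ioo (0 : ℝ) 1, γ s = w

/-- `E x = exp (i x)`. -/
noncomputable def E (x : ℝ) : ℂ := Complex.exp (x * I)

theorem E_add (x y : ℝ) : E (x + y) = E x * E y := by
  simp [E, add_mul, Complex.exp_add]

theorem norm_E (x : ℝ) : ‖E x‖ = 1 := Complex.norm_exp_ofReal_mul_I x

theorem E_ne (x : ℝ) : E x ≠ 0 := Complex.exp_ne_zero _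

theorem conj_E (x : ℝ) : conj (E x) = E (-x) := by
  simp [E, ← Complex.exp_conj]

theorem E_mul_neg (x : ℝ) : E x * E (-x) = 1 := by
  rw [← E_add]; simp [E]

theorem E_sub_E (x y : ℝ) : E (x + y) - E (x - y) = 2 * I * (Real.sin y : ℝ) * E x := by
  rw [sub_eq_add_neg x y, E_add, E_add]
  have h1 : E y = Real.cos y + Real.sin y * I := by simp [E, Complex.exp_mul_I]
  have h2 : E (-y) = Real.cos y - Real.sin y * I := by
    simp [E, ← neg_mul, Complex.exp_mul_I, sub_eq_add_neg]
  rw [h1, h2]; ring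

theorem segment_curve {p q : ℂ} (h : p ≠ q) :
    Curve (fun s : ℝ => p + s * (q - p)) ((q - p) / ‖q - p‖) (-(q - p) / ‖q - p‖) := by
  have hΔ : q - p ≠ 0 := sub_ne_zero.mpr h.symm
  have hn : 0 < ‖q - p‖ := norm_pos_iff.mpr hΔ
  have hn' : ((‖q - p‖ : ℝ) : ℂ) ≠ 0 := by exact_mod_cast hn.ne'
  have hm : (q - p) * conj (q - p) = ((‖q - p‖ : ℝ) : ℂ) ^ 2 := by
    rw [Complex.mul_conj, Complex.normSq_eq_norm_sq]; push_cast; rfl
  refine ⟨by simp [hn.ne'], by simp [hn.ne', norm_sub_rev p q], ⟨‖q - p‖, hn, ?_⟩,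
    ⟨‖q - p‖, hn, ?_⟩, ⟨?_, ?_⟩, fun w => ?_⟩
  · have : HasDerivAt (fun s : ℝ => p + s * (q - p)) (1 * (q - p)) 0 :=
      ((hasDerivAt_id (0 : ℝ)).ofReal_comp.mul_const _).const_add _
    rw [this.deriv]; field_simp
  · have : HasDerivAt (fun s : ℝ => p + ((1 - s : ℝ) : ℂ) * (q - p)) (((-1 : ℝ) : ℂ) * (q - p)) 0 :=
      (((hasDerivAt_id (0 : ℝ)).const_sub 1).ofReal_comp.mul_const _).const_add _
    rw [this.deriv]; push_cast; field_simp
  · simp only [ofReal_one, one_mul, ofReal_zero, zero_mul, add_zero, add_sub_cancel_left]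
    field_simp
    rw [← hm]
  · simp only [ofReal_one, one_mul, ofReal_zero, zero_mul, add_zero, add_sub_cancel_left]
    rw [div_mul_eq_mul_div, hm]
    rintro ⟨-, h2⟩
    have : -(((‖q - p‖ : ℝ) : ℂ) ^ 2 / (‖q - p‖ : ℝ)) = ((-‖q - p‖ : ℝ) : ℂ) := by
      push_cast; field_simp
    rw [this, ofReal_re] at h2
    linarith
  · simp only [OnArc, ofReal_one, one_mul, ofReal_zero, zero_mul, add_zero, add_sub_cancel]
    have e : ∀ a : ℂ, a * conj ((q - p) / ‖q - p‖) * (q - p) = (‖q - p‖ : ℝ) * a := by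
      intro a
      rw [map_div₀, conj_ofReal]
      field_simp
      rw [← hm]; ring
    rw [e, pos_real_mul hn, pos_iff]
    constructor
    · rintro ⟨r, hr, h1⟩
      have hqw : q - w ≠ 0 := by
        intro h0
        rw [h0, map_zero, mul_zero] at h1
        exact hr.ne (by exact_mod_cast h1)
      have hN : 0 < Complex.normSq (q - w) := Complex.normSq_pos.mpr hqw
      refine ⟨r / (r + normSq (q - w)), ⟨by positivity, by rw [div_lt_one (by positivity)]; linarith⟩, ?_⟩
      have h2 : (w - p) * (normSq (q - w) : ℂ) = r * (q - w) := by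
        rw [← Complex.mul_conj, ← h1]; ring
      have h3 : ((r + normSq (q - w) : ℝ) : ℂ) ≠ 0 := by exact_mod_cast (by positivity)
      push_cast at h3 ⊢
      field_simp
      linear_combination -h2
    · rintro ⟨s, ⟨h0, h1⟩, rfl⟩
      refine ⟨s * (1 - s) * ‖q - p‖ ^ 2, by have := sub_pos.mpr h1; positivity, ?_⟩
      have : q - (p + s * (q - p)) = ((1 - s : ℝ) : ℂ) * (q - p) := by push_cast; ring
      rw [this, map_mul, conj_ofReal]
      push_cast
      rw [← hm]; ring

theorem sin_sign {β ε x : ℝ} (hβ : |β| < 2 * π) (hε : ε * β = |β|) (hε1 : ε ^ 2 = 1) (hb : β ≠ 0)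
    (hx0 : 0 < x) (hx1 : x ≤ 1) : 0 < ε * Real.sin (x * β / 2) := by
  have hp := abs_pos.mpr hb
  rcases sq_eq_one_iff_of_ne_zero_or_eq ε hε1 with rfl | rfl
  · rw [one_mul] at hε ⊢
    rw [← hε] at hβ hp
    exact Real.sin_pos_of_pos_of_lt_pi (by positivity) (by nlinarith)
  · rw [neg_one_mul] at hε ⊢
    rw [← hε] at hβ hp
    rw [← Real.sin_neg]
    exact Real.sin_pos_of_pos_of_lt_pi (by nlinarith) (by nlinarith)
where
  sq_eq_one_iff_of_ne_zero_or_eq (ε : ℝ) (h : ε ^ 2 = 1) : ε = 1 ∨ ε = -1 := by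
    have : (ε - 1) * (ε + 1) = 0 := by ring_nf; linarith
    rcases mul_eq_zero.mp this with h | h
    · left; linarith
    · right; linarith

theorem circle_curve (c : ℂ) {r α β ε : ℝ} (hr : 0 < r) (hb : β ≠ 0) (hβ : |β| < 2 * π)
    (hε : ε * β = |β|) (hε1 : ε ^ 2 = 1) :
    Curve (fun s : ℝ => c + r * E (α + s * β)) (ε * I * E α) (-(ε * I * E (α + β))) := by
  have hεn : ‖(ε : ℂ)‖ = 1 := by
    rw [Complex.norm_real, Real.norm_eq_abs]
    nlinarith [abs_nonneg ε, sq_abs ε]
  have hε2 : (ε : ℂ) ^ 2 = 1 := by exact_mod_cast hε1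
  have hder : ∀ x : ℝ, HasDerivAt (fun s : ℝ => c + r * E (α + s * β))
      (r * (E (α + x * β) * (β * I))) x := by
    intro x
    have h1 : HasDerivAt (fun s : ℝ => ((α + s * β : ℝ) : ℂ) * I) (((1 * β : ℝ) : ℂ) * I) x :=
      ((((hasDerivAt_id x).mul_const β).const_add α).ofReal_comp).mul_const I
    rw [one_mul] at h1
    exact (h1.cexp.const_mul (r : ℂ)).const_add c
  have hab : (|β| : ℝ) = ((ε : ℂ) * β) := by exact_mod_cast hε.symm
  -- chords
  have chord : ∀ x y : ℝ, (c + r * E (α + y * β)) - (c + r * E (α + x * β)) =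
      2 * r * I * (Real.sin ((y - x) * β / 2) : ℝ) * E (α + (x + y) * β / 2) := by
    intro x y
    have := E_sub_E (α + (x + y) * β / 2) ((y - x) * β / 2)
    rw [show α + (x + y) * β / 2 + (y - x) * β / 2 = α + y * β by ring,
      show α + (x + y) * β / 2 - (y - x) * β / 2 = α + x * β by ring] at this
    linear_combination (r : ℂ) * this
  have hS : 0 < ε * Real.sin (β / 2) := by
    simpa using sin_sign hβ hε hε1 hb one_pos le_rfl
  have hΔ := chord 0 1
  simp only [sub_zero, one_mul, zero_add] at hΔ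
  have key : conj ((ε : ℂ) * I * E α) * (2 * r * I * (Real.sin (β / 2) : ℝ) * E (α + β / 2)) =
      ((2 * r * (ε * Real.sin (β / 2)) : ℝ) : ℂ) * E (β / 2) := by
    simp only [map_mul, conj_ofReal, conj_I, conj_E, E_add]
    push_cast
    linear_combination (-2 * r * ε * Complex.sin (β / 2) * E (β / 2) * E α * E (-α)) * I_mul_I +
      (2 * r * ε * Complex.sin (β / 2) * E (β / 2)) * E_mul_neg α
  have hEne : E (β / 2) ≠ -1 := by
    intro h
    have h1 : Real.sin (β / 2) = 0 := by
      have := congrArg Complex.im h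
      simpa [E, Complex.exp_ofReal_mul_I_im, -ofReal_div] using this
    rw [h1] at hS; simp at hS
  refine ⟨by simp [norm_E, hεn, -Complex.norm_real], by simp [norm_E, hεn, -Complex.norm_real],
    ⟨r * |β|, by positivity, ?_⟩, ⟨r * |β|, by positivity, ?_⟩, ⟨?_, ?_⟩, fun w => ?_⟩
  · rw [(hder 0).deriv]
    push_cast
    rw [hab]
    simp only [zero_mul, add_zero]
    linear_combination (-(r : ℂ) * β * I * E α) * hε2
  · have h1 : HasDerivAt (fun s : ℝ => 1 - s) (-1) 0 := (hasDerivAt_id (0 : ℝ)).const_sub 1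
    have h0 : HasDerivAt (fun s : ℝ => c + r * E (α + s * β)) (r * (E (α + β) * (β * I)))
        ((fun s : ℝ => 1 - s) 0) := by
      have := hder 1
      simpa only [one_mul, sub_zero] using this
    have h2 := HasDerivAt.scomp (0 : ℝ) h0 h1
    rw [show deriv (fun s => c + r * E (α + (1 - s) * β)) 0 = _ from h2.deriv]
    push_cast
    rw [hab]
    simp only [neg_smul, one_smul]
    linear_combination ((r : ℂ) * β * I * E (α + β)) * hε2
  · simp only [zero_mul, add_zero, one_mul] at hΔ ⊢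
    rw [hΔ]
    simp only [map_mul, conj_ofReal, conj_I, conj_E, map_ofNat]
    have h1 : E (α + β) = E (α + β / 2) * E (β / 2) := by rw [← E_add]; congr 1; ring
    have h2 : E α * E (β / 2) * E (-(α + β / 2)) = 1 := by rw [← E_add, E_mul_neg]
    rw [h1]
    linear_combination (2 * r * I ^ 3 * (Real.sin (β / 2) : ℝ) * E (α + β / 2) * ε ^ 2) * h2 +
      (2 * r * I ^ 3 * (Real.sin (β / 2) : ℝ) * E (α + β / 2)) * hε2 +
      (2 * r * I * (Real.sin (β / 2) : ℝ) * E (α + β / 2)) * I_mul_I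
  · simp only [zero_mul, add_zero, one_mul] at hΔ ⊢
    rw [hΔ, pos_iff]
    rintro ⟨x, hx, h1⟩
    have h2 := congrArg conj h1
    rw [map_neg, map_mul, conj_conj, key, conj_ofReal] at h2
    have h3 := congrArg norm h2
    rw [norm_neg, norm_mul, norm_E, mul_one, Complex.norm_real, Complex.norm_real,
      Real.norm_of_nonneg (by positivity), Real.norm_of_nonneg hx.le] at h3
    rw [h3] at h2
    have hx' : (x : ℂ) ≠ 0 := by exact_mod_cast hx.ne'
    exact hEne (mul_left_cancel₀ hx' (by linear_combination -h2))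
  · have hmul : ∀ s : ℝ, ((c + r * E (α + s * β)) - (c + r * E (α + 0 * β))) *
        (Real.sin ((1 - s) * β / 2) : ℝ) * E (β / 2) =
        (Real.sin (s * β / 2) : ℝ) * ((c + r * E (α + 1 * β)) - (c + r * E (α + s * β))) := by
      intro s
      rw [chord 0 s, chord s 1]
      have : E (α + (s + 1) * β / 2) = E (α + (0 + s) * β / 2) * E (β / 2) := by
        rw [← E_add]; congr 1; ring
      rw [this, sub_zero]; ring
    have hK : 0 < 2 * r * (ε * Real.sin (β / 2)) := by positivity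
    have e : ∀ a : ℂ, a * conj ((ε : ℂ) * I * E α) *
        ((c + r * E (α + 1 * β)) - (c + r * E (α + 0 * β))) =
        ((2 * r * (ε * Real.sin (β / 2)) : ℝ) : ℂ) * (a * E (β / 2)) := by
      intro a
      rw [one_mul, hΔ, mul_assoc, key]; ring
    simp only [OnArc]
    rw [e, pos_real_mul hK, pos_iff]
    set P := c + r * E (α + 0 * β) with hP
    set Q := c + r * E (α + 1 * β) with hQ
    constructor
    · rintro ⟨x, hx, h1⟩
      have hqw : Q - w ≠ 0 := by
        intro h0
        rw [h0, map_zero, mul_zero, zero_mul] at h1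
        exact hx.ne (by exact_mod_cast h1)
      have hN : 0 < Complex.normSq (Q - w) := Complex.normSq_pos.mpr hqw
      have h2 : (w - P) * (normSq (Q - w) : ℂ) * E (β / 2) = x * (Q - w) := by
        rw [← Complex.mul_conj, ← h1]; ring
      have hc : ContinuousOn (fun s : ℝ => normSq (Q - w) * (ε * Real.sin (s * β / 2)) -
          x * (ε * Real.sin ((1 - s) * β / 2))) (Set.Icc 0 1) := by fun_prop
      obtain ⟨s, hs, hs0⟩ := intermediate_value_Ioo zero_le_one hc (show (0 : ℝ) ∈ _ by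
        constructor
        · simp; positivity
        · simp; positivity)
      refine ⟨s, hs, ?_⟩
      have h3 := hmul s
      have h4 := sin_sign hβ hε hε1 hb (sub_pos.mpr hs.2) (by linarith [hs.1])
      have hε0 : ε ≠ 0 := by rintro rfl; simp at hε1
      have h5 : normSq (Q - w) * Real.sin (s * β / 2) = x * Real.sin ((1 - s) * β / 2) :=
        mul_left_cancel₀ hε0 (by simp only at hs0; linarith)
      have h5' : (normSq (Q - w) : ℂ) * (Real.sin (s * β / 2) : ℝ) =
          x * (Real.sin ((1 - s) * β / 2) : ℝ) := by exact_mod_cast h5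
      have h6 : ((Real.sin ((1 - s) * β / 2) : ℝ) : ℂ) ≠ 0 := by
        have : Real.sin ((1 - s) * β / 2) ≠ 0 := by
          intro h; rw [h] at h4; simp at h4
        exact_mod_cast this
      have h7 : (normSq (Q - w) : ℂ) * E (β / 2) + x ≠ 0 := by
        intro h
        have h8 : (normSq (Q - w) : ℂ) * E (β / 2) = -x := by linear_combination h
        have h9 := congrArg norm h8
        rw [norm_neg, norm_mul, norm_E, mul_one, Complex.norm_real, Complex.norm_real,
          Real.norm_of_nonneg hN.le, Real.norm_of_nonneg hx.le] at h9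
        rw [h9] at h8
        have hx' : (x : ℂ) ≠ 0 := by exact_mod_cast hx.ne'
        exact hEne (mul_left_cancel₀ hx' (by linear_combination h8))
      apply mul_left_cancel₀ h6
      apply mul_left_cancel₀ h7
      linear_combination (normSq (Q - w) : ℂ) * h3 - (Real.sin ((1 - s) * β / 2) : ℝ) * h2 +
        (Q - (c + r * E (α + s * β))) * h5'
    · rintro ⟨s, hs, rfl⟩
      have h3 := sin_sign hβ hε hε1 hb hs.1 hs.2.le
      have h4 := sin_sign hβ hε hε1 hb (sub_pos.mpr hs.2) (by linarith [hs.1])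
      refine ⟨4 * r ^ 2 * ((ε * Real.sin (s * β / 2)) * (ε * Real.sin ((1 - s) * β / 2))),
        by positivity, ?_⟩
      rw [hP, hQ, chord 0 s, chord s 1]
      simp only [map_mul, conj_ofReal, conj_I, conj_E, map_ofNat, sub_zero]
      have h2 : E (α + (0 + s) * β / 2) * E (β / 2) * E (-(α + (s + 1) * β / 2)) = 1 := by
        rw [← E_add, ← E_add]
        rw [show α + (0 + s) * β / 2 + β / 2 + -(α + (s + 1) * β / 2) = 0 by ring]
        simp [E]
      simp only [ofReal_mul, ofReal_pow, ofReal_ofNat]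
      linear_combination (-4 * r ^ 2 * I ^ 2 * (Real.sin (s * β / 2) : ℝ) *
          (Real.sin ((1 - s) * β / 2) : ℝ)) * h2 +
        (-4 * r ^ 2 * (Real.sin (s * β / 2) : ℝ) * (Real.sin ((1 - s) * β / 2) : ℝ)) * I_mul_I +
        (-4 * r ^ 2 * (Real.sin (s * β / 2) : ℝ) * (Real.sin ((1 - s) * β / 2) : ℝ)) * hε2

end Pool.Agent.P.MP_e1cc3f_lc
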