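import Pool.Agent.P.MP_e1cc3f_lc.Pad
import Pool.Agent.Lib.NP.Dec

/-! Graphs given by a vertex list, an adjacency test and target degrees. -/

namespace Pool.Agent.P.MP_e1cc3f_lc

open Pool.Agent.Lib.NP N487b59b3

theorem Alg.comap {β γ : Type} {S : Set β} {A dg p t} (H : Alg S A dg p t) {S' : Set γ}
    {A' : γ → γ → Prop} {dg' : γ → ℕ} (f : γ → β) (hf : Set.InjOn f S') (hS : ∀ u ∈ S', f u ∈ S)
    (hA : ∀ u v, A' u v → u ∈ S' ∧ v ∈ S' ∧ A (f u) (f v) ∧ dg' u = dg (f u)) :
    Alg S' A' dg' (fun u => p (f u)) (fun u v => t (f u) (f v)) :=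
  ⟨fun u hu v hv h => hf hu hv (H.inj (hS u hu) (hS v hv) h),
    fun u v h => H.unit _ _ (hA u v h).2.2.1, fun u v h => H.ok _ _ (hA u v h).2.2.1,
    fun u v h w hw => H.avoid _ _ (hA u v h).2.2.1 _ (hS w hw),
    fun u v v' h h' => by
      rw [(hA u v h).2.2.2]; exact H.frame _ _ _ (hA u v h).2.2.1 (hA u v' h').2.2.1,
    fun u v v' h h' e => hf (hA u v h).2.1 (hA u v' h').2.1
      (H.tinj _ _ _ (hA u v h).2.2.1 (hA u v' h').2.2.1 e)⟩

theorem adjMatrix_inj {n n' : ℕ} {G : SimpleGraph (Fin n)} {G' : SimpleGraph (Fin n')}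
    (h : adjMatrix G = adjMatrix G') : ∃ e : n = n', e ▸ G = G' := by
  obtain rfl : n = n' := by simpa [adjMatrix] using congrArg List.length h
  refine ⟨rfl, ?_⟩
  ext i j
  have := congrFun (List.ofFn_injective (congrFun (List.ofFn_injective h) i)) j
  simpa using this

theorem lombardi_encode {n : ℕ} (G : SimpleGraph (Fin n)) :
    Lombardi (enc (adjMatrix G)) = true ↔ HasLombardiDrawing G := by
  simp only [Lombardi, decide_eq_true_eq]
  constructor
  · rintro ⟨n', G', h1, h2⟩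
    obtain ⟨rfl, rfl⟩ := adjMatrix_inj (bitEncode_injective h1)
    exact h2
  · exact fun h => ⟨n, G, rfl, h⟩

section

variable {α : Type} (vs : List α) (ad : α → α → Bool)

/-- The adjacency relation on the members of the list. -/
def listA (u v : α) : Prop := u ∈ vs ∧ v ∈ vs ∧ ad u v = true

theorem ncard_listA (hnd : vs.Nodup) {u : α} (hu : u ∈ vs) :
    {v | listA vs ad u v}.ncard = vs.countP (ad u) := by
  classical
  have : {v | listA vs ad u v} = ↑(vs.filter (ad u)).toFinset := by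
    ext v; simp [listA, hu]
  rw [this, Set.ncard_coe_finset, List.toFinset_card_of_nodup (hnd.filter _),
    List.countP_eq_length_filter]

theorem lombardi_list (hnd : vs.Nodup) (hs : ∀ u v, ad u v = true → ad v u = true)
    (hi : ∀ u, ¬ ad u u = true) :
    Lombardi (enc (vs.map fun u => vs.map (ad u))) = true ↔
      ∃ p t, Alg {u | u ∈ vs} (listA vs ad) (fun u => vs.countP (ad u)) p t := by
  classical
  let G : SimpleGraph (Fin vs.length) :=
    { Adj i j := ad (vs.get i) (vs.get j) = true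
      symm := ⟨fun _ _ h => hs _ _ h⟩
      loopless := ⟨fun _ h => hi _ h⟩ }
  have hG : adjMatrix G = vs.map fun u => vs.map (ad u) := by
    unfold adjMatrix
    apply List.ext_getElem (by simp)
    intro i h1 h2
    apply List.ext_getElem (by simp)
    intro j h3 h4
    simp [G]
  have ginj : Function.Injective vs.get := List.nodup_iff_injective_get.1 hnd
  have hdeg : ∀ i, (G.neighborSet i).ncard = vs.countP (ad (vs.get i)) := by
    intro i
    rw [← ncard_listA vs ad hnd (List.get_mem vs i), ← Set.ncard_image_of_injective _ ginj]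
    congr 1
    ext v
    constructor
    · rintro ⟨j, hj, rfl⟩
      exact ⟨List.get_mem _ _, List.get_mem _ _, hj⟩
    · rintro ⟨-, h2, h3⟩
      obtain ⟨j, rfl⟩ := List.mem_iff_get.1 h2
      exact ⟨j, h3, rfl⟩
  rw [← hG, lombardi_encode, lombardi_iff_alg]
  constructor
  · rintro ⟨p, t, H⟩
    rcases vs with _ | ⟨v0, l⟩
    · exact ⟨0, 0, by simp, fun u v h => by simp [listA] at h, fun u v h => by simp [listA] at h,
        fun u v h => by simp [listA] at h, fun u v _ h => by simp [listA] at h,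
        fun u v _ h => by simp [listA] at h⟩
    have : Nonempty (Fin (v0 :: l).length) := ⟨⟨0, by simp⟩⟩
    choose! f hf using fun v (hv : v ∈ v0 :: l) => List.mem_iff_get.1 hv
    refine ⟨_, _, H.comap f (fun u hu v hv h => ?_) (fun _ _ => trivial) fun u v h =>
      ⟨h.1, h.2.1, ?_, ?_⟩⟩
    · rw [← hf u hu, ← hf v hv, h]
    · change ad _ _ = true
      rw [hf u h.1, hf v h.2.1]; exact h.2.2
    · rw [hdeg, hf u h.1]
  · rintro ⟨p, t, H⟩
    exact ⟨_, _, H.comap vs.get ginj.injOn (fun i _ => List.get_mem vs i) fun i j h =>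
      ⟨trivial, trivial, ⟨List.get_mem _ _, List.get_mem _ _, h⟩, hdeg i⟩⟩

variable [DecidableEq α] (dg : α → ℕ)

def padVs : List (α × ℕ) :=
  vs.flatMap fun u => (List.range (dg u - vs.countP (ad u) + 1)).map fun r => (u, r)

def padAd (x y : α × ℕ) : Bool :=
  (x.2 == 0 && y.2 == 0 && ad x.1 y.1) || (x.1 == y.1 && ((x.2 == 0) != (y.2 == 0)))

/-- The graph padded with leaves so that `u` has degree `dg u`. -/
def padCode : List Bool :=
  enc ((padVs vs ad dg).map fun x => (padVs vs ad dg).map (padAd ad x))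

theorem lombardi_pad (hnd : vs.Nodup) (hs : ∀ u v, ad u v = true → ad v u = true)
    (hi : ∀ u, ¬ ad u u = true) (hdg : ∀ u ∈ vs, vs.countP (ad u) ≤ dg u) :
    Lombardi (padCode vs ad dg) = true ↔ ∃ p t, Alg {u | u ∈ vs} (listA vs ad) dg p t := by
  set k : α → ℕ := fun u => dg u - vs.countP (ad u) with hk
  have hmem : ∀ x, x ∈ padVs vs ad dg ↔ x ∈ padS {u | u ∈ vs} k := by
    rintro ⟨u, r⟩
    simp [padVs, padS, hk]
  have hnd' : (padVs vs ad dg).Nodup := by
    unfold padVs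
    rw [List.nodup_flatMap]
    refine ⟨fun u _ => List.nodup_range.map fun a b h => (Prod.mk.inj h).2, hnd.imp ?_⟩
    intro a b hab x h1 h2
    simp only [List.mem_map] at h1 h2
    obtain ⟨r, -, rfl⟩ := h1
    obtain ⟨s, -, h⟩ := h2
    exact hab (Prod.mk.inj h).1.symm
  have hS : {x | x ∈ padVs vs ad dg} = padS {u | u ∈ vs} k := Set.ext hmem
  have hA : listA (padVs vs ad dg) (padAd ad) = padA {u | u ∈ vs} (listA vs ad) k := by
    funext x y
    simp only [listA, padA, hmem, padAd, eq_iff_iff]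
    refine and_congr_right fun hx => and_congr_right fun hy => ?_
    have h1 : x.1 ∈ vs := hx.1
    have h2 : y.1 ∈ vs := hy.1
    by_cases h3 : x.2 = 0 <;> by_cases h4 : y.2 = 0 <;> simp [h1, h2, h3, h4]
  have hdeg : ∀ u ∈ vs, (padVs vs ad dg).countP (padAd ad (u, 0)) = dg u := by
    intro u hu
    rw [← ncard_listA _ _ hnd' ((hmem (u, 0)).2 ⟨hu, Nat.zero_le _⟩), hA]
    have : {y | padA {u | u ∈ vs} (listA vs ad) k (u, 0) y} =
        (fun v => (v, 0)) '' {v | listA vs ad u v} ∪ (fun r => (u, r)) '' ↑(Finset.Icc 1 (k u)) := by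
      ext ⟨v, s⟩
      simp only [padA, padS, listA, Set.mem_ofPred_eq, Set.mem_union, Set.mem_image,
        Prod.mk.injEq, Finset.coe_Icc, Set.mem_Icc]
      constructor
      · rintro ⟨-, ⟨h1, h2⟩, ⟨-, rfl, h3⟩ | ⟨rfl, h3⟩⟩
        · exact Or.inl ⟨v, h3, rfl, rfl⟩
        · exact Or.inr ⟨s, ⟨Nat.pos_of_ne_zero (h3.1 trivial), h2⟩, rfl, rfl⟩
      · rintro (⟨_, h1, rfl, rfl⟩ | ⟨_, h1, rfl, rfl⟩)
        · exact ⟨⟨hu, Nat.zero_le _⟩, ⟨h1.2.1, Nat.zero_le _⟩, Or.inl ⟨trivial, rfl, h1⟩⟩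
        · exact ⟨⟨hu, Nat.zero_le _⟩, ⟨hu, h1.2⟩, Or.inr ⟨rfl, by simp; omega⟩⟩
    rw [this, Set.ncard_union_eq ?_ (((List.finite_toSet vs).subset fun v hv => hv.2.1).image _),
      Set.ncard_image_of_injective _ (fun a b h => (Prod.mk.inj h).1),
      Set.ncard_image_of_injective _ (fun a b h => (Prod.mk.inj h).2), ncard_listA _ _ hnd hu,
      Set.ncard_coe_finset, Nat.card_Icc]
    · have := hdg u hu; simp only [hk]; omega
    · rw [Set.disjoint_left]
      rintro _ ⟨v, -, rfl⟩ ⟨r, h1, h2⟩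
      have := (Prod.mk.inj h2).2
      simp at h1; omega
  rw [padCode, lombardi_list _ _ hnd', hS, hA]
  · constructor
    · rintro ⟨p, t, H⟩
      exact ⟨_, _, (pad_sound (fun u v h => ⟨h.1, h.2.1⟩) H).comap id (Set.injOn_id _)
        (fun _ h => h) fun u v h => ⟨h.1, h.2.1, h, (hdeg u h.1).symm⟩⟩
    · rintro ⟨p, t, H⟩
      refine pad_complete (List.finite_toSet vs) (fun u v h => ⟨h.1, h.2.1, ?_, h.2.1, h.1,
        hs _ _ h.2.2⟩) (fun u hu => ?_) H _ hdeg
      · rintro rfl; exact hi _ h.2.2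
      · rw [ncard_listA _ _ hnd hu]
        have := hdg u hu; simp only [hk]; omega
  · rintro ⟨u, r⟩ ⟨v, s⟩
    simp only [padAd, Bool.or_eq_true, Bool.and_eq_true, beq_iff_eq, bne_iff_ne]
    rintro (⟨⟨h1, h2⟩, h3⟩ | ⟨h1, h2⟩)
    · exact Or.inl ⟨⟨h2, h1⟩, hs _ _ h3⟩
    · exact Or.inr ⟨h1.symm, h2.symm⟩
  · rintro ⟨u, r⟩
    simp [padAd, hi u]

end

theorem pt_padCode {ι α : Type} [Enc ι] [Enc α] [DecidableEq α] {vs : ι → List α}
    {ad : ι → α → α → Bool} {dg : ι → α → ℕ} (h1 : PT vs)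
    (h2 : PT fun x : ι × α × α => ad x.1 x.2.1 x.2.2) (h3 : PT fun x : ι × α => dg x.1 x.2) :
    PT fun i => padCode (vs i) (ad i) (dg i) := by
  have h4 : PT fun i => padVs (vs i) (ad i) (dg i) := by
    unfold padVs
    refine PT.flatMap (PT.map (by fun_prop) (PT.range (PT.add (PT.sub h3 (PT.countP ?_
      (by fun_prop))) (by fun_prop)))) h1
    exact h2.comp (g := fun x : (ι × α) × α => (x.1.1, x.1.2, x.2)) (by fun_prop)
  unfold padCode
  refine PT.enc' (PT.map (PT.map ?_ (h4.comp (by fun_prop))) h4)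
  unfold padAd
  have h5 := h2.comp (g := fun x : (ι × α × ℕ) × α × ℕ => (x.1.1, x.1.2.1, x.2.1)) (by fun_prop)
  exact PT.or (PT.and (by fun_prop) h5) (by fun_prop)

end Pool.Agent.P.MP_e1cc3f_lc
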