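import Pool.Agent.P.MP_e1cc3f_lc.Sat
import Pool.Agent.P.MP_e1cc3f_lc.ListGraph

/-! From systems of harmonic quadruples of distinct real points to Lombardi drawability. -/

set_option synthInstance.maxSize 100000

namespace Pool.Agent.P.MP_e1cc3f_lc

open Pool.Agent.Lib.NP N487b59b3 Polynomial Complex

instance encSum {α β : Type} [Enc α] [Enc β] : Enc (α ⊕ β) :=
  ⟨fun x => enc (x.getLeft?, x.getRight?), fun a b h => by
    have := Enc.inj h
    cases a <;> cases b <;> simp_all⟩

@[fun_prop] theorem pt_inl {ι α β : Type} [Enc ι] [Enc α] [Enc β] {f : ι → α} (hf : PT f) :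
    PT fun a => (Sum.inl (f a) : α ⊕ β) :=
  show PT fun a => (some (f a), (none : Option β)) by fun_prop

@[fun_prop] theorem pt_inr {ι α β : Type} [Enc ι] [Enc α] [Enc β] {f : ι → β} (hf : PT f) :
    PT fun a => (Sum.inr (f a) : α ⊕ β) :=
  show PT fun a => ((none : Option α), some (f a)) by fun_prop

def memB {α : Type} [DecidableEq α] (a : α) (l : List α) : Bool := decide (a ∈ l)

@[simp] theorem memB_iff {α : Type} [DecidableEq α] (a : α) (l : List α) :
    memB a l = true ↔ a ∈ l := by simp [memB]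

@[fun_prop] theorem pt_memB {ι α : Type} [Enc ι] [Enc α] [DecidableEq α] {f : ι → α}
    {l : ι → List α} (hf : PT f) (hl : PT l) : PT fun a => memB (f a) (l a) :=
  PT.decide_mem hf hl

/-- Removal of duplicates. -/
def dd {α : Type} [DecidableEq α] (l : List α) : List α :=
  l.foldl (fun acc a => if a ∈ acc then acc else a :: acc) []

theorem dd_spec {α : Type} [DecidableEq α] (l : List α) :
    (dd l).Nodup ∧ ∀ a, a ∈ dd l ↔ a ∈ l := by
  have : ∀ acc : List α, acc.Nodup →
      (l.foldl (fun acc a => if a ∈ acc then acc else a :: acc) acc).Nodup ∧ ∀ a,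
      a ∈ l.foldl (fun acc a => if a ∈ acc then acc else a :: acc) acc ↔ a ∈ acc ∨ a ∈ l := by
    induction l with
    | nil => simp
    | cons b l ih =>
      intro acc h
      rw [List.foldl_cons]
      split_ifs with hb
      · exact ⟨(ih acc h).1, fun a => by rw [(ih acc h).2]; grind⟩
      · have h' := List.nodup_cons.2 ⟨hb, h⟩
        exact ⟨(ih _ h').1, fun a => by rw [(ih _ h').2]; grind⟩
  simpa [dd] using this [] List.nodup_nil

@[fun_prop] theorem pt_dd {ι α : Type} [Enc ι] [Enc α] [DecidableEq α] {f : ι → List α}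
    (hf : PT f) : PT fun a => dd (f a) :=
  PT.foldl_add (f := fun _ acc a => if a ∈ acc then acc else a :: acc) (by fun_prop) hf
    (by fun_prop) (2 * X + 1) fun a s b => by
      split_ifs <;> simp; omega

/-- Solvability of a system of constraints by pairwise distinct real numbers. -/
def DSat {α C : Type} (vars : C → List α) (R : (α → ℝ) → C → Prop) (cs : List C) : Prop :=
  ∃ f : α → ℝ, Set.InjOn f {a | a ∈ cs.flatMap vars} ∧ ∀ c ∈ cs, R f c

abbrev Quad (α : Type) := α × α × α × α

variable {α : Type}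

def qvars (c : Quad α) : List α := [c.1, c.2.1, c.2.2.1, c.2.2.2]

def qHolds (f : α → ℝ) (c : Quad α) : Prop :=
  (qvars c).Nodup ∧ Harm (f c.1) (f c.2.1) (f c.2.2.1) (f c.2.2.2)

abbrev CV (α : Type) := (ℕ ⊕ α) ⊕ Option (Quad α × Bool)

variable [DecidableEq α] (qs : List (Quad α))

def coreVs : List (CV α) :=
  dd (((List.range 4).map fun k => .inl (.inl k)) ++
    ((qs.flatMap qvars).map fun a => .inl (.inr a)) ++
    .inr none :: qs.flatMap fun c => [.inr (some (c, false)), .inr (some (c, true))])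

def coreE : List (CV α × CV α) :=
  ((List.range 4).flatMap fun k => ((List.range k).map fun l => (.inl (.inl k), .inl (.inl l))) ++
    ((qs.flatMap qvars).map fun a => (.inl (.inl k), .inl (.inr a))) ++
    [(.inr none, .inl (.inl k))]) ++
  qs.flatMap fun c => (qvars c).flatMap fun a =>
    [(.inr (some (c, false)), .inl (.inr a)), (.inr (some (c, true)), .inl (.inr a))]

def coreAd (u v : CV α) : Bool := memB (u, v) (coreE qs) || memB (v, u) (coreE qs)

def coreD : ℕ := 14 * (coreVs qs).length ^ 3 + 1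

def coreDg (u : CV α) : ℕ :=
  if u = .inr none then 7 else if memB u (qs.map fun c => .inr (some (c, false))) then 4
  else if memB u (qs.map fun c => .inr (some (c, true))) then 14 else coreD qs

def coreCode : List Bool :=
  if qs.all (fun c => (dd (qvars c)).length == 4) then
    padCode (coreVs qs) (coreAd qs) (coreDg qs) else [true]

theorem pt_coreCode [Enc α] : PT (coreCode (α := α)) := by
  have h1 : PT (coreVs (α := α)) := by unfold coreVs qvars; fun_prop
  have h2 : PT (coreE (α := α)) := by unfold coreE qvars; fun_prop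
  have h3 : PT (coreD (α := α)) := by unfold coreD; fun_prop
  unfold coreCode
  refine PT.ite (by unfold qvars; fun_prop) (pt_padCode h1 ?_ ?_) (by fun_prop)
  · unfold coreAd; fun_prop
  · unfold coreDg; fun_prop

def SM : Set (ℕ ⊕ α) := {m | m.elim (· < 4) (· ∈ qs.flatMap qvars)}

def SS : Set (Option (Quad α × Bool)) := {s | s.elim True fun c => c.1 ∈ qs}

def AM : ℕ ⊕ α → ℕ ⊕ α → Prop
  | .inl k, .inl l => k < 4 ∧ l < 4 ∧ k ≠ l
  | .inl k, .inr a => k < 4 ∧ a ∈ qs.flatMap qvars
  | .inr a, .inl k => k < 4 ∧ a ∈ qs.flatMap qvars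
  | .inr _, .inr _ => False

def qv (c : Quad α) : Fin 4 → α := ![c.1, c.2.1, c.2.2.1, c.2.2.2]

def nb : Option (Quad α × Bool) → Fin 4 → ℕ ⊕ α
  | none, k => .inl k
  | some c, k => .inr (qv c.1 k)

def sdeg : Option (Quad α × Bool) → ℕ
  | none => 7
  | some (_, false) => 4
  | some (_, true) => 14

omit [DecidableEq α] in
theorem mem_qvars {c : Quad α} {a : α} : a ∈ qvars c ↔ ∃ k, qv c k = a := by
  simp [qvars, qv, Fin.exists_fin_succ, eq_comm]

omit [DecidableEq α] in
theorem nodup_qvars {c : Quad α} : (qvars c).Nodup ↔ Function.Injective (qv c) := by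
  rw [← List.nodup_ofFn]; rfl

theorem mem_coreVs (u : CV α) : u ∈ coreVs qs ↔ u ∈ sumS (SM qs) (SS qs) := by
  rw [coreVs, (dd_spec _).2]
  rcases u with (k | a) | _ | ⟨c, _ | _⟩ <;> simp [sumS, SM, SS]

theorem coreAd_iff (u v : CV α) : coreAd qs u v = true ↔ sumA (AM qs) (SS qs) nb u v := by
  rcases u with (k | a) | _ | ⟨c, _ | _⟩ <;> rcases v with (l | b) | _ | ⟨d, _ | _⟩ <;>
    simp [coreAd, coreE, sumA, AM, SS, nb, mem_qvars, Fin.exists_iff]
  omega

omit [DecidableEq α] in
theorem core_hA (u v : CV α) (h : sumA (AM qs) (SS qs) nb u v) :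
    u ∈ sumS (SM qs) (SS qs) ∧ v ∈ sumS (SM qs) (SS qs) ∧ u ≠ v ∧ sumA (AM qs) (SS qs) nb v u := by
  have key : ∀ s ∈ SS qs, ∀ k, nb s k ∈ SM qs := by
    rintro (_ | c) hs k
    · exact k.2
    · exact List.mem_flatMap.2 ⟨_, hs, mem_qvars.2 ⟨k, rfl⟩⟩
  rcases u with u | s <;> rcases v with v | s'
  · rcases u with k | a <;> rcases v with l | b
    · exact ⟨h.1, h.2.1, by simpa using h.2.2, h.2.1, h.1, h.2.2.symm⟩
    · exact ⟨h.1, h.2, by simp, h⟩
    · exact ⟨h.2, h.1, by simp, h⟩
    · exact h.elim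
  · obtain ⟨h1, k, rfl⟩ := h
    exact ⟨key _ h1 k, h1, by simp, h1, k, rfl⟩
  · obtain ⟨h1, k, rfl⟩ := h
    exact ⟨h1, key _ h1 k, by simp, h1, k, rfl⟩
  · exact h.elim

theorem core_listA : listA (coreVs qs) (coreAd qs) = sumA (AM qs) (SS qs) nb := by
  funext u v
  simp only [listA, mem_coreVs, coreAd_iff, eq_iff_iff]
  exact ⟨fun h => h.2.2, fun h => ⟨(core_hA qs u v h).1, (core_hA qs u v h).2.1, h⟩⟩

theorem coreDg_eq (u : CV α) (hu : u ∈ sumS (SM qs) (SS qs)) :
    coreDg qs u = Sum.elim (fun _ => coreD qs) sdeg u := by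
  rcases u with m | _ | ⟨c, _ | _⟩ <;> simp_all [coreDg, sdeg, sumS, SS]

theorem lombardi_true : ¬ Lombardi [true] = true := by
  simp only [Lombardi, decide_eq_true_eq]
  rintro ⟨n, G, h, -⟩
  change enc (adjMatrix G) = _ at h
  rcases hG : adjMatrix G with _ | ⟨r, l⟩
  · rw [hG] at h; cases h
  · rw [hG, enc_cons] at h
    cases h' : enc r with
    | nil => simp [h', delimit] at h
    | cons a b => simp [h', delimit] at h

theorem coreCode_iff : DSat qvars qHolds qs ↔ Lombardi (coreCode qs) = true := by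
  have hdd : ∀ c : Quad α, (dd (qvars c)).length = 4 ↔ (qvars c).Nodup := by
    intro c
    have h1 := List.toFinset_card_of_nodup (dd_spec (qvars c)).1
    have h2 : (dd (qvars c)).toFinset = (qvars c).toFinset := by
      ext a; simp [(dd_spec (qvars c)).2]
    rw [← h1, h2, show 4 = (qvars c).length from rfl]
    exact Multiset.toFinset_card_eq_card_iff_nodup (m := (qvars c : Multiset α))
  unfold coreCode
  split_ifs with hall
  swap
  · refine iff_of_false ?_ lombardi_true
    rintro ⟨f, -, hf⟩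
    exact hall (by simpa [hdd] using fun c hc => (hf c hc).1)
  have hnd : ∀ c ∈ qs, (qvars c).Nodup := by simpa [hdd] using hall
  have hS : {u | u ∈ coreVs qs} = sumS (SM qs) (SS qs) := Set.ext (mem_coreVs qs)
  have hvs : (coreVs qs).Nodup := (dd_spec _).1
  have hfin : (sumS (SM qs) (SS qs)).Finite := hS ▸ List.finite_toSet _
  have hcard : (sumS (SM qs) (SS qs)).ncard = (coreVs qs).length := by
    rw [← hS, ← List.toFinset_card_of_nodup hvs, ← Set.ncard_coe_finset]
    congr 1; ext; simp
  have hn : 0 < (coreVs qs).length :=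
    List.length_pos_of_mem ((mem_coreVs qs (.inr none)).2 (by simp [sumS, SS]))
  have hD0 : coreD qs ≠ 0 := by unfold coreD; omega
  have hD : Nat.Coprime 14 (coreD qs) := by unfold coreD; simp
  have hnb : ∀ s ∈ SS qs, Function.Injective (nb s) ∧ ∀ k, nb s k ∈ SM qs := by
    rintro (_ | c) hs
    · exact ⟨fun a b h => Fin.ext (by simpa [nb] using h), fun k => k.2⟩
    · have hc : c.1 ∈ qs := hs
      exact ⟨fun a b h => nodup_qvars.1 (hnd _ hc) (by simpa [nb] using h), fun k =>
        List.mem_flatMap.2 ⟨_, hc, mem_qvars.2 ⟨k, rfl⟩⟩⟩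
  rw [lombardi_pad _ _ _ hvs, hS, core_listA]
  rotate_left
  · intro u v h
    rw [coreAd_iff] at h ⊢
    exact (core_hA qs u v h).2.2.2
  · intro u h
    rw [coreAd_iff] at h
    exact (core_hA qs u u h).2.2.1 rfl
  · intro u hu
    rw [coreDg_eq qs u ((mem_coreVs qs u).1 hu)]
    rcases u with m | s
    · have h1 := List.countP_le_length (p := coreAd qs (.inl m)) (l := coreVs qs)
      have h2 : (coreVs qs).length ≤ (coreVs qs).length ^ 3 := Nat.le_self_pow (by norm_num) _
      simp only [Sum.elim_inl, coreD]; omega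
    · rw [← ncard_listA _ _ hvs hu, core_listA]
      have h1 : {v | sumA (AM qs) (SS qs) nb (.inr s) v} ⊆
          (fun k => Sum.inl (nb s k)) '' Set.univ := by
        rintro (m | s') h
        · obtain ⟨-, k, rfl⟩ := h; exact ⟨k, trivial, rfl⟩
        · exact h.elim
      have h2 := (Set.ncard_le_ncard h1).trans (Set.ncard_image_le (s := Set.univ))
      rw [Set.ncard_univ, Nat.card_fin] at h2
      refine h2.trans ?_
      rcases s with _ | ⟨c, _ | _⟩ <;> simp [sdeg]
  constructor
  · rintro ⟨f, hf, hq⟩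
    obtain ⟨β, hβ, hβ'⟩ := exists_base (coreD qs)
    obtain ⟨A, hA⟩ := Infinite.exists_notMem_finset
      (((qs.flatMap qvars).toFinset ×ˢ Finset.univ).image fun x : α × Fin 4 => f x.1 - β x.2)
    let ρ : ℕ ⊕ α → ℝ := Sum.elim (fun k => if h : k < 4 then A + β ⟨k, h⟩ else 0) f
    have hA' : ∀ a ∈ qs.flatMap qvars, ∀ k, A + β k ≠ f a := fun a ha k e =>
      hA (Finset.mem_image.2 ⟨(a, k), by simpa using ha, by linarith⟩)
    have hρ : Set.InjOn ρ (SM qs) := by
      rintro (k | a) h (l | b) h' e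
      · change k < 4 at h
        change l < 4 at h'
        simp only [ρ, Sum.elim_inl, dif_pos h, dif_pos h', add_right_inj] at e
        exact congrArg _ (congrArg Fin.val (hβ e))
      · change k < 4 at h
        simp only [ρ, Sum.elim_inl, Sum.elim_inr, dif_pos h] at e
        exact absurd e (hA' b h' _)
      · change l < 4 at h'
        simp only [ρ, Sum.elim_inl, Sum.elim_inr, dif_pos h'] at e
        exact absurd e.symm (hA' a h _)
      · exact congrArg _ (hf h h' e)
    have hfam : ∀ s ∈ SS qs, ∃ X : Fin (coreD qs) → ℂ, (s ≠ none → Function.Injective X) ∧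
        ∀ j, SatOK (sdeg s) (coreD qs) (fun k => ρ (nb s k)) (X j) := by
      rintro (_ | ⟨c, s⟩) hs
      · exact ⟨fun _ => A + I, by simp, fun _ => by simpa [ρ, nb, sdeg] using hβ' A⟩
      have hc : c ∈ qs := hs
      have hz : Function.Injective fun k => ρ (nb (some (c, s)) k) := fun a b e =>
        (hnb _ hs).1 (hρ ((hnb _ hs).2 a) ((hnb _ hs).2 b) e)
      cases s
      · obtain ⟨X, h1, h2⟩ := sat_family (d := 4) hD0 (Nat.Coprime.pow_left 2
          (Nat.Coprime.coprime_mul_right (m := 2) (k := 7) hD)) (by norm_num) (by decide)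
          (y0 := I) (by simp) (by norm_num) hz (hq c hc).2
        exact ⟨X, fun _ => h1, h2⟩
      · obtain ⟨X, h1, h2⟩ := sat_family (d := 14) hD0 hD (by norm_num) (by decide)
          (y0 := W 1) (by rw [show 14 = 7 * 2 from rfl, pow_mul, W_pow, one_pow]) (by
            rw [sq, ← W_add, ← AddChar.map_zero_eq_one W]
            exact W_injective.ne (by decide)) hz (hq c hc).2
        exact ⟨X, fun _ => h1, h2⟩
    choose! X hX hX' using hfam
    have hSS : (SS qs).Finite := (hfin.preimage Sum.inr_injective.injOn).subset fun s hs => hs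
    obtain ⟨j, hj⟩ := union_bound (L := Fin (coreD qs)) (hSS.toFinset ×ˢ hSS.toFinset)
      (fun x j => x.1 ≠ none ∧ x.1 ≠ x.2 ∧ X x.1 (j x.1) = X x.2 (j x.2)) Prod.fst (by
        rintro ⟨s, s'⟩ hs j j' h1 ⟨h2, h3, h4⟩ ⟨-, -, h5⟩
        have hs' : s ∈ SS qs := by simpa using (Finset.mem_product.1 hs).1
        refine hX s hs' h2 (h4.trans (Eq.trans ?_ h5.symm))
        rw [h1 _ (Ne.symm h3)]) (by
        have h1 : hSS.toFinset.card ≤ (coreVs qs).length := by
          rw [← hcard, ← Set.ncard_eq_toFinset_card _ hSS,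
            ← Set.ncard_image_of_injective _ (Sum.inr_injective (α := ℕ ⊕ α))]
          exact Set.ncard_le_ncard (by rintro _ ⟨s, hs, rfl⟩; exact hs) hfin
        have h2 := Nat.mul_le_mul h1 h1
        have h3 : (coreVs qs).length ^ 2 ≤ (coreVs qs).length ^ 3 :=
          Nat.pow_le_pow_right hn (by norm_num)
        rw [Finset.card_product, Fintype.card_fin, coreD]
        nlinarith)
    obtain ⟨p, t, H⟩ := sum_complete (AM := AM qs) (d := sdeg) (D := coreD qs) hfin
      (fun u v h => by simpa [sumS, sumA] using core_hA qs (.inl u) (.inl v) h) hnb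
      (by rintro (_ | ⟨c, _ | _⟩) <;> simp [sdeg]) (by rw [hcard, coreD]; omega) hρ
      (x := fun s => X s (j s)) (fun s hs s' hs' e => by
        by_contra hne
        by_cases h : s = none
        · exact hj (s', s) (by simp [hs, hs']) ⟨fun h' => hne (h.trans h'.symm), Ne.symm hne, e.symm⟩
        · exact hj (s, s') (by simp [hs, hs']) ⟨h, hne, e⟩) fun s hs => hX' s hs _
    exact ⟨p, t, H.comap id (Set.injOn_id _) (fun _ h => h) fun u v h =>
      ⟨(core_hA qs u v h).1, (core_hA qs u v h).2.1, h, coreDg_eq qs u (core_hA qs u v h).1⟩⟩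
  · rintro ⟨p, t, H⟩
    have hm : ∀ a ∈ qs.flatMap qvars, (∀ k : Fin 4, sumA (AM qs) (SS qs) nb (.inl (.inr a))
        (.inl (.inl k))) ∧ coreDg qs (.inl (.inr a)) = coreD qs :=
      fun a ha => ⟨fun k => ⟨k.2, ha⟩, by simp [coreDg]⟩
    obtain ⟨f, hf, hq⟩ := core_sound H hD0 hD (core_hA qs) (fun k => .inl (.inl k))
      (fun k l h => ⟨k.2, l.2, fun e => h (Fin.ext e)⟩) (fun k => by simp [coreDg]) (.inr none)
      (fun k => ⟨by simp [SS], k, rfl⟩) (by simp [coreDg])
    refine ⟨fun a => f (.inl (.inr a)), fun a ha b hb e => by simpa using hf (hm a ha) (hm b hb) e,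
      fun c hc => ⟨hnd c hc, ?_⟩⟩
    exact hq (fun k => .inl (.inr (qv c k)))
      (fun a b e => nodup_qvars.1 (hnd c hc) (by simpa using e))
      (fun k => hm _ (List.mem_flatMap.2 ⟨c, hc, mem_qvars.2 ⟨k, rfl⟩⟩))
      (.inr (some (c, false))) (.inr (some (c, true)))
      (fun k => ⟨by simpa [SS] using hc, k, rfl⟩) (by simp [coreDg, hc]) (by simp)
      (fun k => ⟨by simpa [SS] using hc, k, rfl⟩) (by simp [coreDg, hc]) (by simp)

end Pool.Agent.P.MP_e1cc3f_lc
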