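import Mathlib

/-! Linear relations between seventh roots of unity over a cyclotomic field of conductor prime
to seven. -/

namespace Pool.Agent.P.MP_e1cc3f_lc

open Complex Polynomial Real

/-- The cyclotomic field of conductor `N`. -/
noncomputable def FF (N : ℕ) : IntermediateField ℚ ℂ :=
  IntermediateField.adjoin ℚ {Complex.exp (2 * π * I / N)}

theorem mem_FF {N : ℕ} (hN : N ≠ 0) {x : ℂ} (hx : x ^ N = 1) : x ∈ FF N := by
  have : NeZero N := ⟨hN⟩
  obtain ⟨k, -, rfl⟩ := (Complex.isPrimitiveRoot_exp N hN).eq_pow_of_pow_eq_one hx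
  exact pow_mem (IntermediateField.mem_adjoin_simple_self _ _) k

/-- The seventh roots of unity. -/
noncomputable def W : AddChar (ZMod 7) ℂ := ZMod.stdAddChar

theorem W_add (a b : ZMod 7) : W (a + b) = W a * W b := W.map_add_eq_mul a b

theorem W_injective : Function.Injective W := ZMod.injective_stdAddChar

theorem W_natCast (k : ℕ) : W k = Complex.exp (2 * π * I / (7 : ℕ)) ^ k := by
  have := ZMod.stdAddChar_coe (N := 7) k
  rw [Int.cast_natCast] at this
  rw [W, this, ← Complex.exp_nat_mul]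
  congr 1; push_cast; ring

theorem W_pow (a : ZMod 7) : W a ^ 7 = 1 := by
  rw [← AddChar.map_nsmul_eq_pow, show 7 • a = 0 by rw [nsmul_eq_mul]; exact mul_eq_zero_of_left rfl a,
    AddChar.map_zero_eq_one]

theorem exists_W {x : ℂ} (hx : x ^ 7 = 1) : ∃ a, W a = x := by
  obtain ⟨k, -, rfl⟩ := (Complex.isPrimitiveRoot_exp 7 (by norm_num)).eq_pow_of_pow_eq_one hx
  exact ⟨k, W_natCast k⟩

theorem conj_rel {N : ℕ} (hN : N ≠ 0) (h7 : Nat.Coprime N 7) {ι : Type} [Fintype ι] (a : ι → ℂ)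
    (ha : ∀ i, a i ∈ FF N) (n : ι → ZMod 7) (h : ∑ i, a i * W (n i) = 0) (j : ZMod 7)
    (hj : j ≠ 0) : ∑ i, a i * W (j * n i) = 0 := by
  have hpos : 0 < 7 * N := by omega
  have hη := Complex.isPrimitiveRoot_exp (7 * N) hpos.ne'
  set η := Complex.exp (2 * π * I / (7 * N : ℕ)) with hηdef
  have hN' : (N : ℂ) ≠ 0 := by exact_mod_cast hN
  have h1 : Complex.exp (2 * π * I / N) = η ^ 7 := by
    rw [hηdef, ← Complex.exp_nat_mul]; congr 1; push_cast; field_simp
  have h2 : Complex.exp (2 * π * I / (7 : ℕ)) = η ^ N := by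
    rw [hηdef, ← Complex.exp_nat_mul]; congr 1; push_cast; field_simp
  have halg : IsAlgebraic ℚ (Complex.exp (2 * π * I / N)) :=
    (((Complex.isPrimitiveRoot_exp N hN).isIntegral (by omega)).tower_top (A := ℚ)).isAlgebraic
  have hR : ∀ i, ∃ R : ℚ[X], aeval (η ^ 7) R = a i := by
    intro i
    have := ha i
    rw [FF, ← IntermediateField.mem_toSubalgebra,
      IntermediateField.adjoin_simple_toSubalgebra_of_isAlgebraic halg,
      Algebra.adjoin_singleton_eq_range_aeval, h1] at this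
    exact this
  choose R hR using hR
  obtain ⟨k, hk1, hk2⟩ := Nat.chineseRemainder h7 1 j.val
  have hjv : (k : ZMod 7) = j := by
    rw [(ZMod.natCast_eq_natCast_iff _ _ _).2 hk2, ZMod.natCast_zmod_val]
  have hcop : k.Coprime (7 * N) := by
    refine Nat.Coprime.mul_right ?_ ?_
    · rw [Nat.coprime_comm, Nat.Prime.coprime_iff_not_dvd (by norm_num)]
      intro hd
      exact hj (hjv ▸ (ZMod.natCast_eq_zero_iff k 7).2 hd)
    · rw [Nat.Coprime, hk1.gcd_eq]; simp
  let Q : ℚ[X] := ∑ i, (R i).comp (X ^ 7) * X ^ (N * (n i).val)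
  have hQ : ∀ x : ℂ, aeval x Q = ∑ i, aeval (x ^ 7) (R i) * (x ^ N) ^ (n i).val := by
    intro x
    simp only [Q, map_sum, map_mul, aeval_comp, map_pow, aeval_X, pow_mul]
  have hQ0 : aeval η Q = 0 := by
    rw [hQ, ← h]
    refine Finset.sum_congr rfl fun i _ => ?_
    rw [hR, ← h2, ← W_natCast, ZMod.natCast_zmod_val]
  have hQ1 : aeval (η ^ k) Q = 0 := by
    have h3 := minpoly.dvd ℚ η hQ0
    rw [← cyclotomic_eq_minpoly_rat hη hpos,
      cyclotomic_eq_minpoly_rat (hη.pow_of_coprime k hcop) hpos] at h3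
    exact aeval_eq_zero_of_dvd_aeval_eq_zero h3 (minpoly.aeval ℚ _)
  rw [hQ] at hQ1
  rw [← hQ1]
  refine Finset.sum_congr rfl fun i _ => ?_
  have h4 : (η ^ k) ^ 7 = η ^ 7 := by
    rw [← pow_mul, mul_comm k, pow_mul, ← h1]
    conv_rhs => rw [← pow_one (Complex.exp _)]
    exact pow_eq_pow_of_modEq hk1 (Complex.isPrimitiveRoot_exp N hN).pow_eq_one
  rw [h4, hR, ← pow_mul η k, mul_comm k, pow_mul η N, ← h2, ← pow_mul, ← W_natCast]
  push_cast
  rw [hjv, ZMod.natCast_zmod_val]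

theorem six_terms {N : ℕ} (hN : N ≠ 0) (h7 : Nat.Coprime N 7) (a : Fin 6 → ℂ)
    (ha : ∀ i, a i ∈ FF N) (n : Fin 6 → ZMod 7) (h : ∑ i, a i * W (n i) = 0) (e : ZMod 7) :
    ∑ i with n i = e, a i = 0 := by
  have : Fact (Nat.Prime 7) := ⟨by norm_num⟩
  have key : ∀ e : ZMod 7, 7 * ∑ i with n i = e, a i = ∑ i, a i := by
    intro e
    have h1 : ∑ j : ZMod 7, W (-(j * e)) * ∑ i, a i * W (j * n i) = ∑ i, a i := by
      rw [Finset.sum_eq_single 0]
      · simp
      · intro j _ hj; rw [conj_rel hN h7 a ha n h j hj, mul_zero]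
      · simp
    rw [← h1]
    simp only [Finset.mul_sum]
    rw [Finset.sum_comm, Finset.sum_filter]
    refine Finset.sum_congr rfl fun i _ => ?_
    have h2 := AddChar.sum_mulShift (ψ := W) (n i - e) (ZMod.isPrimitive_stdAddChar 7)
    have h3 : ∀ j : ZMod 7, W (-(j * e)) * (a i * W (j * n i)) = a i * W (j * (n i - e)) := by
      intro j
      rw [mul_left_comm, ← W_add]; congr 2; ring
    simp only [h3, ← Finset.mul_sum, h2, sub_eq_zero]
    split_ifs <;> simp [mul_comm]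
  obtain ⟨e0, he0⟩ : ∃ e0, ∀ i, n i ≠ e0 := by
    by_contra hc
    push Not at hc
    have := Fintype.card_le_of_surjective n hc
    simp at this
  have h0 := key e0
  rw [Finset.filter_false_of_mem (fun i _ => he0 i), Finset.sum_empty, mul_zero] at h0
  have := key e
  rw [← h0] at this
  simpa using this

theorem six_one {N : ℕ} (hN : N ≠ 0) (h7 : Nat.Coprime N 7) (a : Fin 6 → ℂ)
    (ha : ∀ i, a i ∈ FF N) (n : Fin 6 → ZMod 7) (h : ∑ i, a i * W (n i) = 0) (i : Fin 6)
    (hi : ∀ k, n k = n i → k = i) : a i = 0 := by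
  have := six_terms hN h7 a ha n h (n i)
  rwa [show Finset.univ.filter (fun k => n k = n i) = {i} by
    ext k; simpa using ⟨hi k, fun h => h ▸ rfl⟩, Finset.sum_singleton] at this

theorem six_two {N : ℕ} (hN : N ≠ 0) (h7 : Nat.Coprime N 7) (a : Fin 6 → ℂ)
    (ha : ∀ i, a i ∈ FF N) (n : Fin 6 → ZMod 7) (h : ∑ i, a i * W (n i) = 0) (i j : Fin 6)
    (hij : i ≠ j) (hi : ∀ k, n k = n i ↔ k = i ∨ k = j) : a i + a j = 0 := by
  have := six_terms hN h7 a ha n h (n i)
  rwa [show Finset.univ.filter (fun k => n k = n i) = {i, j} by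
    ext k; simpa using hi k, Finset.sum_pair hij] at this

theorem classes3 : ∀ a b c : ZMod 7, a ≠ 0 → b ≠ 0 → c ≠ 0 → a ≠ b → a ≠ c → b ≠ c →
    ∃ i : Fin 6, ∀ k, ![a, b, c, a + b, a + c, b + c] k = ![a, b, c, a + b, a + c, b + c] i →
      k = i := by
  decide +kernel

theorem classes4 : ∀ a b c d : ZMod 7, ¬ (a = b ∧ a = c) → ¬ (a = b ∧ a = d) → ¬ (a = c ∧ a = d) →
    ¬ (b = c ∧ b = d) →
    (∃ i : Fin 6, ∀ k, ![a + b, c + d, a + d, b + c, a + c, b + d] k =
      ![a + b, c + d, a + d, b + c, a + c, b + d] i → k = i) ∨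
    ∃ i j : Fin 6, i.val / 2 < j.val / 2 ∧ ∀ k, ![a + b, c + d, a + d, b + c, a + c, b + d] k =
      ![a + b, c + d, a + d, b + c, a + c, b + d] i ↔ k = i ∨ k = j := by
  decide +kernel

end Pool.Agent.P.MP_e1cc3f_lc
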