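import Mathlib
import Pool.Prelude.Def_F_458e953d

namespace Pool.Agent.P.MP_e1cc3f_lc

open N68a2faeb

/-! ### Lombardi drawings -/

/-- On `[0, 1]` the curve `γ` runs along a straight segment or along a circular arc. -/
def IsSegmentOrArc (γ : ℝ → ℂ) : Prop :=
  (∃ p q : ℂ, p ≠ q ∧ ∀ s : ℝ, γ s = p + s * (q - p)) ∨
  (∃ (c : ℂ) (r α β : ℝ), 0 < r ∧ β ≠ 0 ∧ |β| < 2 * Real.pi ∧
    ∀ s : ℝ, γ s = c + r * Complex.exp ((α + s * β : ℝ) * Complex.I))

/-- `G` has a Lombardi drawing in the plane `ℂ`: distinct points `p v` for the vertices and, for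
each oriented edge `d`, a segment or circular arc `γ d` (the reverse orientation gives the same
curve run backwards) with no vertex in its interior, such that at each vertex with `d` neighbours
the initial tangent directions of the incident edges are `θ + 2πk/d`, `k = 0, …, d - 1`. -/
def HasLombardiDrawing {V : Type} (G : SimpleGraph V) : Prop :=
  ∃ (p : V → ℂ) (γ : G.Dart → ℝ → ℂ), Function.Injective p ∧
    (∀ e : G.Dart, IsSegmentOrArc (γ e) ∧ γ e 0 = p e.fst ∧ γ e 1 = p e.snd ∧
      (∀ s, γ e.symm s = γ e (1 - s)) ∧ ∀ s ∈ Set.Ioo (0 : ℝ) 1, ∀ w, γ e s ≠ p w) ∧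
    ∀ v, ∃ (d : ℕ) (σ : G.neighborSet v ≃ Fin d) (θ : ℝ), ∀ w : G.neighborSet v, ∃ c : ℝ, 0 < c ∧
      deriv (γ ⟨(v, w), w.2⟩) 0 =
        c * Complex.exp ((θ + 2 * Real.pi * (σ w : ℕ) / d : ℝ) * Complex.I)

open Classical in
/-- The adjacency matrix of a graph on `Fin n`, as a list of rows. -/
noncomputable def adjMatrix {n : ℕ} (G : SimpleGraph (Fin n)) : List (List Bool) :=
  List.ofFn fun i => List.ofFn fun j => decide (G.Adj i j)

open Classical in
/-- Lombardi drawability without a rotation system. -/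
noncomputable def Lombardi : DecisionProblem :=
  fun x => decide (∃ (n : ℕ) (G : SimpleGraph (Fin n)),
    N487b59b3.bitEncode (adjMatrix G) = x ∧ HasLombardiDrawing G)

end Pool.Agent.P.MP_e1cc3f_lc
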