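import Pool.Agent.P.MP_e1cc3f_lc.Core

/-! Gadget reductions between constraint systems over pairwise distinct reals. -/

namespace Pool.Agent.P.MP_e1cc3f_lc

open Filter

theorem family {ι : Type} (T : Finset ι) (U : ι → List ℕ) (P : ι → (ℕ → ℝ) → Prop)
    (h : ∀ c ∈ T, ∀ B : Finset ℝ, ∃ g : ℕ → ℝ, Set.InjOn g {n | n ∈ U c} ∧
      (∀ n ∈ U c, g n ∉ B) ∧ P c g) (B0 : Finset ℝ) :
    ∃ g : ι → ℕ → ℝ, (∀ c ∈ T, ∀ n ∈ U c, ∀ c' ∈ T, ∀ n' ∈ U c', g c n = g c' n' →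
      c = c' ∧ n = n') ∧ ∀ c ∈ T, (∀ n ∈ U c, g c n ∉ B0) ∧ P c (g c) := by
  classical
  induction T using Finset.induction_on with
  | empty => exact ⟨0, by simp, by simp⟩
  | insert a T ha ih =>
    obtain ⟨g, hg1, hg2⟩ := ih fun c hc => h c (Finset.mem_insert_of_mem hc)
    obtain ⟨g', h1, h2, h3⟩ := h a (Finset.mem_insert_self a T)
      (B0 ∪ T.biUnion fun c => (U c).toFinset.image (g c))
    have h4 : ∀ n ∈ U a, ∀ c ∈ T, ∀ n' ∈ U c, g' n ≠ g c n' := fun n hn c hc n' hn' e =>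
      h2 n hn (Finset.mem_union_right _ (Finset.mem_biUnion.2
        ⟨c, hc, Finset.mem_image.2 ⟨n', by simpa using hn', e.symm⟩⟩))
    have hne : ∀ c ∈ T, c ≠ a := fun c hc e => ha (e ▸ hc)
    refine ⟨Function.update g a g', fun c hc n hn c' hc' n' hn' e => ?_, fun c hc => ?_⟩
    · rw [Finset.mem_insert] at hc hc'
      rcases hc with rfl | hc <;> rcases hc' with rfl | hc'
      · rw [Function.update_self] at e
        exact ⟨rfl, h1 hn hn' e⟩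
      · rw [Function.update_self, Function.update_of_ne (hne _ hc')] at e
        exact absurd e (h4 n hn c' hc' n' hn')
      · rw [Function.update_self, Function.update_of_ne (hne _ hc)] at e
        exact absurd e.symm (h4 n' hn' c hc n hn)
      · rw [Function.update_of_ne (hne _ hc), Function.update_of_ne (hne _ hc')] at e
        exact hg1 c hc n hn c' hc' n' hn' e
    · rcases Finset.mem_insert.1 hc with rfl | hc
      · rw [Function.update_self]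
        exact ⟨fun n hn e => h2 n hn (Finset.mem_union_left _ e), h3⟩
      · rw [Function.update_of_ne (hne _ hc)]
        exact hg2 c hc

variable {α C C' : Type}

theorem gadget_complete {vars : C → List α} {R : (α → ℝ) → C → Prop}
    {vars' : C' → List (α ⊕ C × ℕ)} {R' : (α ⊕ C × ℕ → ℝ) → C' → Prop} (G : C → List C')
    (U : C → List ℕ)
    (hvars : ∀ c, ∀ x ∈ (G c).flatMap vars',
      x ∈ (vars c).map Sum.inl ++ (U c).map fun n => Sum.inr (c, n))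
    (hG : ∀ c f, R f c → ∀ B : Finset ℝ, ∃ g : ℕ → ℝ, Set.InjOn g {n | n ∈ U c} ∧
      (∀ n ∈ U c, g n ∉ B) ∧ ∀ F : α ⊕ C × ℕ → ℝ, (∀ a, F (.inl a) = f a) →
        (∀ n, F (.inr (c, n)) = g n) → ∀ c' ∈ G c, R' F c')
    {cs : List C} (h : DSat vars R cs) : DSat vars' R' (cs.flatMap G) := by
  classical
  obtain ⟨f, hf, hR⟩ := h
  obtain ⟨g, hg1, hg2⟩ := family cs.toFinset U _ (fun c hc => hG c f (hR c (by simpa using hc)))
    ((cs.flatMap vars).toFinset.image f)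
  have key : ∀ x ∈ (cs.flatMap G).flatMap vars', (∃ a ∈ cs.flatMap vars, x = .inl a) ∨
      ∃ c ∈ cs.toFinset, ∃ n ∈ U c, x = .inr (c, n) := by
    intro x hx
    rw [List.flatMap_assoc] at hx
    obtain ⟨c, hc, hx⟩ := List.mem_flatMap.1 hx
    rcases List.mem_append.1 (hvars c x hx) with h | h
    · obtain ⟨a, ha, rfl⟩ := List.mem_map.1 h
      exact Or.inl ⟨a, List.mem_flatMap.2 ⟨c, hc, ha⟩, rfl⟩
    · obtain ⟨n, hn, rfl⟩ := List.mem_map.1 h
      exact Or.inr ⟨c, by simpa using hc, n, hn, rfl⟩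
  refine ⟨Sum.elim f fun x => g x.1 x.2, fun x hx y hy e => ?_, fun c' hc' => ?_⟩
  · rcases key x hx with ⟨a, ha, rfl⟩ | ⟨c, hc, n, hn, rfl⟩ <;>
      rcases key y hy with ⟨b, hb, rfl⟩ | ⟨d, hd, m, hm, rfl⟩
    · exact congrArg _ (hf ha hb e)
    · exact absurd (Finset.mem_image.2 ⟨a, by simpa using ha, e⟩) ((hg2 d hd).1 m hm)
    · exact absurd (Finset.mem_image.2 ⟨b, by simpa using hb, e.symm⟩) ((hg2 c hc).1 n hn)
    · obtain ⟨rfl, rfl⟩ := hg1 c hc n hn d hd m hm e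
      rfl
  · obtain ⟨c, hc, hc'⟩ := List.mem_flatMap.1 hc'
    exact (hg2 c (by simpa using hc)).2 _ (fun _ => rfl) (fun _ => rfl) c' hc'

theorem gadget_sound {β : Type} {vars : C → List α} {R : (α → ℝ) → C → Prop}
    {vars' : C' → List β} {R' : (β → ℝ) → C' → Prop} (G : C → List C') (ι : α → β)
    (hι : Function.Injective ι) (hvars : ∀ c, ∀ a ∈ vars c, ι a ∈ (G c).flatMap vars')
    (hG : ∀ c F, Set.InjOn F {x | x ∈ (G c).flatMap vars'} → (∀ c' ∈ G c, R' F c') →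
      R (fun a => F (ι a)) c)
    {cs : List C} (h : DSat vars' R' (cs.flatMap G)) : DSat vars R cs := by
  obtain ⟨F, hF, hR⟩ := h
  have key : ∀ c ∈ cs, ∀ x ∈ (G c).flatMap vars', x ∈ (cs.flatMap G).flatMap vars' := by
    intro c hc x hx
    rw [List.flatMap_assoc]
    exact List.mem_flatMap.2 ⟨c, hc, hx⟩
  refine ⟨fun a => F (ι a), fun a ha b hb e => ?_, fun c hc => hG c F (hF.mono (key c hc))
    fun c' hc' => hR c' (List.mem_flatMap.2 ⟨c, hc, hc'⟩)⟩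
  obtain ⟨c, hc, ha⟩ := List.mem_flatMap.1 ha
  obtain ⟨d, hd, hb⟩ := List.mem_flatMap.1 hb
  exact hι (hF (key c hc _ (hvars c a ha)) (key d hd _ (hvars d b hb)) e)

theorem ev_ne {a : ℝ} (ha : a ≠ 0) (b c : ℝ) : ∀ᶠ s in cofinite, a * s + b ≠ c := by
  rw [eventually_cofinite]
  refine (Set.finite_singleton ((c - b) / a)).subset fun s hs => ?_
  simp only [ne_eq, not_not, Set.mem_ofPred_eq] at hs
  rw [Set.mem_singleton_iff, eq_div_iff ha]; linarith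

theorem ev_generic (U : List ℕ) (a b : ℕ → ℝ) (ha : ∀ n ∈ U, a n ≠ 0)
    (hb : ∀ n ∈ U, ∀ m ∈ U, a n = a m → b n = b m → n = m) (B : Finset ℝ) :
    ∀ᶠ s in cofinite, Set.InjOn (fun n => a n * s + b n) {n | n ∈ U} ∧
      ∀ n ∈ U, a n * s + b n ∉ B := by
  have h1 : ∀ᶠ s in cofinite, ∀ n ∈ {n | n ∈ U}, ∀ m ∈ {n | n ∈ U},
      a n * s + b n = a m * s + b m → n = m := by
    rw [eventually_all_finite (List.finite_toSet U)]
    intro n hn
    rw [eventually_all_finite (List.finite_toSet U)]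
    intro m hm
    by_cases h : a n = a m
    · exact Eventually.of_forall fun s e => hb n hn m hm h (by rw [h] at e; linarith)
    · exact (ev_ne (sub_ne_zero.2 h) (b n) (b m)).mono fun s hs e => absurd (by linarith) hs
  have h2 : ∀ᶠ s in cofinite, ∀ n ∈ {n | n ∈ U}, ∀ y ∈ B, a n * s + b n ≠ y := by
    rw [eventually_all_finite (List.finite_toSet U)]
    intro n hn
    rw [eventually_all_finset]
    exact fun y _ => ev_ne (ha n hn) _ _
  exact (h1.and h2).mono fun s hs => ⟨fun n hn m hm e => hs.1 n hn m hm e,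
    fun n hn e => hs.2 n hn _ e rfl⟩

/-- Three reals in arithmetic progression, in some order. -/
def AP3 (a b c : ℝ) : Prop := 2 * a = b + c ∨ 2 * b = a + c ∨ 2 * c = a + b

theorem AP3.sub {a b c : ℝ} (h : AP3 a b c) (x : ℝ) : AP3 (a - x) (b - x) (c - x) := by
  unfold AP3 at *; grind

theorem force0 {d r3 r6 r7 : ℝ} (h0 : d ≠ 0) (h1 : r3 ≠ r6) (h2 : r7 ≠ d) (h2' : r7 ≠ r3)
    (h3 : AP3 r3 d 0) (h4 : AP3 r3 0 r7) (h5 : AP3 d 0 r6) (h7 : AP3 0 r6 r7) :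
    (r3 = d / 2 ∧ r6 = -d ∧ r7 = -d / 2) ∨ (r3 = 2 * d ∧ r6 = -d ∧ r7 = -2 * d) ∨
    (r3 = -d ∧ r6 = d / 2 ∧ r7 = -d / 2) ∨ (r3 = -d ∧ r6 = 2 * d ∧ r7 = -2 * d) := by
  have a3 : r3 = d / 2 ∨ r3 = 2 * d ∨ r3 = - d := by unfold AP3 at h3; grind
  have a6 : r6 = d / 2 ∨ r6 = 2 * d ∨ r6 = - d := by unfold AP3 at h5; grind
  clear h3 h5
  unfold AP3 at *
  rcases a3 with rfl | rfl | rfl <;> rcases a6 with rfl | rfl | rfl <;> grind

theorem force1 {d r0 r3 r6 r7 r10 : ℝ} (h1 : AP3 r0 r3 r6) (h2 : AP3 r0 0 r10)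
    (h6 : AP3 d r7 r10)
    (h : (r3 = d / 2 ∧ r6 = -d ∧ r7 = -d / 2) ∨ (r3 = 2 * d ∧ r6 = -d ∧ r7 = -2 * d) ∨
      (r3 = -d ∧ r6 = d / 2 ∧ r7 = -d / 2) ∨ (r3 = -d ∧ r6 = 2 * d ∧ r7 = -2 * d)) :
    r0 + r10 = 0 := by
  rcases h with ⟨rfl, rfl, rfl⟩ | ⟨rfl, rfl, rfl⟩ | ⟨rfl, rfl, rfl⟩ | ⟨rfl, rfl, rfl⟩ <;>
    rcases h1 with h1 | h1 | h1 <;> rcases h6 with h6 | h6 | h6 <;> rcases h2 with h2 | h2 | h2 <;>
    linarith

/-- The triples of the order-forcing gadget. -/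
def trip : List (ℕ × ℕ × ℕ) :=
  [(0, 3, 6), (0, 5, 10), (3, 4, 5), (3, 5, 7), (4, 5, 6), (4, 7, 10), (5, 6, 7)]

theorem force {r : ℕ → ℝ} (h : Set.InjOn r {n | n ∈ [0, 3, 4, 5, 6, 7, 10]})
    (h' : ∀ t ∈ trip, AP3 (r t.1) (r t.2.1) (r t.2.2)) : 2 * r 5 = r 0 + r 10 := by
  simp only [trip, List.forall_mem_cons] at h'
  obtain ⟨h1, h2, h3, h4, h5, h6, h7, -⟩ := h'
  have hne : ∀ a ∈ [0, 3, 4, 5, 6, 7, 10], ∀ b ∈ [0, 3, 4, 5, 6, 7, 10], a ≠ b →
      r a - r 5 ≠ r b - r 5 := fun a ha b hb hab e => hab (h ha hb (by linarith))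
  have := force1 (h1.sub (r 5)) (by simpa using h2.sub (r 5)) (h6.sub (r 5))
    (force0 (by simpa using hne 4 (by simp) 5 (by simp) (by simp))
      (hne _ (by simp) _ (by simp) (by simp)) (hne _ (by simp) _ (by simp) (by simp))
      (hne _ (by simp) _ (by simp) (by simp)) (by simpa using h3.sub (r 5))
      (by simpa using h4.sub (r 5)) (by simpa using h5.sub (r 5)) (by simpa using h7.sub (r 5)))
  linarith

theorem trip_ap (a b : ℝ) : ∀ t ∈ trip, AP3 (a + t.1 * b) (a + t.2.1 * b) (a + t.2.2 * b) := by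
  simp only [trip, List.forall_mem_cons, AP3]
  push_cast
  refine ⟨?_, ?_, ?_, ?_, ?_, ?_, ?_, by simp⟩ <;> right <;> left <;> ring

theorem harm_pole {o a b c : ℝ} (ha : a ≠ o) (hb : b ≠ o) (hc : c ≠ o) :
    Harm o a b c ↔ AP3 (a - o)⁻¹ (b - o)⁻¹ (c - o)⁻¹ := by
  have h1 := sub_ne_zero.2 ha
  have h2 := sub_ne_zero.2 hb
  have h3 := sub_ne_zero.2 hc
  have key : ∀ {a b c : ℝ}, a - o ≠ 0 → b - o ≠ 0 → c - o ≠ 0 →
      (Hm o a b c ↔ 2 * (a - o)⁻¹ = (b - o)⁻¹ + (c - o)⁻¹) := by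
    intro a b c h1 h2 h3
    unfold Hm
    field_simp
    constructor <;> intro h <;> linarith
  unfold Harm AP3
  rw [key h1 h2 h3, key h2 h1 h3, key h3 h1 h2]

theorem harm_inv {o a b c d : ℝ} (ha : a ≠ o) (hb : b ≠ o) (hc : c ≠ o) (hd : d ≠ o) :
    Harm (a - o)⁻¹ (b - o)⁻¹ (c - o)⁻¹ (d - o)⁻¹ ↔ Harm a b c d := by
  have key : ∀ {a b c d : ℝ}, a ≠ o → b ≠ o → c ≠ o → d ≠ o →
      (Hm (a - o)⁻¹ (b - o)⁻¹ (c - o)⁻¹ (d - o)⁻¹ ↔ Hm a b c d) := by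
    intro a b c d ha hb hc hd
    have h1 := sub_ne_zero.2 ha
    have h2 := sub_ne_zero.2 hb
    have h3 := sub_ne_zero.2 hc
    have h4 := sub_ne_zero.2 hd
    unfold Hm
    field_simp
    constructor <;> intro h <;> linarith
  unfold Harm
  rw [key ha hb hc hd, key ha hc hb hd, key ha hd hb hc]

end Pool.Agent.P.MP_e1cc3f_lc
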