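import Pool.Agent.P.MP_e1cc3f_lc.Layer2

/-! `ETR` reduces to Lombardi drawability. -/

set_option synthInstance.maxSize 100000

namespace Pool.Agent.P.MP_e1cc3f_lc

open Pool.Agent.Lib.NP Pool.Agent.Lib.ETR N793a5b8e

theorem pt_flatMap {α β : Type} [Enc α] [Enc β] {g : α → List β} (hg : PT g) :
    PT fun l : List α => l.flatMap g :=
  PT.flatMap (f := fun _ a => g a) (hg.comp (PT.snd PT.id')) PT.id'

theorem pt_map {α β : Type} [Enc α] [Enc β] {g : α → β} (hg : PT g) :
    PT fun l : List α => l.map g :=
  PT.map (f := fun _ a => g a) (hg.comp (PT.snd PT.id')) PT.id'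

theorem lombardi_hard : ManyOneReducible ETR Lombardi := by
  classical
  refine ERHardPT.manyOne (as_hard.reduce
    (g := fun cs => coreCode ((((cs.flatMap G1).flatMap G2).flatMap G3).map G4))
    (pt_coreCode.comp ((pt_map pt_G4).comp ((pt_flatMap pt_G3).comp
      ((pt_flatMap pt_G2).comp (pt_flatMap pt_G1))))) fun cs => ?_)
  rw [← coreCode_iff, ← layer4]
  exact ⟨fun h => layer3_complete (layer2_complete (pair_complete (layer1_complete h))),
    fun h => layer1_sound (pair_sound (layer2_sound (layer3_sound h)))⟩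

end Pool.Agent.P.MP_e1cc3f_lc
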