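import Pool.Agent.P.MP_e1cc3f_lc.Pad

/-! Choice of tangent directions by a union bound. -/

namespace Pool.Agent.P.MP_e1cc3f_lc

open Complex ComplexConjugate Real

theorem union_bound_fin {J L ε : Type} [Fintype J] [Fintype L] (E : Finset ε)
    (Bad : ε → (J → L) → Prop) (g : ε → J)
    (h : ∀ e ∈ E, ∀ j j', (∀ x, x ≠ g e → j x = j' x) → Bad e j → Bad e j' → j (g e) = j' (g e))
    (hc : E.card < Fintype.card L) : ∃ j, ∀ e ∈ E, ¬ Bad e j := by
  classical
  have : Nonempty L := Fintype.card_pos_iff.1 (by omega)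
  by_contra hcon
  push Not at hcon
  have hN : 0 < Fintype.card (J → L) := Fintype.card_pos
  have h1 : ∀ e ∈ E, (Finset.univ.filter (Bad e)).card * Fintype.card L ≤ Fintype.card (J → L) := by
    intro e he
    rw [← Finset.card_univ (α := L), ← Finset.card_product, ← Finset.card_univ]
    refine Finset.card_le_card_of_injOn (fun x => Function.update x.1 (g e) x.2)
      (fun _ _ => Finset.mem_univ _) ?_
    rintro ⟨j, x⟩ hj ⟨j', x'⟩ hj' hh
    simp only [Finset.coe_product, Finset.coe_filter, Set.mem_prod, Set.mem_ofPred_eq] at hj hj'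
    have h2 : ∀ y, y ≠ g e → j y = j' y := fun y hy => by simpa [hy] using congrFun hh y
    have h3 := h e he j j' h2 hj.1.2 hj'.1.2
    refine Prod.ext (funext fun y => ?_) (by simpa using congrFun hh (g e))
    by_cases hy : y = g e
    · rw [hy]; exact h3
    · exact h2 y hy
  have h2 : Fintype.card (J → L) ≤ ∑ e ∈ E, (Finset.univ.filter (Bad e)).card := by
    refine le_trans ?_ Finset.card_biUnion_le
    rw [← Finset.card_univ]
    refine Finset.card_le_card fun j _ => ?_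
    obtain ⟨e, he, hb⟩ := hcon j
    exact Finset.mem_biUnion.2 ⟨e, he, by simpa using hb⟩
  have h3 := Nat.mul_le_mul_right (Fintype.card L) h2
  rw [Finset.sum_mul] at h3
  have h4 := Finset.sum_le_card_nsmul E _ _ h1
  rw [smul_eq_mul] at h4
  nlinarith

theorem union_bound {J L ε : Type} [Fintype L] (E : Finset ε)
    (Bad : ε → (J → L) → Prop) (g : ε → J)
    (h : ∀ e ∈ E, ∀ j j', (∀ x, x ≠ g e → j x = j' x) → Bad e j → Bad e j' → j (g e) = j' (g e))
    (hc : E.card < Fintype.card L) : ∃ j, ∀ e ∈ E, ¬ Bad e j := by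
  classical
  have : Nonempty L := Fintype.card_pos_iff.1 (by omega)
  let T := E.image g
  let ex : (T → L) → J → L := fun j x => if h : x ∈ T then j ⟨x, h⟩ else Classical.arbitrary L
  obtain ⟨j, hj⟩ := union_bound_fin (J := T) E.attach (fun e j => Bad e (ex j))
    (fun e => ⟨g e, Finset.mem_image_of_mem g e.2⟩) (fun e _ j j' h1 h2 h3 => by
      have := h e e.2 _ _ (fun x hx => by
        simp only [ex]
        split_ifs with hT
        · exact h1 _ fun e => hx (congrArg Subtype.val e)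
        · rfl) h2 h3
      have hm : g e ∈ T := Finset.mem_image_of_mem g e.2
      simpa only [ex, dif_pos hm] using this) (by simpa using hc)
  exact ⟨ex j, fun e he => hj ⟨e, he⟩ (Finset.mem_attach _ _)⟩

theorem pos_unique {K t t' : ℂ} (ht : ‖t‖ = 1) (ht' : ‖t'‖ = 1) (h : Pos (K * t))
    (h' : Pos (K * t')) : t = t' := by
  obtain ⟨r, hr, h⟩ := pos_iff.1 h
  obtain ⟨r', hr', h'⟩ := pos_iff.1 h'
  exact unit_eq ht ht' hr' hr (by rw [← h, ← h']; ring)

theorem label {β J : Type} {S : Set β} (hS : S.Finite) {A : β → β → Prop}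
    (hA : ∀ u v, A u v → u ∈ S ∧ v ∈ S ∧ A v u) {p : β → ℂ} (hp : Set.InjOn p S) {dg : β → ℕ}
    {D : ℕ} (hD : 3 * S.ncard ^ 3 < D) (g : β → β → J) (a : β → β → ℂ) (e : β → β → Bool)
    (hg : ∀ u v, A u v → g u v = g v u ∧ e u v = !e v u ∧ ‖a u v‖ = 1 ∧
      a u v * a v u * conj (p v - p u) = -(p v - p u))
    (hf : ∀ u v v', A u v → A u v' → a u v ^ dg u = a u v' ^ dg u ∧
      ((g u v = g u v' ∧ e u v = e u v' ∧ (a u v = a u v' → v = v')) ∨
        (g u v ≠ g u v' ∧ dg u = D))) :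
    ∃ t, Alg S A dg p t := by
  classical
  have hD0 : D ≠ 0 := by omega
  have hζ := Complex.isPrimitiveRoot_exp D hD0
  set ζ := Complex.exp (2 * π * I / D)
  have hζn : ‖ζ‖ = 1 := hζ.norm'_eq_one hD0
  have hζ0 : ζ ≠ 0 := hζ.ne_zero hD0
  let X : Bool → Fin D → ℂ := fun b k => if b then ζ ^ (k : ℕ) else (ζ ^ (k : ℕ))⁻¹
  have X1 : ∀ b k, ‖X b k‖ = 1 := fun b k => by cases b <;> simp [X, hζn]
  have X2 : ∀ b k k', X b k = X b k' → k = k' := fun b k k' h => by
    refine Fin.ext (hζ.pow_inj k.2 k'.2 ?_)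
    cases b <;> simpa [X] using h
  have X3 : ∀ b k, X (!b) k * X b k = 1 := fun b k => by cases b <;> simp [X, hζ0]
  have X4 : ∀ b k, X b k ^ D = 1 := fun b k => by
    have : (ζ ^ (k : ℕ)) ^ D = 1 := by rw [← pow_mul, mul_comm, pow_mul, hζ.pow_eq_one, one_pow]
    cases b <;> simp [X, this]
  let t : (J → Fin D) → β → β → ℂ := fun j u v => a u v * X (e u v) (j (g u v))
  have t1 : ∀ j u v, A u v → ‖t j u v‖ = 1 := fun j u v h => by
    simp [t, X1, (hg u v h).2.2.1]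
  have a0 : ∀ u v, A u v → a u v ≠ 0 := fun u v h e => by simpa [e] using (hg u v h).2.2.1
  let T := hS.toFinset
  obtain ⟨j, hj⟩ := union_bound (J := J) (L := Fin D)
    (T ×ˢ T ×ˢ T ×ˢ (Finset.univ : Finset (Fin 3)))
    (fun x j => A x.1 x.2.1 ∧ ![Pos (-(t j x.1 x.2.1 * conj (p x.2.1 - p x.1))),
      OnArc (p x.1) (p x.2.1) (t j x.1 x.2.1) (p x.2.2.1),
      g x.1 x.2.1 ≠ g x.1 x.2.2.1 ∧ t j x.1 x.2.1 = t j x.1 x.2.2.1] x.2.2.2)
    (fun x => g x.1 x.2.1) (by
      rintro ⟨u, v, w, i⟩ - j j' h1 ⟨h, h2⟩ ⟨-, h3⟩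
      refine X2 (e u v) _ _ (mul_left_cancel₀ (a0 u v h) ?_)
      change t j u v = t j' u v
      fin_cases i
      · exact pos_unique (K := -conj (p v - p u)) (t1 _ _ _ h) (t1 _ _ _ h)
          (by rw [neg_mul, mul_comm]; exact h2) (by rw [neg_mul, mul_comm]; exact h3)
      · refine (starRingEnd ℂ).injective (pos_unique
          (K := (p w - p u) * conj (p v - p w) * (p v - p u))
          (by simpa using t1 _ _ _ h) (by simpa using t1 _ _ _ h) ?_ ?_)
        · rw [mul_right_comm]; exact h2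
        · rw [mul_right_comm]; exact h3
      · refine h2.2.trans (Eq.trans ?_ h3.2.symm)
        simp only [t]
        rw [h1 _ (Ne.symm h2.1)]) (by
      simp only [Finset.card_product, Finset.card_univ, Fintype.card_fin, T]
      rw [Set.ncard_eq_toFinset_card _ hS] at hD
      nlinarith)
  have hj' : ∀ u v w i, A u v → w ∈ S → ¬ ![Pos (-(t j u v * conj (p v - p u))),
      OnArc (p u) (p v) (t j u v) (p w), g u v ≠ g u w ∧ t j u v = t j u w] i :=
    fun u v w i h hw hb => hj (u, v, w, i)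
      (by simp [T, (hA u v h).1, (hA u v h).2.1, hw]) ⟨h, hb⟩
  refine ⟨t j, hp, t1 j, fun u v h => ⟨?_, hj' u v u 0 h (hA u v h).1⟩,
    fun u v h w hw => hj' u v w 1 h hw, fun u v v' h h' => ?_, fun u v v' h h' e' => ?_⟩
  · obtain ⟨h1, h2, -, h3⟩ := hg u v h
    simp only [t]
    rw [h1, h2]
    linear_combination (a u v * a v u * conj (p v - p u)) * X3 (e v u) (j (g v u)) + h3
  · obtain ⟨h1, ⟨h2, h3, -⟩ | ⟨-, h2⟩⟩ := hf u v v' h h'
    · simp only [t]; rw [mul_pow, mul_pow, h1, h2, h3]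
    · simp only [t]; rw [mul_pow, mul_pow, h1, h2, X4, X4]
  · obtain ⟨-, ⟨h2, h3, h4⟩ | ⟨h2, -⟩⟩ := hf u v v' h h'
    · apply h4
      simp only [t] at e'
      rw [h2, h3] at e'
      exact mul_right_cancel₀ (fun e0 => by simpa [e0] using X1 (e u v') (j (g u v'))) e'
    · exact absurd ⟨h2, e'⟩ (hj' u v v' 2 h (hA u v' h').2.1)

/-- A position `x` for a vertex of degree `d` joined to four real points. -/
def SatOK (d D : ℕ) (z : Fin 4 → ℝ) (x : ℂ) : Prop :=
  x.im ≠ 0 ∧ ∃ (l : ℂ) (σ η : Fin 4 → ℂ), ‖l‖ = 1 ∧ Function.Injective σ ∧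
    ∀ k, σ k ^ d = 1 ∧ η k ^ D = 1 ∧ x - z k = l * σ k * η k * conj (x - z k)

variable {M Sa : Type}

def sumS (SM : Set M) (SS : Set Sa) : Set (M ⊕ Sa) := {v | v.elim (· ∈ SM) (· ∈ SS)}

def sumA (AM : M → M → Prop) (SS : Set Sa) (nb : Sa → Fin 4 → M) : M ⊕ Sa → M ⊕ Sa → Prop
  | .inl u, .inl v => AM u v
  | .inl m, .inr s => s ∈ SS ∧ ∃ k, nb s k = m
  | .inr s, .inl m => s ∈ SS ∧ ∃ k, nb s k = m
  | .inr _, .inr _ => False

theorem sum_complete {SM : Set M} {SS : Set Sa} (hS : (sumS SM SS).Finite) {AM : M → M → Prop}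
    (hA : ∀ u v, AM u v → u ∈ SM ∧ v ∈ SM ∧ u ≠ v ∧ AM v u) {nb : Sa → Fin 4 → M}
    (hnb : ∀ s ∈ SS, Function.Injective (nb s) ∧ ∀ k, nb s k ∈ SM) {d : Sa → ℕ}
    (hd : ∀ s, d s ≠ 0) {D : ℕ} (hD : 3 * (sumS SM SS).ncard ^ 3 < D) {ρ : M → ℝ}
    (hρ : Set.InjOn ρ SM) {x : Sa → ℂ} (hx : Set.InjOn x SS)
    (hs : ∀ s ∈ SS, SatOK (d s) D (fun k => ρ (nb s k)) (x s)) :
    ∃ p t, Alg (sumS SM SS) (sumA AM SS nb) (Sum.elim (fun _ => D) d) p t := by
  classical
  have hD0 : D ≠ 0 := by omega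
  obtain ⟨_, -⟩ := exists_wellFoundedLT M
  choose! l σ η hl hσ hk using fun s hs' => (hs s hs').2
  let ix : Sa → M → Fin 4 := fun s => Function.invFun (nb s)
  have hix : ∀ s ∈ SS, ∀ k, ix s (nb s k) = k := fun s h =>
    Function.leftInverse_invFun (hnb s h).1
  let g : M ⊕ Sa → M ⊕ Sa → Sym2 M ⊕ Sa
    | .inl u, .inl v => .inl s(u, v)
    | .inl _, .inr s => .inr s
    | .inr s, _ => .inr s
  let a : M ⊕ Sa → M ⊕ Sa → ℂ
    | .inl _, .inl _ => I
    | .inl m, .inr s => I * η s (ix s m)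
    | .inr s, .inl m => I * l s * σ s (ix s m)
    | .inr _, .inr _ => 0
  let e : M ⊕ Sa → M ⊕ Sa → Bool
    | .inl u, .inl v => decide (u < v)
    | .inl _, .inr _ => true
    | .inr _, _ => false
  refine ⟨Sum.elim (fun m => ρ m) x, label hS ?_ ?_ hD g a e ?_ ?_⟩
  · rintro (u | s) (v | s') h
    · exact ⟨(hA u v h).1, (hA u v h).2.1, (hA u v h).2.2.2⟩
    · obtain ⟨h1, k, rfl⟩ := h
      exact ⟨(hnb _ h1).2 k, h1, h1, k, rfl⟩
    · obtain ⟨h1, k, rfl⟩ := h
      exact ⟨h1, (hnb _ h1).2 k, h1, k, rfl⟩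
    · exact h.elim
  · rintro (u | s) hu (v | s') hv h
    · exact congrArg _ (hρ hu hv (ofReal_injective h))
    · exact absurd (by simpa using congrArg Complex.im h.symm) (hs s' hv).1
    · exact absurd (by simpa using congrArg Complex.im h) (hs s hu).1
    · exact congrArg _ (hx hu hv h)
  · rintro (u | s) (v | s') h
    · refine ⟨congrArg _ Sym2.eq_swap, ?_, norm_I, ?_⟩
      · rcases lt_or_gt_of_ne (hA u v h).2.2.1 with h1 | h1 <;> simp [e, h1, h1.not_gt]
      · simp [a]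
    · obtain ⟨h1, k, rfl⟩ := h
      obtain ⟨h2, h3, h4⟩ := hk _ h1 k
      refine ⟨rfl, rfl, by simp [a, hix _ h1, norm_eq_one_of_pow_eq_one h3 hD0], ?_⟩
      simp only [a, hix _ h1, Sum.elim_inl, Sum.elim_inr]
      linear_combination h4 + (η s' k * l s' * σ s' k * conj (x s' - ρ (nb s' k))) * I_mul_I
    · obtain ⟨h1, k, rfl⟩ := h
      obtain ⟨h2, h3, h4⟩ := hk _ h1 k
      refine ⟨rfl, rfl, by simp [a, hix _ h1, norm_eq_one_of_pow_eq_one h2 (hd s), hl _ h1], ?_⟩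
      simp only [a, hix _ h1, Sum.elim_inl, Sum.elim_inr, map_sub] at h4 ⊢
      linear_combination -h4 - (η s k * l s * σ s k * (conj (x s) - conj (ρ (nb s k) : ℂ))) * I_mul_I
    · exact h.elim
  · rintro (u | s) v v' h h'
    · have h1 : ∀ v, sumA AM SS nb (.inl u) v → a (.inl u) v ^ D = I ^ D := by
        rintro (v | s) h
        · rfl
        · obtain ⟨h1, k, rfl⟩ := h
          simp [a, hix _ h1, mul_pow, (hk _ h1 k).2.1]
      refine ⟨(h1 v h).trans (h1 v' h').symm, ?_⟩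
      by_cases hv : v = v'
      · subst hv; exact Or.inl ⟨rfl, rfl, fun _ => rfl⟩
      · refine Or.inr ⟨?_, rfl⟩
        rcases v with v | s <;> rcases v' with v' | s' <;> simp_all [g]
    · rcases v with v | s'
      swap
      · exact h.elim
      rcases v' with v' | s'
      swap
      · exact h'.elim
      obtain ⟨h1, k, rfl⟩ := h
      obtain ⟨-, k', rfl⟩ := h'
      refine ⟨by simp [a, hix _ h1, mul_pow, (hk _ h1 _).1], Or.inl ⟨rfl, rfl, fun h => ?_⟩⟩
      simp only [a, hix _ h1] at h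
      have h2 : l s ≠ 0 := fun e => by simpa [e] using hl s h1
      rw [hσ s h1 (mul_left_cancel₀ (mul_ne_zero I_ne_zero h2) h)]

end Pool.Agent.P.MP_e1cc3f_lc
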