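import Pool.Agent.P.MP_e1cc3f_lc.Layer3
import Pool.Agent.Lib.ETR.AS

/-! Sums and harmonic means by point configurations; arithmetic by sums and harmonic means. -/

set_option synthInstance.maxSize 100000

namespace Pool.Agent.P.MP_e1cc3f_lc

open Filter Pool.Agent.Lib.NP Pool.Agent.Lib.ETR

abbrev SH (α : Type) := Bool × α × α × α

variable {α : Type}

def SHrel (X : α → ℝ) (c : SH α) : Prop :=
  if c.1 then X c.2.2.2 * (X c.2.1 + X c.2.2.1) = 2 * X c.2.1 * X c.2.2.1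
  else X c.2.1 + X c.2.2.1 = X c.2.2.2

def SHs (X : α → ℝ) (c : SH α) : Prop :=
  0 < X c.2.1 ∧ 0 < X c.2.2.1 ∧ 0 < X c.2.2.2 ∧ (c.1 → X c.2.1 ≠ X c.2.2.1) ∧ SHrel X c

def SHw (X : α → ℝ) (c : SH α) : Prop :=
  X c.2.1 ≠ 0 ∧ X c.2.2.1 ≠ 0 ∧ X c.2.2.2 ≠ 0 ∧ SHrel X c

def vars1 (c : SH α) : List (α × ℕ) :=
  [(c.2.1, 0), (c.2.1, 1), (c.2.2.1, 0), (c.2.2.1, 1), (c.2.2.2, 0), (c.2.2.2, 1)]

def dif (f : α × ℕ → ℝ) (a : α) : ℝ := f (a, 1) - f (a, 0)

theorem pair_complete {cs : List (SH α)} (h : ∃ X, ∀ c ∈ cs, SHs X c) :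
    DSat vars1 (fun f c => SHs (dif f) c) cs := by
  classical
  obtain ⟨X, hX⟩ := h
  obtain ⟨g, hg1, hg2⟩ := family (cs.flatMap fun c => [c.2.1, c.2.2.1, c.2.2.2]).toFinset
    (fun _ => [0, 1]) (fun a g => g 1 - g 0 = X a) (fun a ha B => by
      have h0 : X a ≠ 0 := by
        obtain ⟨c, hc, h⟩ := List.mem_flatMap.1 (List.mem_toFinset.1 ha)
        obtain ⟨h1, h2, h3, -⟩ := hX c hc
        simp only [List.mem_cons, List.not_mem_nil, or_false] at h
        rcases h with rfl | rfl | rfl <;> positivity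
      obtain ⟨s, h1, h2⟩ := (ev_generic [0, 1] (fun _ => 1) (fun n => n * X a) (by simp)
        (fun n _ m _ _ e => by exact_mod_cast mul_right_cancel₀ h0 e) B).exists
      exact ⟨_, h1, h2, by simp⟩) ∅
  have key : ∀ x ∈ cs.flatMap vars1,
      x.1 ∈ (cs.flatMap fun c => [c.2.1, c.2.2.1, c.2.2.2]).toFinset ∧ x.2 ∈ [0, 1] := by
    intro x hx
    obtain ⟨c, hc, h⟩ := List.mem_flatMap.1 hx
    rw [List.mem_toFinset, List.mem_flatMap]
    simp only [vars1, List.mem_cons, List.not_mem_nil, or_false] at h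
    rcases h with rfl | rfl | rfl | rfl | rfl | rfl <;> exact ⟨⟨c, hc, by simp⟩, by simp⟩
  refine ⟨fun x => g x.1 x.2, fun x hx y hy e => ?_, fun c hc => ?_⟩
  · obtain ⟨h1, h2⟩ := hg1 _ (key x hx).1 _ (key x hx).2 _ (key y hy).1 _ (key y hy).2 e
    exact Prod.ext h1 h2
  · have h1 : ∀ a ∈ [c.2.1, c.2.2.1, c.2.2.2], dif (fun x => g x.1 x.2) a = X a := fun a ha =>
      (hg2 a (List.mem_toFinset.2 (List.mem_flatMap.2 ⟨c, hc, ha⟩))).2
    simp only [List.forall_mem_cons] at h1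
    have := hX c hc
    unfold SHs SHrel at this ⊢
    beta_reduce
    rwa [h1.1, h1.2.1, h1.2.2.1]

theorem pair_sound {cs : List (SH α)} (h : DSat vars1 (fun f c => SHrel (dif f) c) cs) :
    ∃ X, ∀ c ∈ cs, SHw X c := by
  obtain ⟨f, hf, hR⟩ := h
  refine ⟨dif f, fun c hc => ?_⟩
  have : ∀ a, (a, 0) ∈ vars1 c → (a, 1) ∈ vars1 c → dif f a ≠ 0 := fun a h0 h1 e => by
    simpa using hf (List.mem_flatMap.2 ⟨c, hc, h1⟩) (List.mem_flatMap.2 ⟨c, hc, h0⟩)
      (sub_eq_zero.1 e)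
  exact ⟨this _ (by simp [vars1]) (by simp [vars1]), this _ (by simp [vars1]) (by simp [vars1]),
    this _ (by simp [vars1]) (by simp [vars1]), hR c hc⟩

def G2 (c : SH α) : List (TQ ((α × ℕ) ⊕ SH α × ℕ)) :=
  if c.1 then
    [(false, .inl (c.2.1, 0), .inl (c.2.1, 1), .inr (c, 1), .inr (c, 0)),
      (false, .inl (c.2.2.1, 0), .inl (c.2.2.1, 1), .inr (c, 1), .inr (c, 10)),
      (false, .inl (c.2.2.2, 0), .inl (c.2.2.2, 1), .inr (c, 1), .inr (c, 5))] ++
    trip.map fun t => (true, .inr (c, 1), .inr (c, t.1), .inr (c, t.2.1), .inr (c, t.2.2))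
  else
    [(false, .inl (c.2.1, 0), .inl (c.2.1, 1), .inr (c, 1), .inr (c, 0)),
      (false, .inl (c.2.2.1, 0), .inl (c.2.2.1, 1), .inr (c, 0), .inr (c, 10)),
      (false, .inl (c.2.2.2, 0), .inl (c.2.2.2, 1), .inr (c, 1), .inr (c, 10))]

theorem pt_G2 [Enc α] : PT (G2 (α := α)) := by unfold G2; fun_prop

theorem layer2_complete {cs : List (SH α)} (h : DSat vars1 (fun f c => SHs (dif f) c) cs) :
    DSat vars2 R2s (cs.flatMap G2) := by
  refine gadget_complete G2 (fun c => if c.1 then [1, 0, 3, 4, 5, 6, 7, 10] else [1, 0, 10]) ?_ ?_ h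
  · rintro ⟨_ | _, i, j, k⟩ <;> simp [G2, vars1, vars2, qvars, trip]
  rintro ⟨tag, i, j, k⟩ f ⟨h1, h2, h3, h4, h5⟩ B
  simp only at h1 h2 h3 h4
  have n1 : f (i, 0) ≠ f (i, 1) := fun e => by simp [dif, e] at h1
  have n2 : f (j, 0) ≠ f (j, 1) := fun e => by simp [dif, e] at h2
  have n3 : f (k, 0) ≠ f (k, 1) := fun e => by simp [dif, e] at h3
  cases tag
  · replace h5 : dif f i + dif f j = dif f k := h5
    let b : ℕ → ℝ := fun n => if n = 1 then 0 else if n = 0 then dif f i else dif f k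
    obtain ⟨s, ⟨hs1, hs2⟩, e1, e2, e3⟩ := ((ev_generic [1, 0, 10] (fun _ => 1) b (by simp) (by
      simp only [List.forall_mem_cons, b]
      norm_num
      refine ⟨⟨?_, ?_⟩, ⟨?_, ?_⟩, ?_, ?_⟩ <;> intro e <;> linarith) B).and
      ((ev_eqd (c := b 1) (c' := b 0) (by simp [b, dif]) n1).and
        ((ev_eqd (c := b 0) (c' := b 10) (by simp only [b, dif] at h5 ⊢; norm_num; linarith) n2).and
          (ev_eqd (c := b 1) (c' := b 10) (by simp [b, dif]) n3)))).exists
    refine ⟨_, hs1, hs2, fun F hF hF' => ?_⟩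
    simp only [G2, Bool.false_eq_true, if_false, List.forall_mem_cons, R2s, hF, hF']
    exact ⟨e1, e2, e3, by simp⟩
  · replace h5 : dif f k * (dif f i + dif f j) = 2 * dif f i * dif f j := h5
    replace h4 := h4 rfl
    set δ := ((dif f j)⁻¹ - (dif f i)⁻¹) / 10 with hδ
    have hδ0 : δ ≠ 0 := div_ne_zero (sub_ne_zero.2 fun e => h4 (inv_injective e).symm) (by norm_num)
    have hpos : ∀ n : ℕ, n ≤ 10 → 0 < (dif f i)⁻¹ + n * δ := by
      intro n hn
      have h6 : (n : ℝ) ≤ 10 := by exact_mod_cast hn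
      have h7 := inv_pos.2 h1
      have h8 := inv_pos.2 h2
      have : (dif f i)⁻¹ + n * δ = (10 - n) / 10 * (dif f i)⁻¹ + n / 10 * (dif f j)⁻¹ := by
        rw [hδ]; ring
      rw [this]
      rcases Nat.eq_zero_or_pos n with rfl | h9
      · simpa using h1
      · have : 0 ≤ (10 - (n : ℝ)) / 10 * (dif f i)⁻¹ := mul_nonneg (by linarith) h7.le
        positivity
    let b : ℕ → ℝ := fun n => if n = 1 then 0 else ((dif f i)⁻¹ + n * δ)⁻¹
    have b0 : b 0 = dif f i := by simp [b]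
    have b10 : b 10 = dif f j := by simp [b, hδ, mul_div_cancel₀]
    have b5 : b 5 = dif f k := by
      simp only [b, hδ]
      norm_num
      apply inv_eq_of_mul_eq_one_right
      field_simp
      linarith
    obtain ⟨s, ⟨hs1, hs2⟩, e1, e2, e3⟩ := ((ev_generic [1, 0, 3, 4, 5, 6, 7, 10] (fun _ => 1) b
      (by simp) (by
        intro n hn m hm _ e
        have hn' : n ≤ 10 := by simp at hn; omega
        have hm' : m ≤ 10 := by simp at hm; omega
        simp only [b] at e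
        split_ifs at e with h6 h7 h7
        · omega
        · exact absurd e (inv_pos.2 (hpos m hm')).ne
        · exact absurd e (inv_pos.2 (hpos n hn')).ne'
        · exact_mod_cast mul_right_cancel₀ hδ0 (add_left_cancel (inv_injective e))) B).and
      ((ev_eqd (c := b 1) (c' := b 0) (by simp [b, dif]) n1).and
        ((ev_eqd (c := b 1) (c' := b 10) (by rw [b10]; simp [b, dif]) n2).and
          (ev_eqd (c := b 1) (c' := b 5) (by rw [b5]; simp [b, dif]) n3)))).exists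
    refine ⟨_, hs1, hs2, fun F hF hF' => ?_⟩
    simp only [G2, if_true, List.forall_mem_append, List.forall_mem_cons, R2s, hF, hF',
      Bool.false_eq_true, if_false, List.forall_mem_map]
    refine ⟨⟨e1, e2, e3, by simp⟩, fun t ht => ?_⟩
    have key : ∀ κ ∈ [t.1, t.2.1, t.2.2], κ ≠ 1 ∧ 1 * s + b κ ≠ 1 * s + b 1 ∧
        (1 * s + b κ - (1 * s + b 1))⁻¹ = (dif f i)⁻¹ + κ * δ := by
      intro κ hκ
      have h6 := (trip_mem κ).2 ⟨t, ht, hκ⟩
      have h7 : κ ≠ 1 ∧ κ ≤ 10 := by simp at h6; omega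
      exact ⟨h7.1, by simpa [b, h7.1] using (hpos κ h7.2).ne', by simp [b, h7.1]⟩
    simp only [List.forall_mem_cons] at key
    refine ⟨?_, ?_⟩
    · have := trip_nodup t ht
      simp only [qvars, List.nodup_cons, List.mem_cons] at this ⊢
      simp [key.1.1.symm, key.2.1.1.symm, key.2.2.1.1.symm]
      tauto
    · simp only [hF']
      rw [harm_pole key.1.2.1 key.2.1.2.1 key.2.2.1.2.1, key.1.2.2, key.2.1.2.2, key.2.2.1.2.2]
      exact trip_ap _ _ t ht

theorem layer2_sound {cs : List (SH α)} (h : DSat vars2 R2w (cs.flatMap G2)) :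
    DSat vars1 (fun f c => SHrel (dif f) c) cs := by
  refine gadget_sound G2 Sum.inl Sum.inl_injective ?_ ?_ h
  · rintro ⟨_ | _, i, j, k⟩ <;> simp [G2, vars1, vars2, qvars]
  rintro ⟨_ | _, i, j, k⟩ F hF hR
  · simp only [G2, Bool.false_eq_true, if_false, List.forall_mem_cons, R2w] at hR
    simp only [SHrel, dif, Bool.false_eq_true, if_false]
    linarith [hR.1, hR.2.1, hR.2.2.1]
  · have hv : ∀ κ ∈ [1, 0, 3, 4, 5, 6, 7, 10], Sum.inr ((true, i, j, k), κ) ∈
        (G2 (true, i, j, k)).flatMap vars2 := by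
      simp [G2, vars2, qvars, trip]
    have hne : ∀ κ ∈ [0, 3, 4, 5, 6, 7, 10],
        F (.inr ((true, i, j, k), κ)) ≠ F (.inr ((true, i, j, k), 1)) := fun κ hκ e => by
      have := hF (hv κ (List.mem_cons_of_mem _ hκ)) (hv 1 (by simp)) e
      simp at this hκ; omega
    simp only [G2, if_true, List.forall_mem_append, List.forall_mem_cons, R2w,
      Bool.false_eq_true, if_false, List.forall_mem_map] at hR
    obtain ⟨⟨h1, h2, h3, -⟩, h4⟩ := hR
    have := force (r := fun κ => (F (.inr ((true, i, j, k), κ)) - F (.inr ((true, i, j, k), 1)))⁻¹)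
      (fun a ha b hb e => by
        simpa using hF (hv a (List.mem_cons_of_mem _ ha)) (hv b (List.mem_cons_of_mem _ hb))
          (sub_left_injective (inv_injective e)))
      fun t ht => (harm_pole (hne _ ((trip_mem _).2 ⟨t, ht, by simp⟩))
        (hne _ ((trip_mem _).2 ⟨t, ht, by simp⟩)) (hne _ ((trip_mem _).2 ⟨t, ht, by simp⟩))).1
        (h4 t ht).2
    have n0 := sub_ne_zero.2 (hne 0 (by simp))
    have n5 := sub_ne_zero.2 (hne 5 (by simp))
    have n10 := sub_ne_zero.2 (hne 10 (by simp))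
    simp only [SHrel, dif, if_true]
    rw [h1, h2, h3]
    field_simp at this
    linarith

abbrev N1 (α : Type) := (α ⊕ AC α × ℕ) ⊕ Bool

/-- Constraints for `W = U (U + E) / E`. -/
def sqG (c : AC α) (U : N1 α) (r : ℕ) : List (SH (N1 α)) :=
  [(false, U, .inr true, .inl (.inr (c, r))), (false, U, U, .inl (.inr (c, r + 1))),
    (true, .inl (.inr (c, r)), .inl (.inr (c, r + 2)), .inl (.inr (c, r + 1)))]

def G1 (c : AC α) : List (SH (N1 α)) :=
  if c.1 = 0 then [(false, .inl (.inl c.2.1), .inl (.inl c.2.2.1), .inl (.inr (c, 0))),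
    (false, .inl (.inl c.2.2.2), .inr false, .inl (.inr (c, 0)))]
  else if c.1 = 1 then
    [(false, .inl (.inl c.2.1), .inl (.inl c.2.2.1), .inl (.inr (c, 1))),
      (false, .inl (.inr (c, 0)), .inr false, .inl (.inr (c, 1))),
      (false, .inl (.inr (c, 4)), .inl (.inr (c, 7)), .inl (.inr (c, 14))),
      (false, .inl (.inr (c, 14)), .inl (.inr (c, 6)), .inl (.inr (c, 15))),
      (false, .inl (.inr (c, 10)), .inl (.inr (c, 13)), .inl (.inr (c, 16))),
      (false, .inl (.inl c.2.2.2), .inl (.inl c.2.2.2), .inl (.inr (c, 17))),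
      (false, .inl (.inr (c, 16)), .inl (.inr (c, 17)), .inl (.inr (c, 15)))] ++
    sqG c (.inl (.inr (c, 0))) 2 ++ sqG c (.inr false) 5 ++ sqG c (.inl (.inl c.2.1)) 8 ++
    sqG c (.inl (.inl c.2.2.1)) 11
  else [(false, .inr false, .inr true, .inl (.inl c.2.1))]

theorem pt_G1 [Enc α] : PT (G1 (α := α)) := by unfold G1 sqG; fun_prop

theorem layer1_complete {cs : List (AC α)} (h : ASat cs) :
    ∃ X, ∀ c ∈ cs.flatMap G1, SHs X c := by
  obtain ⟨x, hx⟩ := h
  obtain ⟨M, hM⟩ : ∃ M : ℝ, 0 ≤ M ∧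
      ∀ c ∈ cs, |x c.2.1| ≤ M ∧ |x c.2.2.1| ≤ M ∧ |x c.2.2.2| ≤ M := by
    clear hx
    induction cs with
    | nil => exact ⟨0, le_rfl, by simp⟩
    | cons c l ih =>
      obtain ⟨M, h0, hM⟩ := ih
      have h1 := abs_nonneg (x c.2.1)
      have h2 := abs_nonneg (x c.2.2.1)
      have h3 := abs_nonneg (x c.2.2.2)
      refine ⟨M + |x c.2.1| + |x c.2.2.1| + |x c.2.2.2|, by positivity,
        List.forall_mem_cons.2 ⟨⟨by linarith, by linarith, by linarith⟩, fun d hd => ?_⟩⟩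
      obtain ⟨h4, h5, h6⟩ := hM d hd
      exact ⟨by linarith, by linarith, by linarith⟩
  obtain ⟨B, hB⟩ : ∃ B, B = 2 * M + 2 := ⟨_, rfl⟩
  let aux : AC α → ℕ → ℝ := fun c n =>
    let u := B + x c.2.1
    let v := B + x c.2.2.1
    let a := B + x c.2.1 + x c.2.2.1
    if c.1 = 0 then u + v else
      [a, u + v, a + 1, a + a, a * (a + 1), B + 1, B + B, B * (B + 1), u + 1, u + u, u * (u + 1),
        v + 1, v + v, v * (v + 1), a * (a + 1) + B * (B + 1), a * (a + 1) + B * (B + 1) + (B + B),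
        u * (u + 1) + v * (v + 1), B + x c.2.2.2 + (B + x c.2.2.2)].getD n 0
  let X : N1 α → ℝ :=
    Sum.elim (Sum.elim (fun a => B + x a) fun p => aux p.1 p.2) fun b => if b then 1 else B
  have hsq : ∀ (c : AC α) (U : N1 α) (r : ℕ), 1 < X U → aux c r = X U + 1 →
      aux c (r + 1) = X U + X U → aux c (r + 2) = X U * (X U + 1) → ∀ d ∈ sqG c U r, SHs X d := by
    intro c U r h0 h1 h2 h3
    have e0 : X (.inr true) = 1 := rfl
    have e1 : ∀ n, X (.inl (.inr (c, n))) = aux c n := fun _ => rfl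
    have h4 : 0 < X U := by linarith
    simp only [sqG, List.forall_mem_cons, SHs, SHrel, e0, e1, h1, h2, h3]
    refine ⟨⟨h4, one_pos, by positivity, by simp, by simp⟩,
      ⟨h4, h4, by positivity, by simp, by simp⟩,
      ⟨by positivity, by positivity, by positivity, fun _ => by nlinarith, by simp; ring⟩, by simp⟩
  refine ⟨X, List.forall_mem_flatMap.2 fun c hc => ?_⟩
  obtain ⟨h1, h2, h3⟩ := hM.2 c hc
  rw [abs_le] at h1 h2 h3
  have hc' := hx c hc
  have hu : 1 < B + x c.2.1 := by linarith [hM.1]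
  have hv : 1 < B + x c.2.2.1 := by linarith [hM.1]
  have hw : 1 < B + x c.2.2.2 := by linarith [hM.1]
  have ha : 1 < B + x c.2.1 + x c.2.2.1 := by linarith [hM.1]
  have hb : 1 < B := by linarith [hM.1]
  unfold AC.Holds at hc'
  unfold G1
  split_ifs at hc' ⊢ with t0 t1
  · simp [SHs, SHrel, X, aux, t0]
    refine ⟨⟨?_, ?_, ?_⟩, ?_, ?_, ?_, ?_⟩ <;> linarith
  · simp only [List.forall_mem_append]
    refine ⟨⟨⟨⟨?_, hsq _ _ _ (by simpa [X, aux, t0] using ha) ?_ ?_ ?_⟩,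
      hsq _ _ _ hb ?_ ?_ ?_⟩, hsq _ _ _ hu ?_ ?_ ?_⟩, hsq _ _ _ hv ?_ ?_ ?_⟩
    · have hu' : 0 < B + x c.2.1 := by linarith
      have hv' : 0 < B + x c.2.2.1 := by linarith
      have hw' : 0 < B + x c.2.2.2 := by linarith
      have ha' : 0 < B + x c.2.1 + x c.2.2.1 := by linarith
      have hb' : 0 < B := by linarith
      simp only [List.forall_mem_cons, SHs, SHrel, X, aux, t0, Sum.elim_inl, Sum.elim_inr,
        if_false, List.getD_cons_succ, List.getD_cons_zero, Bool.false_eq_true, false_imp_iff,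
        true_and, and_true, List.not_mem_nil, implies_true]
      refine ⟨⟨?_, ?_, ?_⟩, ⟨?_, ?_, ?_, ?_⟩, ⟨?_, ?_, ?_⟩, ⟨?_, ?_, ?_⟩, ⟨?_, ?_, ?_⟩, ⟨?_, ?_, ?_⟩,
        ?_, ?_, ?_, ?_⟩ <;> first | positivity | linarith
    all_goals simp [X, aux, t0]
  · simp [SHs, SHrel, X, hc']
    constructor <;> linarith

theorem layer1_sound {cs : List (AC α)} (h : ∃ X, ∀ c ∈ cs.flatMap G1, SHw X c) : ASat cs := by
  obtain ⟨X, hX⟩ := h
  refine ⟨fun a => (X (.inl (.inl a)) - X (.inr false)) / X (.inr true), fun c hc => ?_⟩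
  have h := List.forall_mem_flatMap.1 hX c hc
  have hsq : ∀ (U : N1 α) (r : ℕ), (∀ d ∈ sqG c U r, SHw X d) → X (.inr true) ≠ 0 ∧
      X (.inl (.inr (c, r + 1))) = X U + X U ∧
      X (.inl (.inr (c, r + 2))) * X (.inr true) = X U * (X U + X (.inr true)) := by
    intro U r h
    simp only [sqG, List.forall_mem_cons, SHw, SHrel, Bool.false_eq_true, if_false, if_true] at h
    obtain ⟨⟨-, h1, -, h2⟩, ⟨-, -, -, h3⟩, ⟨-, -, -, h4⟩, -⟩ := h
    rw [← h2, ← h3] at h4
    exact ⟨h1, h3.symm, by linarith⟩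
  unfold AC.Holds
  unfold G1 at h
  split_ifs at h ⊢
  · simp only [List.forall_mem_cons, SHw, SHrel, Bool.false_eq_true, if_false] at h
    rw [← add_div]; congr 1
    linarith [h.1.2.2.2, h.2.1.2.2.2]
  · simp only [List.forall_mem_append] at h
    obtain ⟨⟨⟨⟨h0, h1⟩, h2⟩, h3⟩, h4⟩ := h
    obtain ⟨hE, -, h1⟩ := hsq _ _ h1
    obtain ⟨-, h2', h2⟩ := hsq _ _ h2
    obtain ⟨-, -, h3⟩ := hsq _ _ h3
    obtain ⟨-, -, h4⟩ := hsq _ _ h4
    simp only [List.forall_mem_cons, SHw, SHrel, Bool.false_eq_true, if_false] at h0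
    obtain ⟨⟨-, -, -, a1⟩, ⟨-, -, -, a2⟩, ⟨-, -, -, a3⟩, ⟨-, -, -, a4⟩, ⟨-, -, -, a5⟩,
      ⟨-, -, -, a6⟩, ⟨-, -, -, a7⟩, -⟩ := h0
    field_simp
    norm_num at h1 h2 h2' h3 h4
    grind
  · simp only [List.forall_mem_cons, SHw, SHrel, Bool.false_eq_true, if_false] at h
    rw [div_eq_one_iff_eq h.1.2.1]
    linarith [h.1.2.2.2]

end Pool.Agent.P.MP_e1cc3f_lc
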