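import Pool.Agent.P.MP_e1cc3f_lc.Gadget

/-! Equal differences by progressions; progressions by harmonic quadruples. -/

set_option synthInstance.maxSize 100000

namespace Pool.Agent.P.MP_e1cc3f_lc

open Filter Pool.Agent.Lib.NP

abbrev TQ (α : Type) := Bool × Quad α

variable {α : Type}

def vars3 (c : TQ α) : List α := if c.1 then qvars c.2 else [c.2.1, c.2.2.1, c.2.2.2.1]

def R3 (f : α → ℝ) (c : TQ α) : Prop :=
  if c.1 then qHolds f c.2
  else [c.2.1, c.2.2.1, c.2.2.2.1].Nodup ∧ AP3 (f c.2.1) (f c.2.2.1) (f c.2.2.2.1)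

def G4 (c : TQ α) : Quad (Option α) :=
  if c.1 then (some c.2.1, some c.2.2.1, some c.2.2.2.1, some c.2.2.2.2)
  else (none, some c.2.1, some c.2.2.1, some c.2.2.2.1)

theorem mem_G4 (cs : List (TQ α)) (a : α) :
    some a ∈ (cs.map G4).flatMap qvars ↔ a ∈ cs.flatMap vars3 := by
  rw [List.flatMap_map, List.mem_flatMap, List.mem_flatMap]
  refine exists_congr fun c => and_congr_right fun _ => ?_
  rcases c with ⟨_ | _, c⟩ <;> simp [G4, vars3, qvars]

theorem layer4 (cs : List (TQ α)) : DSat vars3 R3 cs ↔ DSat qvars qHolds (cs.map G4) := by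
  classical
  constructor
  · rintro ⟨f, hf, hR⟩
    obtain ⟨A, hA⟩ := Infinite.exists_notMem_finset ((cs.flatMap vars3).toFinset.image f)
    have hA' : ∀ a ∈ cs.flatMap vars3, f a ≠ A := fun a ha e =>
      hA (Finset.mem_image.2 ⟨a, by simpa using ha, e⟩)
    refine ⟨fun o => o.elim 0 fun a => (f a - A)⁻¹, ?_, fun c hc0 => ?_⟩
    · rintro (_ | a) ha (_ | b) hb e
      · rfl
      · exact absurd (by simpa [sub_eq_zero] using e.symm) (hA' b ((mem_G4 cs b).1 hb))
      · exact absurd (by simpa [sub_eq_zero] using e) (hA' a ((mem_G4 cs a).1 ha))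
      · exact congrArg _ (hf ((mem_G4 cs a).1 ha) ((mem_G4 cs b).1 hb) (by simpa using e))
    · obtain ⟨c, hc, rfl⟩ := List.mem_map.1 hc0
      have h1 := hR c hc
      have h2 : ∀ a ∈ vars3 c, f a ≠ A := fun a ha => hA' a (List.mem_flatMap.2 ⟨c, hc, ha⟩)
      rcases c with ⟨_ | _, a, b, c, d⟩
      · simp only [vars3, Bool.false_eq_true, if_false, List.forall_mem_cons, R3] at h1 h2
        refine ⟨by simpa [G4, qvars] using h1.1, ?_⟩
        change Harm 0 (f a - A)⁻¹ (f b - A)⁻¹ (f c - A)⁻¹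
        rw [harm_pole (inv_ne_zero (sub_ne_zero.2 h2.1)) (inv_ne_zero (sub_ne_zero.2 h2.2.1))
          (inv_ne_zero (sub_ne_zero.2 h2.2.2.1))]
        simpa using h1.2.sub A
      · simp only [vars3, if_true, qvars, List.forall_mem_cons, R3] at h1 h2
        exact ⟨by simpa [G4, qvars] using h1.1,
          (harm_inv h2.1 h2.2.1 h2.2.2.1 h2.2.2.2.1).2 h1.2⟩
  · rintro ⟨g, hg, hR⟩
    obtain ⟨A, hA, hA'⟩ : ∃ A, (∀ a ∈ cs.flatMap vars3, g (some a) ≠ A) ∧
        (none ∈ (cs.map G4).flatMap qvars → g none = A) := by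
      by_cases h : none ∈ (cs.map G4).flatMap qvars
      · exact ⟨g none, fun a ha e => by simpa using hg ((mem_G4 cs a).2 ha) h e, fun _ => rfl⟩
      · obtain ⟨A, hA⟩ := Infinite.exists_notMem_finset
          ((cs.flatMap vars3).toFinset.image fun a => g (some a))
        exact ⟨A, fun a ha e => hA (Finset.mem_image.2 ⟨a, by simpa using ha, e⟩),
          fun h' => absurd h' h⟩
    refine ⟨fun a => (g (some a) - A)⁻¹, fun a ha b hb e => by
      simpa using hg ((mem_G4 cs a).2 ha) ((mem_G4 cs b).2 hb) (by simpa using e), fun c hc => ?_⟩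
    have h0 : G4 c ∈ cs.map G4 := List.mem_map.2 ⟨c, hc, rfl⟩
    have h1 := hR _ h0
    have h2 : ∀ a ∈ vars3 c, g (some a) ≠ A := fun a ha => hA a (List.mem_flatMap.2 ⟨c, hc, ha⟩)
    rcases c with ⟨_ | _, a, b, c, d⟩
    · simp only [vars3, Bool.false_eq_true, if_false, List.forall_mem_cons, R3] at h2 ⊢
      refine ⟨by simpa [G4, qvars] using h1.1, ?_⟩
      rw [← harm_pole h2.1 h2.2.1 h2.2.2.1,
        ← hA' (List.mem_flatMap.2 ⟨_, h0, by simp [G4, qvars]⟩)]
      exact h1.2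
    · simp only [vars3, if_true, qvars, List.forall_mem_cons, R3] at h2 ⊢
      exact ⟨by simpa [G4, qvars] using h1.1, (harm_inv h2.1 h2.2.1 h2.2.2.1 h2.2.2.2.1).2 h1.2⟩

theorem pt_G4 [Enc α] : PT (G4 (α := α)) := by unfold G4; fun_prop

/-- Equal differences, in general position. -/
def EQDs (x y x' y' : ℝ) : Prop :=
  y - x = y' - x' ∧ x ≠ y ∧ x ≠ x' ∧ ∀ κ ∈ ([3, 4, 6, 7] : List ℝ),
    (10 - κ) * (y - x') ≠ κ * (y - x) ∧ (10 - κ) * (y' - x) ≠ κ * (y - x)

theorem ev_eqd {x y c c' : ℝ} (h : y - x = c' - c) (hxy : x ≠ y) :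
    ∀ᶠ s in cofinite, EQDs x y (1 * s + c) (1 * s + c') := by
  have h1 : ∀ᶠ s in cofinite, ∀ κ ∈ {κ | κ ∈ ([3, 4, 6, 7] : List ℝ)},
      (10 - κ) * (y - (1 * s + c)) ≠ κ * (y - x) ∧ (10 - κ) * (1 * s + c' - x) ≠ κ * (y - x) := by
    rw [eventually_all_finite (List.finite_toSet _)]
    intro κ hκ
    have h2 : 10 - κ ≠ 0 := by
      simp only [Set.mem_ofPred_eq, List.mem_cons, List.not_mem_nil, or_false] at hκ
      rcases hκ with rfl | rfl | rfl | rfl <;> norm_num
    filter_upwards [ev_ne h2 0 ((10 - κ) * (y - c) - κ * (y - x)),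
      ev_ne h2 0 (κ * (y - x) - (10 - κ) * (c' - x))] with s h3 h4
    exact ⟨fun e => h3 (by linarith), fun e => h4 (by linarith)⟩
  filter_upwards [h1, ev_ne one_ne_zero c x] with s h2 h3
  exact ⟨by linarith, hxy, h3.symm, h2⟩

def vars2 (c : TQ α) : List α := qvars c.2

def R2s (f : α → ℝ) (c : TQ α) : Prop :=
  if c.1 then qHolds f c.2 else EQDs (f c.2.1) (f c.2.2.1) (f c.2.2.2.1) (f c.2.2.2.2)

def R2w (f : α → ℝ) (c : TQ α) : Prop :=
  if c.1 then qHolds f c.2 else f c.2.2.1 - f c.2.1 = f c.2.2.2.2 - f c.2.2.2.1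

def nm3 (c : TQ α) (g κ : ℕ) : α ⊕ TQ α × ℕ :=
  if κ = 0 then .inl ([c.2.2.1, c.2.1, c.2.2.2.2, c.2.2.2.1].getD g c.2.1)
  else .inr (c, 4 * κ + if κ = 10 then g % 2 else if κ = 5 then g / 2 * 2 else g)

def G3 (c : TQ α) : List (TQ (α ⊕ TQ α × ℕ)) :=
  if c.1 then [(true, .inl c.2.1, .inl c.2.2.1, .inl c.2.2.2.1, .inl c.2.2.2.2)]
  else (List.range 4).flatMap fun g => trip.map fun t =>
    (false, nm3 c g t.1, nm3 c g t.2.1, nm3 c g t.2.2, nm3 c g t.1)

theorem pt_G3 [Enc α] : PT (G3 (α := α)) := by unfold G3 nm3; fun_prop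

theorem nm3_inj (c : TQ α) {g : ℕ} (hg : g < 4) : Function.Injective (nm3 c g) := by
  intro a b h
  unfold nm3 at h
  split_ifs at h <;> simp at h <;> omega

theorem trip_nodup : ∀ t ∈ trip, [t.1, t.2.1, t.2.2].Nodup := by decide

theorem trip_mem : ∀ κ, κ ∈ [0, 3, 4, 5, 6, 7, 10] ↔ ∃ t ∈ trip, κ ∈ [t.1, t.2.1, t.2.2] := by
  intro κ; simp [trip]; omega

theorem layer3_complete {cs : List (TQ α)} (h : DSat vars2 R2s cs) :
    DSat vars3 R3 (cs.flatMap G3) := by
  refine gadget_complete G3 (fun c => if c.1 then [] else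
    [12, 13, 14, 15, 16, 17, 18, 19, 20, 22, 24, 25, 26, 27, 28, 29, 30, 31, 40, 41]) ?_ ?_ h
  · rintro ⟨_ | _, x, y, x', y'⟩
    · simp [G3, vars3, vars2, qvars, nm3, trip, List.range_succ]
    · simp [G3, vars3, vars2, qvars]
  · rintro ⟨_ | _, x, y, x', y'⟩ f hR B
    swap
    · refine ⟨0, by simp, by simp, fun F hF _ => ?_⟩
      simpa [G3, R3, R2s, qHolds, qvars, hF] using hR
    obtain ⟨h1, h2, h3, h4⟩ : EQDs (f x) (f y) (f x') (f y') := hR
    let a : ℕ → ℝ := fun g => f ([y, x, y', x'].getD g x)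
    let b : ℕ → ℝ := fun g => f ([x, y, x, y].getD g x)
    obtain ⟨s, hs1, hs2⟩ := (ev_generic
      [12, 13, 14, 15, 16, 17, 18, 19, 20, 22, 24, 25, 26, 27, 28, 29, 30, 31, 40, 41]
      (fun n => ((n / 4 : ℕ) : ℝ) / 10)
      (fun n => a (n % 4) + ((n / 4 : ℕ) : ℝ) / 10 * (b (n % 4) - a (n % 4))) (by simp) (by
        intro n hn m hm e1 e2
        have e3 : n / 4 = m / 4 := by
          exact_mod_cast (div_left_inj' (by norm_num : (10 : ℝ) ≠ 0)).1 e1
        clear e1
        simp only [List.forall_mem_cons] at h4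
        simp only [List.mem_cons, List.not_mem_nil, or_false] at hn hm
        rcases hn with rfl | rfl | rfl | rfl | rfl | rfl | rfl | rfl | rfl | rfl | rfl | rfl | rfl |
            rfl | rfl | rfl | rfl | rfl | rfl | rfl <;>
          rcases hm with rfl | rfl | rfl | rfl | rfl | rfl | rfl | rfl | rfl | rfl | rfl | rfl | rfl |
            rfl | rfl | rfl | rfl | rfl | rfl | rfl <;>
          first
          | rfl
          | omega
          | (norm_num [a, b] at e2; grind)) B).exists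
    refine ⟨_, hs1, hs2, fun F hF hF' c' hc' => ?_⟩
    simp only [G3, Bool.false_eq_true, if_false, List.mem_flatMap, List.mem_map,
      List.mem_range] at hc'
    obtain ⟨g, hg, t, ht, rfl⟩ := hc'
    have key : ∀ κ ∈ [0, 3, 4, 5, 6, 7, 10], F (nm3 (false, x, y, x', y') g κ) =
        a g + κ * ((b g + s - a g) / 10) := by
      simp only [List.forall_mem_cons, nm3]
      interval_cases g <;> norm_num [hF, hF', a, b] <;> refine ⟨?_, ?_, ?_, ?_, ?_, ?_⟩ <;> linarith
    refine ⟨(trip_nodup t ht).map (nm3_inj _ hg), ?_⟩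
    simp only
    rw [key _ ((trip_mem _).2 ⟨t, ht, by simp⟩), key _ ((trip_mem _).2 ⟨t, ht, by simp⟩),
      key _ ((trip_mem _).2 ⟨t, ht, by simp⟩)]
    exact trip_ap _ _ t ht

theorem layer3_sound {cs : List (TQ α)} (h : DSat vars3 R3 (cs.flatMap G3)) :
    DSat vars2 R2w cs := by
  refine gadget_sound G3 Sum.inl Sum.inl_injective ?_ ?_ h
  · rintro ⟨_ | _, x, y, x', y'⟩
    · simp [G3, vars3, vars2, qvars, nm3, trip, List.range_succ]
    · simp [G3, vars3, vars2, qvars]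
  · rintro ⟨_ | _, x, y, x', y'⟩ F hF hR
    swap
    · simpa [G3, R3, R2w, qHolds, qvars] using hR
    have hm : ∀ g < 4, ∀ t ∈ trip, (false, nm3 (false, x, y, x', y') g t.1,
        nm3 (false, x, y, x', y') g t.2.1, nm3 (false, x, y, x', y') g t.2.2,
        nm3 (false, x, y, x', y') g t.1) ∈ G3 (false, x, y, x', y') := fun g hg t ht =>
      List.mem_flatMap.2 ⟨g, List.mem_range.2 hg, List.mem_map.2 ⟨t, ht, rfl⟩⟩
    have key : ∀ g < 4, 2 * F (nm3 (false, x, y, x', y') g 5) =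
        F (nm3 (false, x, y, x', y') g 0) + F (nm3 (false, x, y, x', y') g 10) := by
      intro g hg
      have hv : ∀ κ ∈ [0, 3, 4, 5, 6, 7, 10], nm3 (false, x, y, x', y') g κ ∈
          (G3 (false, x, y, x', y')).flatMap vars3 := by
        intro κ hκ
        obtain ⟨t, ht, h⟩ := (trip_mem κ).1 hκ
        exact List.mem_flatMap.2 ⟨_, hm g hg t ht, List.mem_map_of_mem h⟩
      exact force (r := fun κ => F (nm3 (false, x, y, x', y') g κ))
        (fun a ha b hb e => nm3_inj _ hg (hF (hv a ha) (hv b hb) e))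
        fun t ht => (hR _ (hm g hg t ht)).2
    have h0 := key 0 (by norm_num)
    have h1 := key 1 (by norm_num)
    have h2 := key 2 (by norm_num)
    have h3 := key 3 (by norm_num)
    norm_num [nm3] at h0 h1 h2 h3
    change F (.inl y) - F (.inl x) = F (.inl y') - F (.inl x')
    linarith

end Pool.Agent.P.MP_e1cc3f_lc
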