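import Pool.Agent.P.MP_e1cc3f_lc.ListGraph
import Pool.Agent.Lib.ETR.Enc

/-! Lombardi drawability is in `∃ℝ`. -/

namespace Pool.Agent.P.MP_e1cc3f_lc

open Pool.Agent.Lib.NP Pool.Agent.Lib.ETR N487b59b3 ComplexConjugate

/-- Complex terms. -/
abbrev CT := Term × Term

def CT.eval (v : List Bool → ℝ) (z : CT) : ℂ := ⟨z.1.eval v, z.2.eval v⟩

def cv (n : ℕ × ℕ × ℕ × ℕ) : CT := (nv (n, false), nv (n, true))
def cone : CT := (.one, .zero)
def cneg (a : CT) : CT := (.neg a.1, .neg a.2)
def csub (a b : CT) : CT := (.add a.1 (.neg b.1), .add a.2 (.neg b.2))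
def cmul (a b : CT) : CT :=
  (.add (.mul a.1 b.1) (.neg (.mul a.2 b.2)), .add (.mul a.1 b.2) (.mul a.2 b.1))
def cconj (a : CT) : CT := (a.1, .neg a.2)
def ceq (a b : CT) : Formula := .and (.eq a.1 b.1) (.eq a.2 b.2)
def cpos (a : CT) : Formula := .and (.eq a.2 .zero) (.lt .zero a.1)

section

variable (v : List Bool → ℝ) (a b : CT)

@[simp] theorem eval_cone : cone.eval v = 1 := rfl
@[simp] theorem eval_cneg : (cneg a).eval v = -a.eval v := rfl
@[simp] theorem eval_csub : (csub a b).eval v = a.eval v - b.eval v :=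
  Complex.ext (by simp [csub, CT.eval, Term.eval, sub_eq_add_neg])
    (by simp [csub, CT.eval, Term.eval, sub_eq_add_neg])
@[simp] theorem eval_cmul : (cmul a b).eval v = a.eval v * b.eval v :=
  Complex.ext (by simp [cmul, CT.eval, Term.eval, sub_eq_add_neg])
    (by simp [cmul, CT.eval, Term.eval])
@[simp] theorem eval_cconj : (cconj a).eval v = conj (a.eval v) := rfl
@[simp] theorem holds_ceq : (ceq a b).Holds v ↔ a.eval v = b.eval v := by
  simp [ceq, Formula.Holds, CT.eval, Complex.ext_iff]
@[simp] theorem holds_cpos : (cpos a).Holds v ↔ Pos (a.eval v) := Iff.rfl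

end

section

variable {α : Type} [Enc α]

@[fun_prop] theorem pt_cv {f : α → ℕ × ℕ × ℕ × ℕ} (hf : PT f) : PT fun a => cv (f a) := by
  unfold cv; fun_prop
@[fun_prop] theorem pt_cneg {f : α → CT} (hf : PT f) : PT fun a => cneg (f a) := by
  unfold cneg; fun_prop
@[fun_prop] theorem pt_csub {f g : α → CT} (hf : PT f) (hg : PT g) :
    PT fun a => csub (f a) (g a) := by unfold csub; fun_prop
@[fun_prop] theorem pt_cmul {f g : α → CT} (hf : PT f) (hg : PT g) :
    PT fun a => cmul (f a) (g a) := by unfold cmul; fun_prop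
@[fun_prop] theorem pt_cconj {f : α → CT} (hf : PT f) : PT fun a => cconj (f a) := by
  unfold cconj; fun_prop
@[fun_prop] theorem pt_ceq {f g : α → CT} (hf : PT f) (hg : PT g) :
    PT fun a => ceq (f a) (g a) := by unfold ceq; fun_prop
@[fun_prop] theorem pt_cpos {f : α → CT} (hf : PT f) : PT fun a => cpos (f a) := by
  unfold cpos; fun_prop

end

def vP (i : ℕ) : CT := cv (0, i, 0, 0)
def vT (i j : ℕ) : CT := cv (1, i, j, 0)
def vS (i j k : ℕ) : CT := cv (2, i, j, k)
def vC (i : ℕ) : CT := cv (3, i, 0, 0)

def adM (M : List (List Bool)) (i j : ℕ) : Bool :=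
  (M.getD i []).getD j false && (M.getD j []).getD i false && i != j

def edgeF (M : List (List Bool)) (i j : ℕ) : List Formula :=
  [ceq (cmul (vT i j) (cconj (vT i j))) cone,
    ceq (cmul (cmul (vT i j) (vT j i)) (cconj (csub (vP j) (vP i)))) (cneg (csub (vP j) (vP i))),
    .not (cpos (cneg (cmul (vT i j) (cconj (csub (vP j) (vP i)))))),
    ceq (vS i j 0) cone, ceq (vS i j ((List.range M.length).countP (adM M i))) (vC i)] ++
  (List.range M.length).flatMap fun k =>
    [.not (cpos (cmul (cmul (cmul (csub (vP k) (vP i)) (cconj (csub (vP j) (vP k))))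
        (cconj (vT i j))) (csub (vP j) (vP i)))),
      ceq (vS i j (k + 1)) (cmul (vS i j k) (vT i j)),
      if adM M i k && j != k then .not (ceq (vT i j) (vT i k)) else tt]

def drawF (M : List (List Bool)) : Formula :=
  bigAnd ((List.range M.length).flatMap fun i => (List.range M.length).flatMap fun j =>
    (if i = j then tt else .not (ceq (vP i) (vP j))) :: (if adM M i j then edgeF M i j else []))

theorem pt_drawF : PT drawF := by
  have h1 : PT fun x : List (List Bool) × ℕ × ℕ => edgeF x.1 x.2.1 x.2.2 := by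
    unfold edgeF adM vP vT vS vC; fun_prop
  unfold drawF
  refine pt_bigAnd (PT.flatMap (PT.flatMap (PT.cons ?_ (PT.ite ?_ ?_ (by fun_prop)))
    (by fun_prop)) (by fun_prop))
  · unfold vP; fun_prop
  · unfold adM; fun_prop
  · exact h1.comp (g := fun x : (List (List Bool) × ℕ) × ℕ => (x.1.1, x.1.2, x.2)) (by fun_prop)

theorem norm_one_iff {t : ℂ} : t * conj t = 1 ↔ ‖t‖ = 1 := by
  refine ⟨fun h => ?_, mul_conj_unit⟩
  have := congrArg norm h
  rw [norm_mul, Complex.norm_conj, norm_one] at this
  nlinarith [norm_nonneg t]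

theorem drawF_iff (M : List (List Bool)) : (∃ v, (drawF M).Holds v) ↔
    ∃ p t, Alg {u | u ∈ List.range M.length} (listA (List.range M.length) (adM M))
      (fun u => (List.range M.length).countP (adM M u)) p t := by
  classical
  have key : ∀ v, (drawF M).Holds v ↔ ∀ i < M.length, ∀ j < M.length,
      (i ≠ j → (vP i).eval v ≠ (vP j).eval v) ∧ (adM M i j = true →
        (‖(vT i j).eval v‖ = 1 ∧
        ArcOK ((vP i).eval v) ((vP j).eval v) ((vT i j).eval v) ((vT j i).eval v) ∧
        (vS i j 0).eval v = 1 ∧
        (vS i j ((List.range M.length).countP (adM M i))).eval v = (vC i).eval v) ∧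
        ∀ k < M.length,
          ¬ OnArc ((vP i).eval v) ((vP j).eval v) ((vT i j).eval v) ((vP k).eval v) ∧
          (vS i j (k + 1)).eval v = (vS i j k).eval v * (vT i j).eval v ∧
          (adM M i k = true → j ≠ k → (vT i j).eval v ≠ (vT i k).eval v)) := by
    intro v
    simp only [drawF, holds_bigAnd, List.forall_mem_flatMap, List.mem_range, List.forall_mem_cons]
    refine forall₂_congr fun i _ => forall₂_congr fun j _ => and_congr ?_ ?_
    · split_ifs with h <;> simp [h, Formula.Holds]
    · split_ifs with h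
      swap
      · simp [h]
      simp only [h, edgeF, List.forall_mem_append, List.forall_mem_flatMap, List.mem_range,
        List.forall_mem_cons, true_imp_iff]
      refine and_congr ?_ (forall₂_congr fun k _ => ?_)
      · simp [Formula.Holds, norm_one_iff, ArcOK, and_assoc, -map_sub, -neg_sub]
      · split_ifs with h'
        · simp only [Bool.and_eq_true, bne_iff_ne] at h'
          simp [Formula.Holds, OnArc, h', -map_sub]
        · simp only [Bool.and_eq_true, bne_iff_ne, not_and, not_not] at h'
          simpa [Formula.Holds, OnArc, -map_sub] using fun _ _ h1 h2 => absurd (h' h1) h2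
  simp only [key]
  constructor
  · rintro ⟨v, h⟩
    have hpow : ∀ i j, listA (List.range M.length) (adM M) i j →
        (vT i j).eval v ^ (List.range M.length).countP (adM M i) = (vC i).eval v := by
      rintro i j ⟨hi, hj, hij⟩
      obtain ⟨⟨-, -, h1, h2⟩, h3⟩ := (h i (by simpa using hi) j (by simpa using hj)).2 hij
      have : ∀ k ≤ M.length, (vS i j k).eval v = (vT i j).eval v ^ k := by
        intro k hk
        induction k with
        | zero => simpa using h1
        | succ k ih => rw [(h3 k hk).2.1, ih (by omega), pow_succ]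
      rw [← h2, this]
      simpa using List.countP_le_length (p := adM M i) (l := List.range M.length)
    refine ⟨fun i => (vP i).eval v, fun i j => (vT i j).eval v, fun i hi j hj e => ?_,
      fun i j ⟨hi, hj, hij⟩ => ?_, fun i j ⟨hi, hj, hij⟩ => ?_, fun i j ⟨hi, hj, hij⟩ k hk => ?_,
      fun i j k h1 h2 => by rw [hpow i j h1, hpow i k h2],
      fun i j k ⟨hi, hj, hij⟩ ⟨_, hk, hik⟩ e => ?_⟩
    · by_contra hne
      exact (h i (by simpa using hi) j (by simpa using hj)).1 hne e
    · exact ((h i (by simpa using hi) j (by simpa using hj)).2 hij).1.1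
    · exact ((h i (by simpa using hi) j (by simpa using hj)).2 hij).1.2.1
    · exact (((h i (by simpa using hi) j (by simpa using hj)).2 hij).2 k (by simpa using hk)).1
    · by_contra hne
      exact (((h i (by simpa using hi) j (by simpa using hj)).2 hij).2 k
        (by simpa using hk)).2.2 hik hne e
  · rintro ⟨p, t, H⟩
    let c : ℕ → ℂ := fun i => if h : ∃ j, listA (List.range M.length) (adM M) i j then
      t i h.choose ^ (List.range M.length).countP (adM M i) else 0
    let z : ℕ × ℕ × ℕ × ℕ → ℂ := fun n => if n.1 = 0 then p n.2.1 else if n.1 = 1 then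
      t n.2.1 n.2.2.1 else if n.1 = 2 then t n.2.1 n.2.2.1 ^ n.2.2.2 else c n.2.1
    obtain ⟨v, hv⟩ := exists_valuation
      (fun n : (ℕ × ℕ × ℕ × ℕ) × Bool => if n.2 then (z n.1).im else (z n.1).re)
    have hz : ∀ n, (cv n).eval v = z n := fun n => Complex.ext (hv (n, false)) (hv (n, true))
    refine ⟨v, fun i hi j hj => ?_⟩
    simp only [vP, vT, vS, vC, hz, z]
    norm_num
    have hi' : i ∈ List.range M.length := by simpa using hi
    have hj' : j ∈ List.range M.length := by simpa using hj
    refine ⟨fun hne e => hne (H.inj hi' hj' e), fun hij => ?_⟩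
    have hA : listA (List.range M.length) (adM M) i j := ⟨hi', hj', hij⟩
    refine ⟨⟨H.unit _ _ hA, H.ok _ _ hA, ?_⟩, fun k hk => ⟨H.avoid _ _ hA k (by simpa using hk),
      pow_succ _ _, fun hik hne e => hne (H.tinj _ _ _ hA ⟨hi', by simpa using hk, hik⟩ e)⟩⟩
    have h : ∃ j, listA (List.range M.length) (adM M) i j := ⟨j, hA⟩
    simp only [c, dif_pos h]
    exact H.frame _ _ _ hA h.choose_spec

theorem lombardi_mem : Lombardi ∈ ExistsR := by
  obtain ⟨d, hd, hd'⟩ := HasDec.bool.list.list
  refine mem_ExistsR_of (fun x => if enc ((List.range (d x).length).map fun i =>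
    (List.range (d x).length).map (adM (d x) i)) = x then drawF (d x) else ff) ?_ fun x => ?_
  · refine PT.ite ?_ (pt_drawF.comp hd) (by fun_prop)
    unfold adM; fun_prop
  · split_ifs with h
    · rw [drawF_iff, ← lombardi_list _ _ List.nodup_range, h]
      · intro u v; simp only [adM, Bool.and_eq_true, bne_iff_ne]; tauto
      · intro u; simp [adM]
    · simp only [holds_ff, exists_false, iff_false, Lombardi, decide_eq_true_eq]
      rintro ⟨n, G, rfl, -⟩
      apply h
      change enc _ = enc (adjMatrix G)
      rw [show d (bitEncode (adjMatrix G)) = adjMatrix G from hd' _]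
      congr 1
      apply List.ext_getElem (by simp)
      intro i h1 h2
      apply List.ext_getElem (by simp [adjMatrix])
      intro j h3 h4
      have hi : i < n := by simpa [adjMatrix] using h2
      have hj : j < n := by simpa [adjMatrix] using h4
      simp only [adjMatrix, adM, List.getElem_map, List.getElem_range, List.getElem_ofFn]
      rw [Bool.eq_iff_iff]
      simp only [List.getD_eq_getElem?_getD, List.getElem?_ofFn, hi, hj, dite_true,
        Option.getD_some, Bool.and_eq_true, decide_eq_true_eq, bne_iff_ne]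
      exact ⟨fun h => h.1.1, fun h => ⟨⟨h, h.symm⟩, fun e => h.ne (Fin.ext e)⟩⟩

end Pool.Agent.P.MP_e1cc3f_lc
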