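import Pool.Agent.P.MP_e1cc3f_lc.Alg

/-! Padding degrees with leaves. -/

namespace Pool.Agent.P.MP_e1cc3f_lc

open Complex ComplexConjugate Real Filter Topology

theorem pos_conj {z : ℂ} : Pos (conj z) ↔ Pos z := by simp [Pos]

theorem ArcOK.conj_eq {p q t t' : ℂ} (h : ArcOK p q t t') (ht' : ‖t'‖ = 1) :
    conj t * (q - p) = -(conj (q - p) * t') := by
  have h1 := congrArg conj h.1
  simp only [map_mul, conj_conj, map_neg] at h1
  have h2 := mul_conj_unit ht'
  linear_combination t' * h1 - conj t * (q - p) * h2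

theorem onArc_symm {p q t t' w : ℂ} (h : ArcOK p q t t') (ht' : ‖t'‖ = 1) :
    OnArc q p t' w ↔ OnArc p q t w := by
  unfold OnArc
  rw [← pos_conj]
  have h1 := h.conj_eq ht'
  have : conj ((w - q) * conj (p - w) * conj t' * (p - q)) =
      (w - p) * conj (q - w) * conj t * (q - p) := by
    simp only [map_mul, conj_conj, map_sub] at h1 ⊢
    linear_combination (-(w - p) * (conj q - conj w)) * h1
  rw [this]

theorem ev_notPos {f : ℝ → ℂ} (hf : Continuous f) (h0 : f 0 ≠ 0) (h1 : ¬ Pos (f 0)) :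
    ∀ᶠ ε in 𝓝[>] (0 : ℝ), ¬ Pos (f ε) := by
  apply Filter.Eventually.filter_mono nhdsWithin_le_nhds
  by_cases h : (f 0).im = 0
  · have h2 : (f 0).re < 0 := by
      rcases lt_trichotomy (f 0).re 0 with h2 | h2 | h2
      · exact h2
      · exact absurd (Complex.ext h2 h) h0
      · exact absurd ⟨h, h2⟩ h1
    have := (Complex.continuous_re.comp hf).continuousAt.eventually (gt_mem_nhds h2)
    exact this.mono fun ε hε h3 => absurd h3.2 (not_lt.2 hε.le)
  · have := (Complex.continuous_im.comp hf).continuousAt.eventually_ne h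
    exact this.mono fun ε hε h3 => hε h3.1

theorem not_pos_units {a b : ℂ} {r : ℝ} (ha : ‖a‖ = 1) (hb : ‖b‖ = 1) (hab : a ≠ b) (hr : 0 < r) :
    ¬ Pos (r * (a * conj b)) := by
  rw [pos_real_mul hr, pos_iff]
  rintro ⟨c, hc, h⟩
  apply hab
  refine unit_eq ha hb one_pos hc ?_
  have := mul_conj_unit hb
  push_cast
  linear_combination b * h - a * this

variable {β : Type}

def padS (S : Set β) (k : β → ℕ) : Set (β × ℕ) := {x | x.1 ∈ S ∧ x.2 ≤ k x.1}

def padA (S : Set β) (A : β → β → Prop) (k : β → ℕ) (x y : β × ℕ) : Prop :=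
  x ∈ padS S k ∧ y ∈ padS S k ∧
    ((x.2 = 0 ∧ y.2 = 0 ∧ A x.1 y.1) ∨ (x.1 = y.1 ∧ (x.2 = 0 ↔ y.2 ≠ 0)))

theorem pad_sound {S : Set β} {A : β → β → Prop} {k : β → ℕ} {dg : β × ℕ → ℕ} {p t}
    (hA : ∀ u v, A u v → u ∈ S ∧ v ∈ S) (H : Alg (padS S k) (padA S A k) dg p t) :
    Alg S A (fun u => dg (u, 0)) (fun u => p (u, 0)) (fun u v => t (u, 0) (v, 0)) := by
  have h1 : ∀ u ∈ S, (u, 0) ∈ padS S k := fun u hu => ⟨hu, Nat.zero_le _⟩
  have h2 : ∀ u v, A u v → padA S A k (u, 0) (v, 0) := fun u v h =>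
    ⟨h1 _ (hA u v h).1, h1 _ (hA u v h).2, Or.inl ⟨rfl, rfl, h⟩⟩
  exact ⟨fun u hu v hv h => congrArg Prod.fst (H.inj (h1 u hu) (h1 v hv) h),
    fun u v h => H.unit _ _ (h2 u v h), fun u v h => H.ok _ _ (h2 u v h),
    fun u v h w hw => H.avoid _ _ (h2 u v h) _ (h1 w hw),
    fun u v v' h h' => H.frame _ _ _ (h2 u v h) (h2 u v' h'),
    fun u v v' h h' e => congrArg Prod.fst (H.tinj _ _ _ (h2 u v h) (h2 u v' h') e)⟩

theorem exists_dir {A : β → β → Prop} {S dg p t} (H : Alg S A dg p t) (u : β) (k : ℕ)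
    (hfin : {v | A u v}.Finite) (hk : {v | A u v}.ncard + k ≤ dg u) :
    ∃ d : ℕ → ℂ, d 0 = 0 ∧ Set.InjOn d {r | r ≤ k} ∧ ∀ r, r ≠ 0 → r ≤ k → ‖d r‖ = 1 ∧
      (∀ r', r' ≠ 0 → r' ≤ k → d r ^ dg u = d r' ^ dg u) ∧
      ∀ v, A u v → d r ≠ t u v ∧ d r ^ dg u = t u v ^ dg u := by
  classical
  rcases Nat.eq_zero_or_pos k with rfl | hk0
  · exact ⟨fun _ => 0, rfl, fun a ha b hb _ => by simp_all, fun r h1 h2 => by omega⟩
  have hd : dg u ≠ 0 := by omega
  obtain ⟨τ, hτ, hτ'⟩ : ∃ τ : ℂ, ‖τ‖ = 1 ∧ ∀ v, A u v → τ ^ dg u = t u v ^ dg u := by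
    by_cases h : ∃ v, A u v
    · obtain ⟨v0, h0⟩ := h
      exact ⟨t u v0, H.unit _ _ h0, fun v hv => H.frame _ _ _ h0 hv⟩
    · exact ⟨1, by simp, fun v hv => absurd ⟨v, hv⟩ h⟩
  have hζ := Complex.isPrimitiveRoot_exp _ hd
  set ζ := Complex.exp (2 * π * I / dg u)
  have hτ0 : τ ≠ 0 := by rintro rfl; simp at hτ
  let R := (Finset.range (dg u)).image fun j => τ * ζ ^ j
  have hR : R.card = dg u := by
    rw [Finset.card_image_of_injOn, Finset.card_range]
    intro a ha b hb h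
    exact hζ.pow_inj (by simpa using ha) (by simpa using hb) (mul_left_cancel₀ hτ0 h)
  let U := hfin.toFinset.image (t u)
  have hU : U.card ≤ {v | A u v}.ncard := by
    rw [Set.ncard_eq_toFinset_card _ hfin]; exact Finset.card_image_le
  have hc : Fintype.card (Fin k) ≤ (R \ U).card := by
    have := Finset.le_card_sdiff U R
    simp only [Fintype.card_fin]; omega
  obtain ⟨f, hf⟩ := Function.Embedding.exists_of_card_le_finset hc
  have hf' : ∀ i, ‖f i‖ = 1 ∧ f i ^ dg u = τ ^ dg u ∧ ∀ v, A u v → f i ≠ t u v := by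
    intro i
    have := hf ⟨i, rfl⟩
    simp only [Finset.coe_sdiff, Set.mem_sdiff, Finset.mem_coe, R, U, Finset.mem_image,
      Set.Finite.mem_toFinset, Set.mem_ofPred_eq] at this
    obtain ⟨⟨j, -, hj⟩, h2⟩ := this
    refine ⟨?_, ?_, fun v hv h => h2 ⟨v, hv, h.symm⟩⟩
    · rw [← hj, norm_mul, norm_pow, hζ.norm'_eq_one hd, hτ]; simp
    · rw [← hj, mul_pow, ← pow_mul, mul_comm j, pow_mul, hζ.pow_eq_one, one_pow, mul_one]
  let d : ℕ → ℂ := fun r => if h : r ≠ 0 ∧ r ≤ k then f ⟨r - 1, by omega⟩ else 0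
  have hd1 : ∀ r (h1 : r ≠ 0) (h2 : r ≤ k), d r = f ⟨r - 1, by omega⟩ :=
    fun r h1 h2 => dif_pos ⟨h1, h2⟩
  have hd0 : d 0 = 0 := dif_neg (by simp)
  refine ⟨d, hd0, fun a ha b hb h => ?_, fun r h1 h2 => ?_⟩
  · by_cases h1 : a = 0 <;> by_cases h2 : b = 0
    · omega
    · rw [h1, hd0, hd1 b h2 hb] at h
      have := (hf' ⟨b - 1, by have : b ≤ k := hb; omega⟩).1
      rw [← h] at this; simp at this
    · rw [h2, hd0, hd1 a h1 ha] at h
      have := (hf' ⟨a - 1, by have : a ≤ k := ha; omega⟩).1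
      rw [h] at this; simp at this
    · rw [hd1 a h1 ha, hd1 b h2 hb] at h
      have := congrArg Fin.val (f.injective h)
      simp only at this; omega
  · rw [hd1 r h1 h2]
    refine ⟨(hf' _).1, fun r' h3 h4 => ?_, fun v hv => ⟨(hf' _).2.2 v hv, ?_⟩⟩
    · rw [hd1 r' h3 h4, (hf' _).2.1, (hf' _).2.1]
    · rw [(hf' _).2.1, hτ' v hv]

theorem pad_complete {S : Set β} (hS : S.Finite) {A : β → β → Prop} {k dg : β → ℕ} {p t}
    (hA : ∀ u v, A u v → u ∈ S ∧ v ∈ S ∧ u ≠ v ∧ A v u)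
    (hk : ∀ u ∈ S, {v | A u v}.ncard + k u ≤ dg u) (H : Alg S A dg p t)
    (dg' : β × ℕ → ℕ) (hdg : ∀ u ∈ S, dg' (u, 0) = dg u) :
    ∃ p' t', Alg (padS S k) (padA S A k) dg' p' t' := by
  classical
  have hfin : ∀ u, {v | A u v}.Finite := fun u => hS.subset fun v hv => (hA u v hv).2.1
  choose! d hd0 hdi hd using fun u (hu : u ∈ S) => exists_dir H u (k u) (hfin u) (hk u hu)
  have hS' : (padS S k).Finite :=
    (hS.biUnion fun u _ => (Set.finite_Iic (k u)).image fun r => (u, r)).subset fun x hx =>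
      Set.mem_biUnion hx.1 ⟨x.2, hx.2, rfl⟩
  let P : ℝ → β × ℕ → ℂ := fun ε x => p x.1 + ε * d x.1 x.2
  have hP0 : ∀ ε, ∀ u ∈ S, P ε (u, 0) = p u := fun ε u hu => by simp [P, hd0 u hu]
  have ev1 : ∀ᶠ ε in 𝓝[>] (0 : ℝ), ∀ x ∈ padS S k, ∀ y ∈ padS S k, x.1 ≠ y.1 →
      P ε x ≠ P ε y := by
    rw [Filter.eventually_all_finite hS']
    intro x hx
    rw [Filter.eventually_all_finite hS']
    intro y hy
    by_cases h : x.1 = y.1
    · simp [h]
    · have h1 : P 0 x - P 0 y ≠ 0 := by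
        simpa [P, sub_eq_zero] using fun e => h (H.inj hx.1 hy.1 e)
      have h2 : ContinuousAt (fun ε => P ε x - P ε y) 0 := by simp only [P]; fun_prop
      exact ((h2.eventually_ne h1).filter_mono nhdsWithin_le_nhds).mono fun ε h _ =>
        sub_ne_zero.1 h
  have ev2 : ∀ᶠ ε in 𝓝[>] (0 : ℝ), ∀ u ∈ S, ∀ v ∈ S, ∀ x ∈ padS S k, A u v →
      ¬ OnArc (p u) (p v) (t u v) (P ε x) := by
    rw [Filter.eventually_all_finite hS]
    intro u hu
    rw [Filter.eventually_all_finite hS]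
    intro v hv
    rw [Filter.eventually_all_finite hS']
    rintro ⟨w, r⟩ hx
    by_cases h : A u v
    swap
    · simp [h]
    simp only [h, true_imp_iff]
    have hΔ : p v - p u ≠ 0 := sub_ne_zero.2 fun e => (hA u v h).2.2.1 (H.inj hv hu e).symm
    have hN := Complex.normSq_pos.2 hΔ
    by_cases hr : r = 0
    · subst hr
      exact Filter.Eventually.of_forall fun ε => by rw [hP0 _ _ hx.1]; exact H.avoid u v h w hx.1
    obtain ⟨h1, -, h2⟩ := hd w hx.1 r hr hx.2
    have hd' : d w r ≠ 0 := by intro e; rw [e] at h1; simp at h1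
    have ht : t u v ≠ 0 := by intro e; have := H.unit u v h; rw [e] at this; simp at this
    by_cases hwu : w = u
    · subst hwu
      have := ev_notPos (f := fun ε : ℝ => d w r * conj (p v - (p w + ε * d w r)) * conj (t w v) *
        (p v - p w)) (by fun_prop) (by simp [hd', ht, hΔ, -map_sub]) (by
          have := not_pos_units h1 (H.unit w v h) (h2 v h).1 hN
          rw [← Complex.mul_conj] at this
          convert this using 2
          simp only [ofReal_zero, zero_mul, add_zero]; ring)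
      filter_upwards [this, self_mem_nhdsWithin] with ε h3 h4
      rw [← pos_real_mul h4] at h3
      unfold OnArc
      convert h3 using 2
      simp only [P]; ring
    by_cases hwv : w = v
    · subst hwv
      have h' := (hA u w h).2.2.2
      have := ev_notPos (f := fun ε : ℝ => -(p w + ε * d w r - p u) * conj (d w r) * conj (t u w) *
        (p w - p u)) (by fun_prop) (by simp [hd', ht, hΔ, -neg_sub]) (by
          have := not_pos_units (H.unit w u h') h1 (h2 u h').1.symm hN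
          rw [← Complex.mul_conj] at this
          convert this using 2
          simp only [ofReal_zero, zero_mul, add_zero]
          linear_combination (-(p w - p u) * conj (d w r)) * (H.ok u w h).conj_eq (H.unit w u h'))
      filter_upwards [this, self_mem_nhdsWithin] with ε h3 h4
      rw [← pos_real_mul h4] at h3
      unfold OnArc
      convert h3 using 2
      simp only [P, map_sub, map_add, map_mul, conj_ofReal]; ring
    · have h3 : p w - p u ≠ 0 := sub_ne_zero.2 fun e => hwu (H.inj hx.1 hu e)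
      have h4 : p v - p w ≠ 0 := sub_ne_zero.2 fun e => hwv (H.inj hv hx.1 e).symm
      exact ev_notPos (f := fun ε : ℝ => (P ε (w, r) - p u) * conj (p v - P ε (w, r)) *
        conj (t u v) * (p v - p u)) (by simp only [P]; fun_prop)
        (by simp [P, h3, h4, ht, hΔ, -map_sub]) (by simpa [P, OnArc, -map_sub] using H.avoid u v h w hx.1)
  have ev3 : ∀ᶠ ε in 𝓝[>] (0 : ℝ), ∀ x ∈ padS S k, ∀ y ∈ padS S k, x.2 ≠ 0 →
      ¬ OnArc (p x.1) (P ε x) (d x.1 x.2) (P ε y) := by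
    rw [Filter.eventually_all_finite hS']
    rintro ⟨u, r⟩ hx
    rw [Filter.eventually_all_finite hS']
    rintro ⟨w, s⟩ hy
    by_cases hr : r = 0
    · simp [hr]
    simp only [ne_eq, hr, not_false_eq_true, true_imp_iff]
    have h1 := (hd u hx.1 r hr hx.2).1
    have h2 := mul_conj_unit h1
    have e : ∀ ε : ℝ, (P ε (w, s) - p u) * conj (P ε (u, r) - P ε (w, s)) * conj (d u r) *
        (P ε (u, r) - p u) = ε * ((P ε (w, s) - p u) * conj (P ε (u, r) - P ε (w, s))) := by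
      intro ε
      simp only [P]
      linear_combination (ε * ((p w + ε * d w s - p u) *
        conj (p u + ε * d u r - (p w + ε * d w s)))) * h2
    by_cases hwu : w = u
    · subst hwu
      filter_upwards [self_mem_nhdsWithin] with ε h4
      unfold OnArc
      rw [e, pos_real_mul h4]
      have : (P ε (w, s) - p w) * conj (P ε (w, r) - P ε (w, s)) =
          ((ε * ε : ℝ) : ℂ) * (d w s * conj (d w r) - d w s * conj (d w s)) := by
        simp only [P, map_sub, map_add, map_mul, conj_ofReal]; push_cast; ring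
      rw [this, pos_real_mul (mul_pos h4 h4)]
      by_cases hs : s = 0
      · simp [hs, hd0 w hx.1, Pos]
      · have h3 := (hd w hx.1 s hs hy.2).1
        rw [mul_conj_unit h3]
        rintro ⟨-, h5⟩
        have := Complex.re_le_norm (d w s * conj (d w r))
        rw [norm_mul, Complex.norm_conj, h1, h3] at this
        rw [sub_re, one_re] at h5
        linarith
    · have h3 : p w - p u ≠ 0 := sub_ne_zero.2 fun e => hwu (H.inj hy.1 hx.1 e)
      have h3' : p u - p w ≠ 0 := sub_ne_zero.2 fun e => hwu (H.inj hy.1 hx.1 e.symm)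
      have := ev_notPos (f := fun ε : ℝ => (P ε (w, s) - p u) * conj (P ε (u, r) - P ε (w, s)))
        (by simp only [P]; fun_prop) (by simp [P, h3, h3', -map_sub]) (by
          have : (P 0 (w, s) - p u) * conj (P 0 (u, r) - P 0 (w, s)) =
              ((-normSq (p w - p u) : ℝ) : ℂ) := by
            rw [ofReal_neg, ← Complex.mul_conj]; simp [P]; ring
          rw [this]
          rintro ⟨-, h5⟩
          rw [ofReal_re] at h5
          linarith [Complex.normSq_nonneg (p w - p u)])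
      filter_upwards [this, self_mem_nhdsWithin] with ε h5 h4
      unfold OnArc
      rwa [e, pos_real_mul h4]
  obtain ⟨ε, h1, h2, h3, hε⟩ := (ev1.and (ev2.and (ev3.and self_mem_nhdsWithin))).exists
  have hε' : (ε : ℂ) ≠ 0 := by exact_mod_cast (show (0 : ℝ) < ε from hε).ne'
  let T : β × ℕ → β × ℕ → ℂ := fun x y =>
    if x.2 = 0 then (if y.2 = 0 then t x.1 y.1 else d y.1 y.2) else -d x.1 x.2
  have cases : ∀ x y, padA S A k x y → (∃ u v, x = (u, 0) ∧ y = (v, 0) ∧ A u v) ∨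
      (∃ u r, x = (u, 0) ∧ y = (u, r) ∧ u ∈ S ∧ r ≠ 0 ∧ r ≤ k u) ∨
      (∃ u r, x = (u, r) ∧ y = (u, 0) ∧ u ∈ S ∧ r ≠ 0 ∧ r ≤ k u) := by
    rintro ⟨u, r⟩ ⟨v, s⟩ ⟨hx, hy, ⟨rfl, rfl, h⟩ | ⟨rfl, h⟩⟩
    · exact Or.inl ⟨_, _, rfl, rfl, h⟩
    · by_cases hr : r = 0
      · subst hr
        exact Or.inr (Or.inl ⟨_, _, rfl, rfl, hx.1, h.1 rfl, hy.2⟩)
      · obtain rfl : s = 0 := by by_contra hs; exact hr (h.2 hs)
        exact Or.inr (Or.inr ⟨_, _, rfl, rfl, hx.1, hr, hx.2⟩)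
  have ok1 : ∀ u ∈ S, ∀ r, r ≠ 0 → r ≤ k u → ArcOK (p u) (P ε (u, r)) (d u r) (-d u r) ∧
      ArcOK (P ε (u, r)) (p u) (-d u r) (d u r) := by
    intro u hu r hr hr'
    have h4 := mul_conj_unit (hd u hu r hr hr').1
    have h5 : ¬ Pos (((-ε : ℝ)) : ℂ) := fun h => by
      have := h.2; rw [ofReal_re] at this; linarith [show (0 : ℝ) < ε from hε]
    refine ⟨⟨?_, ?_⟩, ?_, ?_⟩
    · simp only [P, add_sub_cancel_left, map_mul, conj_ofReal]
      linear_combination (-ε * d u r) * h4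
    · convert h5 using 2
      simp only [P, add_sub_cancel_left, map_mul, conj_ofReal]
      push_cast
      linear_combination (-ε) * h4
    · simp only [P, sub_add_cancel_left, map_mul, conj_ofReal, map_neg]
      linear_combination (ε * d u r) * h4
    · convert h5 using 2
      simp only [P, sub_add_cancel_left, map_mul, conj_ofReal, map_neg]
      push_cast
      linear_combination (-ε) * h4
  refine ⟨P ε, T, ?_, ?_, ?_, ?_, ?_, ?_⟩
  · rintro ⟨u, r⟩ hx ⟨v, s⟩ hy h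
    by_cases huv : u = v
    · subst huv
      have : d u r = d u s := mul_left_cancel₀ hε' (add_left_cancel h)
      rw [show r = s from hdi u hx.1 hx.2 hy.2 this]
    · exact absurd h (h1 _ hx _ hy huv)
  · intro x y h0
    rcases cases x y h0 with ⟨u, v, rfl, rfl, h⟩ | ⟨u, r, rfl, rfl, hu, hr, hr'⟩ |
      ⟨u, r, rfl, rfl, hu, hr, hr'⟩
    · simpa [T] using H.unit u v h
    · simpa [T, hr] using (hd u hu r hr hr').1
    · simpa [T, hr] using (hd u hu r hr hr').1
  · intro x y h0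
    rcases cases x y h0 with ⟨u, v, rfl, rfl, h⟩ | ⟨u, r, rfl, rfl, hu, hr, hr'⟩ |
      ⟨u, r, rfl, rfl, hu, hr, hr'⟩
    · simpa [T, hP0 ε u (hA u v h).1, hP0 ε v (hA u v h).2.1] using H.ok u v h
    · simpa [T, hr, hP0 ε u hu] using (ok1 u hu r hr hr').1
    · simpa [T, hr, hP0 ε u hu] using (ok1 u hu r hr hr').2
  · intro x y h0 w hw
    rcases cases x y h0 with ⟨u, v, rfl, rfl, h⟩ | ⟨u, r, rfl, rfl, hu, hr, hr'⟩ |
      ⟨u, r, rfl, rfl, hu, hr, hr'⟩
    · simpa [T, hP0 ε u (hA u v h).1, hP0 ε v (hA u v h).2.1] using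
        h2 u (hA u v h).1 v (hA u v h).2.1 w hw h
    · simpa [T, hr, hP0 ε u hu] using h3 (u, r) ⟨hu, hr'⟩ w hw hr
    · have := h3 (u, r) ⟨hu, hr'⟩ w hw hr
      rw [← onArc_symm (ok1 u hu r hr hr').1 (by simpa using (hd u hu r hr hr').1)] at this
      simpa [T, hr, hP0 ε u hu] using this
  · intro x y y' h0 h0'
    rcases cases x y h0 with ⟨u, v, rfl, rfl, h⟩ | ⟨u, r, rfl, rfl, hu, hr, hr'⟩ |
      ⟨u, r, rfl, rfl, hu, hr, hr'⟩
    · rcases cases _ y' h0' with ⟨u', v', e, rfl, h'⟩ | ⟨u', r, e, rfl, hu, hr, hr'⟩ |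
        ⟨u', r, e, rfl, hu, hr, hr'⟩ <;> cases e
      · simpa [T, hdg u (hA u v h).1] using H.frame u v v' h h'
      · simpa [T, hr, hdg u hu] using ((hd u hu r hr hr').2.2 v h).2.symm
      · exact absurd rfl hr
    · rcases cases _ y' h0' with ⟨u', v', e, rfl, h'⟩ | ⟨u', s, e, rfl, -, hs, hs'⟩ |
        ⟨u', s, e, rfl, -, hs, hs'⟩ <;> cases e
      · simpa [T, hr, hdg u hu] using ((hd u hu r hr hr').2.2 v' h').2
      · simpa [T, hr, hs, hdg u hu] using (hd u hu r hr hr').2.1 s hs hs'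
      · exact absurd rfl hs
    · simp [T, hr]
  · intro x y y' h0 h0' e
    rcases cases x y h0 with ⟨u, v, rfl, rfl, h⟩ | ⟨u, r, rfl, rfl, hu, hr, hr'⟩ |
      ⟨u, r, rfl, rfl, hu, hr, hr'⟩
    · rcases cases _ y' h0' with ⟨u', v', e', rfl, h'⟩ | ⟨u', r, e', rfl, hu, hr, hr'⟩ |
        ⟨u', r, e', rfl, hu, hr, hr'⟩ <;> cases e'
      · rw [H.tinj u v v' h h' (by simpa [T] using e)]
      · exact absurd (by simpa [T, hr] using e.symm) ((hd u hu r hr hr').2.2 v h).1
      · exact absurd rfl hr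
    · rcases cases _ y' h0' with ⟨u', v', e', rfl, h'⟩ | ⟨u', s, e', rfl, -, hs, hs'⟩ |
        ⟨u', s, e', rfl, -, hs, hs'⟩ <;> cases e'
      · exact absurd (by simpa [T, hr] using e) ((hd u hu r hr hr').2.2 v' h').1
      · rw [hdi u hu hr' hs' (by simpa [T, hr, hs] using e)]
      · exact absurd rfl hs
    · rcases cases _ y' h0' with ⟨u', v', e', rfl, h'⟩ | ⟨u', s, e', rfl, -, hs, hs'⟩ |
        ⟨u', s, e', rfl, -, hs, hs'⟩ <;> cases e'
      · exact absurd rfl hr
      · exact absurd rfl hr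
      · rfl

end Pool.Agent.P.MP_e1cc3f_lc
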