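import Pool.Agent.P.MP_e1cc3f_lc.Alg
import Pool.Agent.P.MP_e1cc3f_lc.Cyclo

/-! A drawing of the core graph yields collinear points with harmonic quadruples. -/

namespace Pool.Agent.P.MP_e1cc3f_lc

open Complex ComplexConjugate

/-- The pair `a, b` is harmonic to the pair `c, d`. -/
def Hm (a b c d : ℝ) : Prop := (a - c) * (b - d) + (a - d) * (b - c) = 0

/-- The four points are harmonic in some order. -/
def Harm (a b c d : ℝ) : Prop := Hm a b c d ∨ Hm a c b d ∨ Hm a d b c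

theorem line2 {F : IntermediateField ℚ ℂ} {x a b : ℂ} (ha : a ∈ F) (hb : b ∈ F)
    (h0 : x = a * conj x) (h1 : x - 1 = b * conj (x - 1)) : conj x = x ∨ (x ∈ F ∧ conj x ∈ F) := by
  rw [map_sub, map_one] at h1
  by_cases hab : a = b
  · subst hab
    have : a = 1 := by linear_combination h1 - h0
    left; rw [this, one_mul] at h0; exact h0.symm
  · have h2 : conj x = (1 - b) / (a - b) := by
      rw [eq_div_iff (sub_ne_zero.2 hab)]; linear_combination h1 - h0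
    have h3 : conj x ∈ F := h2 ▸ div_mem (sub_mem (one_mem F) hb) (sub_mem ha hb)
    exact Or.inr ⟨h0 ▸ mul_mem ha h3, h3⟩

theorem w7_not_mem {N : ℕ} (hN : N ≠ 0) (h7 : Nat.Coprime N 7) {r x s0 s1 s2 η0 η1 η2 : ℂ}
    (hs0 : s0 ^ 7 = 1) (hs1 : s1 ^ 7 = 1) (hs2 : s2 ^ 7 = 1) (n0 : s0 ≠ 1) (n1 : s1 ≠ 1)
    (n2 : s2 ≠ 1) (n01 : s0 ≠ s1) (n02 : s0 ≠ s2) (n12 : s1 ≠ s2) (e0 : η0 ^ N = 1)
    (e1 : η1 ^ N = 1) (e2 : η2 ^ N = 1) (h0 : x = s0 * η0 * conj x)
    (h1 : x - 1 = s1 * η1 * conj (x - 1)) (h2 : x - r = s2 * η2 * conj (x - r)) (r0 : r ≠ 0)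
    (r1 : r ≠ 1) : ¬ (r ∈ FF N ∧ conj r ∈ FF N) := by
  rintro ⟨hr, hr'⟩
  obtain ⟨a, rfl⟩ := exists_W hs0
  obtain ⟨b, rfl⟩ := exists_W hs1
  obtain ⟨c, rfl⟩ := exists_W hs2
  have W0 : W 0 = 1 := AddChar.map_zero_eq_one _
  obtain ⟨i, hi⟩ := classes3 a b c (by rintro rfl; exact n0 W0) (by rintro rfl; exact n1 W0)
    (by rintro rfl; exact n2 W0) (by rintro rfl; exact n01 rfl) (by rintro rfl; exact n02 rfl)
    (by rintro rfl; exact n12 rfl)
  have m0 := mem_FF hN e0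
  have m1 := mem_FF hN e1
  have m2 := mem_FF hN e2
  have z0 : η0 ≠ 0 := by rintro rfl; simp [hN] at e0
  have z1 : η1 ≠ 0 := by rintro rfl; simp [hN] at e1
  have z2 : η2 ≠ 0 := by rintro rfl; simp [hN] at e2
  have r0' : conj r ≠ 0 := by simpa using r0
  have r1' : 1 - conj r ≠ 0 := by
    rw [← map_one conj, ← map_sub, map_ne_zero]; exact sub_ne_zero.2 r1.symm
  have r1'' : 1 - r ≠ 0 := sub_ne_zero.2 r1.symm
  have := six_one hN h7 ![η0 * (1 - r), η1 * r, -η2, -(η0 * η1), η0 * η2 * conj r,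
    η1 * η2 * (1 - conj r)] (by
      intro i
      fin_cases i
      · exact mul_mem m0 (sub_mem (one_mem _) hr)
      · exact mul_mem m1 hr
      · exact neg_mem m2
      · exact neg_mem (mul_mem m0 m1)
      · exact mul_mem (mul_mem m0 m2) hr'
      · exact mul_mem (mul_mem m1 m2) (sub_mem (one_mem _) hr')) _ (by
      simp only [map_sub, map_one] at h1 h2
      simp only [Fin.sum_univ_six, Matrix.cons_val, W_add]
      linear_combination (W b * η1 - W c * η2) * h0 + (W c * η2 - W a * η0) * h1 +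
        (W a * η0 - W b * η1) * h2) i hi
  fin_cases i <;> simp [z0, z1, z2, r0, r0', r1', r1''] at this

theorem cross_rel {z : Fin 4 → ℝ} {x l : ℂ} {y : Fin 4 → ℂ} (hx : ∀ k, x ≠ z k)
    (h : ∀ k, x - z k = l * y k * conj (x - z k)) :
    ((z 0 - z 2) * (z 1 - z 3) : ℝ) * ((y 0 - y 3) * (y 1 - y 2)) =
      ((z 0 - z 3) * (z 1 - z 2) : ℝ) * ((y 0 - y 2) * (y 1 - y 3)) := by
  have hc : ∀ k, conj x - z k ≠ 0 := fun k => by
    rw [← conj_ofReal, ← map_sub, map_ne_zero]; exact sub_ne_zero.2 (hx k)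
  have hl : l ≠ 0 := by
    rintro rfl
    exact sub_ne_zero.2 (hx 0) (by simpa using h 0)
  have key : ∀ k m, y k - y m =
      (z k - z m) * (x - conj x) / (l * (conj x - z k) * (conj x - z m)) := by
    intro k m
    have h1 := h k
    have h2 := h m
    rw [map_sub, conj_ofReal] at h1 h2
    rw [eq_div_iff (mul_ne_zero (mul_ne_zero hl (hc k)) (hc m))]
    linear_combination (conj x - z k) * h2 - (conj x - z m) * h1
  simp only [key]
  have := hc 0; have := hc 1; have := hc 2; have := hc 3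
  push_cast
  field_simp

theorem roots_inj {d D : ℕ} (hc : Nat.Coprime d D) (hd : d ≠ 0) {a b η θ : ℂ} (ha : a ^ d = 1)
    (hb : b ^ d = 1) (hη : η ^ D = 1) (hθ : θ ^ D = 1) (h : a * η = b * θ) : a = b := by
  have hb0 : b ≠ 0 := by rintro rfl; simp [hd] at hb
  have h1 : a ^ D = b ^ D := by
    have := congrArg (· ^ D) h
    simpa [mul_pow, hη, hθ] using this
  have := (pow_eq_one_iff_of_coprime (a := a / b) hc).1
    ⟨by rw [div_pow, ha, hb, div_one], by rw [div_pow, h1, div_self (pow_ne_zero _ hb0)]⟩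
  exact (div_eq_one_iff_eq hb0).1 this

theorem harm_of {D : ℕ} (hD0 : D ≠ 0) (hD : Nat.Coprime 14 D) {z : Fin 4 → ℝ}
    (hz : Function.Injective z) {x l x' l' : ℂ} {s η s' η' : Fin 4 → ℂ} (hx : ∀ k, x ≠ z k)
    (hx' : ∀ k, x' ≠ z k) (hs : Function.Injective s) (hs' : Function.Injective s')
    (h : ∀ k, s k ^ 4 = 1 ∧ η k ^ D = 1 ∧ x - z k = l * (s k * η k) * conj (x - z k))
    (h' : ∀ k, s' k ^ 14 = 1 ∧ η' k ^ D = 1 ∧ x' - z k = l' * (s' k * η' k) * conj (x' - z k)) :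
    Harm (z 0) (z 1) (z 2) (z 3) := by
  have hN : 4 * D ≠ 0 := by omega
  have h7 : Nat.Coprime (4 * D) 7 :=
    Nat.Coprime.mul_left (by norm_num) (Nat.Coprime.coprime_mul_left (k := 2) hD).symm
  have h4 : Nat.Coprime 4 D :=
    Nat.Coprime.pow_left 2 (Nat.Coprime.coprime_mul_right (m := 2) (k := 7) hD)
  have hzne : ∀ k m, k ≠ m → z k - z m ≠ 0 := fun k m h => sub_ne_zero.2 (hz.ne h)
  set A := (z 0 - z 2) * (z 1 - z 3) with hA
  set B := (z 0 - z 3) * (z 1 - z 2) with hB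
  have A0 : A ≠ 0 := mul_ne_zero (hzne _ _ (by decide)) (hzne _ _ (by decide))
  have B0 : B ≠ 0 := mul_ne_zero (hzne _ _ (by decide)) (hzne _ _ (by decide))
  have AB : A - B ≠ 0 := by
    rw [show A - B = (z 0 - z 1) * (z 2 - z 3) by rw [hA, hB]; ring]
    exact mul_ne_zero (hzne _ _ (by decide)) (hzne _ _ (by decide))
  have B0' : (B : ℂ) ≠ 0 := by exact_mod_cast B0
  have hρ : ((A / B : ℝ) : ℂ) ∈ FF (4 * D) := by
    have h1 := cross_rel hx fun k => (h k).2.2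
    have hy : ∀ k m, k ≠ m → s k * η k - s m * η m ≠ 0 := fun k m hkm => sub_ne_zero.2 fun e =>
      hs.ne hkm (roots_inj h4 (by norm_num) (h k).1 (h m).1 (h k).2.1 (h m).2.1 e)
    have hm : ∀ k, s k * η k ∈ FF (4 * D) := fun k => mem_FF hN (by
      rw [mul_pow, pow_mul, (h k).1, mul_comm 4 D, pow_mul, (h k).2.1]; simp)
    have : ((A / B : ℝ) : ℂ) = ((s 0 * η 0 - s 2 * η 2) * (s 1 * η 1 - s 3 * η 3)) /
        ((s 0 * η 0 - s 3 * η 3) * (s 1 * η 1 - s 2 * η 2)) := by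
      rw [ofReal_div, div_eq_div_iff B0' (mul_ne_zero (hy _ _ (by decide)) (hy _ _ (by decide)))]
      linear_combination h1
    rw [this]
    exact div_mem (mul_mem (sub_mem (hm _) (hm _)) (sub_mem (hm _) (hm _)))
      (mul_mem (sub_mem (hm _) (hm _)) (sub_mem (hm _) (hm _)))
  have hc : ∀ k, ∃ (c : ZMod 7) (σ : ℂ), (σ = 1 ∨ σ = -1) ∧ s' k = σ * W c := by
    intro k
    have : (s' k ^ 7 - 1) * (s' k ^ 7 + 1) = 0 := by linear_combination (h' k).1
    rcases mul_eq_zero.1 this with h1 | h1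
    · obtain ⟨c, hc⟩ := exists_W (x := s' k) (by linear_combination h1)
      exact ⟨c, 1, Or.inl rfl, by rw [hc, one_mul]⟩
    · obtain ⟨c, hc⟩ := exists_W (x := -s' k) (by linear_combination -h1)
      exact ⟨c, -1, Or.inr rfl, by rw [hc]; ring⟩
  choose c σ hσ hc using hc
  have no3 : ∀ k m n, k ≠ m → k ≠ n → m ≠ n → ¬ (c k = c m ∧ c k = c n) := by
    rintro k m n h1 h2 h3 ⟨h4, h5⟩
    have h6 := hs'.ne h1
    have h7 := hs'.ne h2
    have h8 := hs'.ne h3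
    rw [hc, hc, ← h4] at h6
    rw [hc, hc, ← h5] at h7
    rw [hc, hc, ← h4, ← h5] at h8
    rcases hσ k with e1 | e1 <;> rcases hσ m with e2 | e2 <;> rcases hσ n with e3 | e3 <;>
      simp_all
  let θ : Fin 4 → ℂ := fun k => σ k * η' k
  have hθ : ∀ k, θ k ^ (4 * D) = 1 := fun k => by
    simp only [θ]
    rw [mul_pow, pow_mul, mul_comm 4 D, pow_mul, (h' k).2.1]
    rcases hσ k with e | e <;> rw [e] <;> norm_num
  have hθm : ∀ k, θ k ∈ FF (4 * D) := fun k => mem_FF hN (hθ k)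
  have hθn : ∀ k, ‖θ k‖ = 1 := fun k => norm_eq_one_of_pow_eq_one (hθ k) hN
  set ρ := A / B with hρd
  let κ : Fin 6 → ℝ := ![ρ - 1, ρ - 1, 1, 1, -ρ, -ρ]
  let u : Fin 6 → ℂ := ![θ 0 * θ 1, θ 2 * θ 3, θ 0 * θ 3, θ 1 * θ 2, θ 0 * θ 2, θ 1 * θ 3]
  have hu : ∀ i, ‖u i‖ = 1 := fun i => by fin_cases i <;> simp [u, hθn]
  have hm : ∀ i, κ i * u i ∈ FF (4 * D) := by
    intro i
    refine mul_mem ?_ ?_
    · fin_cases i <;> simp only [κ, Fin.reduceFinMk, Matrix.cons_val, ofReal_sub, ofReal_one,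
        ofReal_neg] <;>
        first | exact sub_mem hρ (one_mem _) | exact one_mem _ | exact neg_mem hρ
    · fin_cases i <;> exact mul_mem (hθm _) (hθm _)
  have hsum : ∑ i, κ i * u i *
      W (![c 0 + c 1, c 2 + c 3, c 0 + c 3, c 1 + c 2, c 0 + c 2, c 1 + c 3] i) = 0 := by
    have h1 := cross_rel hx' fun k => (h' k).2.2
    simp only [hc] at h1
    rw [← hA, ← hB, show A = ρ * B by rw [hρd]; field_simp, ofReal_mul, mul_comm (ρ : ℂ),
      mul_assoc] at h1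
    have h2 := mul_left_cancel₀ B0' h1
    simp only [Fin.sum_univ_six, Matrix.cons_val, W_add, κ, u, θ]
    push_cast
    linear_combination h2
  have ρ0 : ρ ≠ 0 := div_ne_zero A0 B0
  have ρ1 : ρ - 1 ≠ 0 := by
    rw [show ρ - 1 = (A - B) / B by rw [hρd]; field_simp]; exact div_ne_zero AB B0
  have hfin : ρ = -1 ∨ ρ = 2 ∨ 2 * ρ = 1 := by
    rcases classes4 (c 0) (c 1) (c 2) (c 3) (no3 _ _ _ (by decide) (by decide) (by decide))
      (no3 _ _ _ (by decide) (by decide) (by decide))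
      (no3 _ _ _ (by decide) (by decide) (by decide))
      (no3 _ _ _ (by decide) (by decide) (by decide)) with ⟨i, hi⟩ | ⟨i, j, hij, hi⟩
    · have h1 := congrArg norm (six_one hN h7 _ hm _ hsum i hi)
      rw [norm_mul, hu, mul_one, norm_zero, norm_eq_zero, ofReal_eq_zero] at h1
      fin_cases i <;> simp [κ, ρ0, ρ1] at h1
    · have h1 := six_two hN h7 _ hm _ hsum i j (by rintro rfl; omega) hi
      have h2 : κ i ^ 2 = κ j ^ 2 := by
        have := congrArg norm (eq_neg_of_add_eq_zero_left h1)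
        rw [norm_neg, norm_mul, norm_mul, hu, hu, mul_one, mul_one, Complex.norm_real,
          Complex.norm_real, Real.norm_eq_abs, Real.norm_eq_abs] at this
        exact sq_eq_sq_iff_abs_eq_abs _ _ |>.2 this
      fin_cases i <;> fin_cases j <;> simp only [Nat.reduceDiv, lt_self_iff_false] at hij <;>
        first | omega | (simp only [κ, Fin.reduceFinMk, Matrix.cons_val] at h2; grind)
  have hAB : A = ρ * B := by rw [hρd]; field_simp
  unfold Harm Hm
  rcases hfin with e | e | e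
  · left; rw [← hA, ← hB, hAB, e]; ring
  · right; left
    rw [e] at hAB; linear_combination hAB
  · right; right
    linear_combination -2 * hAB - B * e

theorem core_sound {β : Type} {S : Set β} {A : β → β → Prop} {dg p t} (H : Alg S A dg p t)
    {D : ℕ} (hD0 : D ≠ 0) (hD : Nat.Coprime 14 D)
    (hS : ∀ u v, A u v → u ∈ S ∧ v ∈ S ∧ u ≠ v ∧ A v u) (b : Fin 4 → β)
    (hb : ∀ k l, k ≠ l → A (b k) (b l)) (hbd : ∀ k, dg (b k) = D) (w : β) (hw : ∀ k, A w (b k))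
    (hwd : dg w = 7) :
    ∃ f : β → ℝ, Set.InjOn f {u | (∀ k, A u (b k)) ∧ dg u = D} ∧
      ∀ c : Fin 4 → β, Function.Injective c → (∀ i, (∀ k, A (c i) (b k)) ∧ dg (c i) = D) →
        ∀ q q', (∀ i, A q (c i)) → dg q = 4 → q ≠ b 3 → (∀ i, A q' (c i)) → dg q' = 14 →
          q' ≠ b 3 → Harm (f (c 0)) (f (c 1)) (f (c 2)) (f (c 3)) := by
  have hN : 4 * D ≠ 0 := by omega
  have h7 : Nat.Coprime (4 * D) 7 :=
    Nat.Coprime.mul_left (by norm_num) (Nat.Coprime.coprime_mul_left (k := 2) hD).symm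
  have t0 : ∀ u v, A u v → t u v ≠ 0 := fun u v h e => by simpa [e] using H.unit u v h
  have hb3 : b 3 ∈ S := (hS _ _ (hb 3 0 (by decide))).1
  have p3 : ∀ u ∈ S, u ≠ b 3 → p u - p (b 3) ≠ 0 := fun u hu h =>
    sub_ne_zero.2 fun e => h (H.inj hu hb3 e)
  let P : β → ℂ := fun u => (p u - p (b 3))⁻¹
  have Pinj : ∀ u ∈ S, u ≠ b 3 → ∀ v ∈ S, v ≠ b 3 → P u = P v → u = v := fun u hu _ v hv _ e =>
    H.inj hu hv (sub_left_injective (inv_injective e))
  let lam : β → ℂ := fun u => conj (p u - p (b 3)) / (p u - p (b 3))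
  let g : β → β → ℂ := fun v u => t v u / (t v (b 3) * t (b 3) v)
  have key : ∀ u v, u ≠ b 3 → A u v → A v (b 3) →
      P u - P v = lam u * t u v * g v u * conj (P u - P v) := by
    intro u v hu h h3
    have h1 := (H.ok u v h).1
    have h2 := (H.ok v _ h3).1
    have n1 := p3 u (hS _ _ h).1 hu
    have n2 := p3 v (hS _ _ h3).1 (hS _ _ h3).2.2.1
    have n1' : conj (p u - p (b 3)) ≠ 0 := (map_ne_zero _).2 n1
    have n2' : conj (p v - p (b 3)) ≠ 0 := (map_ne_zero _).2 n2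
    have n3 := t0 _ _ h3
    have n4 := t0 _ _ (hS _ _ h3).2.2.2
    simp only [P, lam, g, map_sub, map_inv₀] at h1 h2 n1' n2' ⊢
    field_simp
    linear_combination (-(p v - p (b 3))) * h1 + (p v - p u) * -h2
  have hlam : ∀ u, A u (b 3) → lam u = -(t u (b 3) * t (b 3) u)⁻¹ := by
    intro u h3
    have h2 := (H.ok u _ h3).1
    have n1 := p3 u (hS _ _ h3).1 (hS _ _ h3).2.2.1
    have n3 := t0 _ _ h3
    have n4 := t0 _ _ (hS _ _ h3).2.2.2
    simp only [lam, map_sub] at h2 ⊢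
    field_simp
    linear_combination -h2
  set C := t (b 3) (b 0) ^ D with hC
  have hC0 : C ≠ 0 := pow_ne_zero _ (t0 _ _ (hb 3 0 (by decide)))
  have h3D : ∀ v, A v (b 3) → t (b 3) v ^ D = C := fun v h => by
    rw [hC, ← hbd 3]; exact H.frame _ _ _ (hS _ _ h).2.2.2 (hb 3 0 (by decide))
  have hg : ∀ v u, A v u → A v (b 3) → dg v = D → g v u ^ D = C⁻¹ := by
    intro v u h h3 hd
    have h1 := H.frame v u (b 3) h h3
    rw [hd] at h1
    simp only [g]
    rw [div_pow, mul_pow, h1, h3D v h3]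
    have := pow_ne_zero D (t0 _ _ h3)
    field_simp
  have hlt : ∀ u v, A u v → A u (b 3) → dg u = D → (lam u * t u v) ^ D = (-1) ^ D * C⁻¹ := by
    intro u v h h3 hd
    rw [← hg u v h h3 hd, ← mul_pow, hlam u h3]
    simp only [g]; congr 1; ring
  set ε := lam (b 1) * t (b 1) (b 0) * g (b 0) (b 1) with hε
  have hεD : ε ^ D = (-1) ^ D * C⁻¹ * C⁻¹ := by
    rw [hε, mul_pow, hlt _ _ (hb 1 0 (by decide)) (hb 1 3 (by decide)) (hbd 1),
      hg _ _ (hb 0 1 (by decide)) (hb 0 3 (by decide)) (hbd 0)]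
  have hε0 : ε ≠ 0 := by
    intro h; rw [h, zero_pow hD0] at hεD
    exact mul_ne_zero (mul_ne_zero (pow_ne_zero _ (by norm_num)) (inv_ne_zero hC0))
      (inv_ne_zero hC0) hεD.symm
  have bS : ∀ k, b k ∈ S := fun k => (hS _ _ (hw k)).2.1
  have bne : ∀ k l, k ≠ l → b k ≠ b l := fun k l h => (hS _ _ (hb k l h)).2.2.1
  have hΔ : P (b 1) - P (b 0) ≠ 0 := sub_ne_zero.2 fun e => bne 1 0 (by decide)
    (Pinj _ (bS 1) (bne 1 3 (by decide)) _ (bS 0) (bne 0 3 (by decide)) e)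
  have hΔ' : conj (P (b 1) - P (b 0)) ≠ 0 := (map_ne_zero _).2 hΔ
  let z : β → ℂ := fun u => (P u - P (b 0)) / (P (b 1) - P (b 0))
  have zinj : ∀ u ∈ S, u ≠ b 3 → ∀ v ∈ S, v ≠ b 3 → z u = z v → u = v := fun u hu hu' v hv hv' e =>
    Pinj u hu hu' v hv hv' (sub_left_injective ((div_left_inj' hΔ).1 e))
  have z0 : z (b 0) = 0 := by simp [z]
  have z1 : z (b 1) = 1 := div_self hΔ
  have keyz : ∀ u v, u ≠ b 3 → A u v → A v (b 3) →
      z u - z v = lam u * t u v * g v u / ε * conj (z u - z v) := by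
    intro u v hu h h3
    have h1 := key u v hu h h3
    have h2 := key (b 1) (b 0) (bne 1 3 (by decide)) (hb 1 0 (by decide)) (hb 0 3 (by decide))
    rw [← hε] at h2
    have e : z u - z v = (P u - P v) / (P (b 1) - P (b 0)) := by simp only [z]; ring
    rw [e, map_div₀]
    conv_lhs => rw [h1, h2]
    field_simp
  have main : ∀ u v, A u v → A u (b 3) → A v (b 3) → dg u = D → dg v = D →
      ∃ a ∈ FF (4 * D), z u - z v = a * conj (z u - z v) := by
    intro u v h hu hv du dv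
    refine ⟨_, mem_FF hN ?_, keyz u v (hS _ _ hu).2.2.1 h hv⟩
    rw [mul_comm 4 D, pow_mul, div_pow, mul_pow, hlt u v h hu du, hg v u (hS _ _ h).2.2.2 hv dv,
      ← hεD, div_self (pow_ne_zero _ hε0), one_pow]
  set r := z (b 2) with hr
  have hw3 : w ≠ b 3 := (hS _ _ (hw 3)).2.2.1
  have hrF : ¬ (r ∈ FF (4 * D) ∧ conj r ∈ FF (4 * D)) := by
    have hk : ∀ k, k ≠ 3 → (t w (b k) / t w (b 3)) ^ 7 = 1 ∧ t w (b k) / t w (b 3) ≠ 1 ∧
        (-(t (b 3) w)⁻¹ * g (b k) w / ε) ^ (4 * D) = 1 ∧ z w - z (b k) = t w (b k) / t w (b 3) *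
          (-(t (b 3) w)⁻¹ * g (b k) w / ε) * conj (z w - z (b k)) := by
      intro k hk
      have n := t0 _ _ (hw 3)
      refine ⟨?_, fun e => ?_, ?_, ?_⟩
      · rw [div_pow, ← hwd, H.frame _ _ _ (hw k) (hw 3), div_self (pow_ne_zero _ n)]
      · exact bne k 3 hk (H.tinj _ _ _ (hw k) (hw 3) ((div_eq_one_iff_eq n).1 e))
      · rw [mul_comm 4 D, pow_mul, div_pow, mul_pow, neg_pow, inv_pow, h3D w (hw 3),
          hg _ _ (hS _ _ (hw k)).2.2.2 (hb k 3 hk) (hbd k), ← hεD, div_self (pow_ne_zero _ hε0),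
          one_pow]
      · conv_lhs => rw [keyz w (b k) hw3 (hw k) (hb k 3 hk), hlam w (hw 3)]
        ring
    have hne : ∀ k l, k ≠ l → t w (b k) / t w (b 3) ≠ t w (b l) / t w (b 3) := fun k l h e =>
      bne k l h (H.tinj _ _ _ (hw k) (hw l) ((div_left_inj' (t0 _ _ (hw 3))).1 e))
    obtain ⟨a0, a1, a2, a3⟩ := hk 0 (by decide)
    obtain ⟨b0, b1, b2, b3⟩ := hk 1 (by decide)
    obtain ⟨c0, c1, c2, c3⟩ := hk 2 (by decide)
    rw [z0, sub_zero] at a3
    rw [z1] at b3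
    refine w7_not_mem hN h7 a0 b0 c0 a1 b1 c1 (hne _ _ (by decide)) (hne _ _ (by decide))
      (hne _ _ (by decide)) a2 b2 c2 a3 b3 c3 (fun e => ?_) (fun e => ?_)
    · exact bne 2 0 (by decide) (zinj _ (bS 2) (bne 2 3 (by decide)) _ (bS 0) (bne 0 3 (by decide))
        (e.trans z0.symm))
    · exact bne 2 1 (by decide) (zinj _ (bS 2) (bne 2 3 (by decide)) _ (bS 1) (bne 1 3 (by decide))
        (e.trans z1.symm))
  have hrr : conj r = r := by
    obtain ⟨a, ha, h0⟩ := main _ _ (hb 2 0 (by decide)) (hb 2 3 (by decide)) (hb 0 3 (by decide))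
      (hbd 2) (hbd 0)
    obtain ⟨a', ha', h1⟩ := main _ _ (hb 2 1 (by decide)) (hb 2 3 (by decide)) (hb 1 3 (by decide))
      (hbd 2) (hbd 1)
    rw [z0, sub_zero] at h0
    rw [z1] at h1
    exact (line2 ha ha' h0 h1).resolve_right hrF
  have hreal : ∀ u, (∀ k, A u (b k)) → dg u = D → ((z u).re : ℂ) = z u := by
    intro u hu du
    rw [← Complex.conj_eq_iff_re]
    obtain ⟨a, ha, h0⟩ := main _ _ (hu 0) (hu 3) (hb 0 3 (by decide)) du (hbd 0)
    obtain ⟨a', ha', h1⟩ := main _ _ (hu 1) (hu 3) (hb 1 3 (by decide)) du (hbd 1)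
    obtain ⟨a'', ha'', h2⟩ := main _ _ (hu 2) (hu 3) (hb 2 3 (by decide)) du (hbd 2)
    rw [z0, sub_zero] at h0
    rw [z1] at h1
    rw [← hr, map_sub, hrr] at h2
    rcases line2 ha ha' h0 h1 with h | ⟨h3, h4⟩
    · exact h
    by_cases e : a'' = 1
    · rw [e] at h2; linear_combination -h2
    · exfalso
      have : r = (z u - a'' * conj (z u)) / (1 - a'') := by
        rw [eq_div_iff (sub_ne_zero.2 (Ne.symm e))]; linear_combination -h2
      have h5 : r ∈ FF (4 * D) := this ▸ div_mem (sub_mem h3 (mul_mem ha'' h4))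
        (sub_mem (one_mem _) ha'')
      exact hrF ⟨h5, hrr.symm ▸ h5⟩
  have finj : Set.InjOn (fun u => (z u).re) {u | (∀ k, A u (b k)) ∧ dg u = D} := by
    intro u hu v hv e
    refine zinj u (hS _ _ (hu.1 3)).1 (hS _ _ (hu.1 3)).2.2.1 v (hS _ _ (hv.1 3)).1
      (hS _ _ (hv.1 3)).2.2.1 ?_
    rw [← hreal u hu.1 hu.2, ← hreal v hv.1 hv.2]
    exact congrArg _ e
  refine ⟨fun u => (z u).re, finj, fun c hc hcm q q' hq dq q3 hq' dq' q3' => ?_⟩
  have sat : ∀ q, (∀ i, A q (c i)) → q ≠ b 3 → (∀ k, z q ≠ (z (c k)).re) ∧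
      Function.Injective (fun k => t q (c k) / t q (c 0)) ∧ ∀ k,
        (t q (c k) / t q (c 0)) ^ dg q = 1 ∧ (g (c k) q / g (c 0) q) ^ D = 1 ∧
        z q - (z (c k)).re = lam q * t q (c 0) * g (c 0) q / ε *
          (t q (c k) / t q (c 0) * (g (c k) q / g (c 0) q)) * conj (z q - (z (c k)).re) := by
    intro q hq q3
    have n := t0 _ _ (hq 0)
    have hgk : ∀ k, g (c k) q ^ D = C⁻¹ := fun k =>
      hg _ _ (hS _ _ (hq k)).2.2.2 ((hcm k).1 3) (hcm k).2
    have n' : g (c 0) q ≠ 0 := fun e => by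
      have := hgk 0
      rw [e, zero_pow hD0] at this
      exact inv_ne_zero hC0 this.symm
    refine ⟨fun k e => ?_, fun k l e => ?_, fun k => ⟨?_, ?_, ?_⟩⟩
    · rw [hreal _ (hcm k).1 (hcm k).2] at e
      exact (hS _ _ (hq k)).2.2.1 (zinj _ (hS _ _ (hq k)).1 q3 _ (hS _ _ (hq k)).2.1
        (hS _ _ ((hcm k).1 3)).2.2.1 e)
    · exact hc (H.tinj _ _ _ (hq k) (hq l) ((div_left_inj' n).1 e))
    · rw [div_pow, H.frame _ _ _ (hq k) (hq 0), div_self (pow_ne_zero _ n)]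
    · rw [div_pow, hgk, hgk, div_self (inv_ne_zero hC0)]
    · rw [hreal _ (hcm k).1 (hcm k).2]
      conv_lhs => rw [keyz q (c k) q3 (hq k) ((hcm k).1 3)]
      field_simp
  obtain ⟨a1, a2, a3⟩ := sat q hq q3
  obtain ⟨b1, b2, b3⟩ := sat q' hq' q3'
  rw [dq] at a3
  rw [dq'] at b3
  exact harm_of hD0 hD (z := fun k => (z (c k)).re)
    (fun k l e => hc (finj (hcm k) (hcm l) e)) a1 b1 a2 b2 a3 b3

end Pool.Agent.P.MP_e1cc3f_lc
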