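import Pool.Agent.P.MP_e1cc3f_lc.Label
import Pool.Agent.P.MP_e1cc3f_lc.Sound

/-! Positions of the vertices of degree `4`, `7` and `14`. -/

namespace Pool.Agent.P.MP_e1cc3f_lc

open Complex ComplexConjugate Real

theorem SatOK.perm {d D : ℕ} {z : Fin 4 → ℝ} {x : ℂ} (e : Equiv.Perm (Fin 4))
    (h : SatOK d D (fun k => z (e k)) x) : SatOK d D z x := by
  obtain ⟨h1, l, σ, η, h2, h3, h4⟩ := h
  exact ⟨h1, l, fun k => σ (e.symm k), fun k => η (e.symm k), h2, h3.comp e.symm.injective,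
    fun k => by simpa using h4 (e.symm k)⟩

theorem harm_point {a b c d : ℝ} (hab : a ≠ b) (hac : a ≠ c) (hbc : b ≠ c) (h : Hm a b c d)
    {y : ℂ} (hy : ‖y‖ = 1) (hy2 : y ^ 2 ≠ 1) :
    ∃ x l : ℂ, x.im ≠ 0 ∧ ‖l‖ = 1 ∧ x - a = l * conj (x - a) ∧ x - b = -l * conj (x - b) ∧
      x - c = l * y * conj (x - c) ∧ x - d = l * y⁻¹ * conj (x - d) := by
  obtain ⟨m, k, rfl, rfl⟩ : ∃ m k, a = m + k ∧ b = m - k :=
    ⟨(a + b) / 2, (a - b) / 2, by ring, by ring⟩
  have hk : k ≠ 0 := by rintro rfl; simp at hab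
  obtain ⟨s, rfl⟩ : ∃ s, c = m + k * s := ⟨(c - m) / k, by field_simp; ring⟩
  have h1 : s * (d - m) = k := by
    unfold Hm at h
    apply mul_left_cancel₀ hk
    linear_combination (1 / 2) * h
  have hs0 : s ≠ 0 := by rintro rfl; exact hk (by simpa using h1.symm)
  obtain rfl : d = m + k / s := by field_simp; linear_combination h1
  have hs1 : s ≠ 1 := by rintro rfl; simp at hac
  have hs2 : s ≠ -1 := by rintro rfl; simp [sub_eq_add_neg] at hbc
  have hy0 : y ≠ 0 := by rintro rfl; simp at hy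
  have hyc : conj y = y⁻¹ := eq_inv_of_mul_eq_one_right (mul_conj_unit hy)
  have hs0' : (s : ℂ) ≠ 0 := by exact_mod_cast hs0
  have hs3 : (s : ℂ) ^ 2 ≠ 1 := by
    intro e
    have : (s - 1) * (s + 1) = 0 := by
      have : s ^ 2 = 1 := by exact_mod_cast e
      linear_combination this
    rcases mul_eq_zero.1 this with h | h
    · exact hs1 (by linarith)
    · exact hs2 (by linarith)
  have n1 : 1 - s * y ≠ 0 := by
    intro e
    apply hs3
    have e1 : s * y = 1 := by linear_combination -e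
    have e2 := congrArg conj e1
    rw [map_mul, conj_ofReal, map_one] at e2
    linear_combination (s * conj y) * e1 + e2 - (s : ℂ) ^ 2 * mul_conj_unit hy
  have n2 : s - y ≠ 0 := by
    intro e
    apply hs3
    have e1 : y = s := by linear_combination -e
    have := mul_conj_unit hy
    rw [e1, conj_ofReal] at this
    linear_combination this
  set η := (s - y) / (1 - s * y) with hη
  have hη0 : η ≠ 0 := div_ne_zero n2 n1
  have hηc : conj η = η⁻¹ := by
    rw [hη, inv_div, map_div₀]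
    simp only [map_sub, map_mul, conj_ofReal, map_one, hyc]
    have n3 : 1 - s * y⁻¹ ≠ 0 := by
      intro e; apply n2; field_simp at e; linear_combination -e
    rw [div_eq_div_iff n3 n2]
    field_simp; ring
  have hηe : η * (1 - s * y) = s - y := div_mul_cancel₀ _ n1
  have hηn : ‖η‖ = 1 := by
    have : ‖η‖ * ‖η‖ = 1 := by
      have := congrArg norm (mul_inv_cancel₀ hη0)
      rwa [← hηc, norm_mul, Complex.norm_conj, norm_one] at this
    nlinarith [norm_nonneg η]
  refine ⟨m + k * η, -η, fun e => ?_, by simpa using hηn, ?_, ?_, ?_, ?_⟩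
  · have e1 : η.im = 0 := by simpa [hk] using e
    have e2 : η⁻¹ = η := hηc ▸ Complex.conj_eq_iff_im.2 e1
    have e3 : η * η = 1 := by nth_rewrite 1 [← e2]; exact inv_mul_cancel₀ hη0
    have : ((s : ℂ) ^ 2 - 1) * (1 - y ^ 2) = 0 := by
      linear_combination (1 - s * y) ^ 2 * e3 - (η * (1 - s * y) + (s - y)) * hηe
    rcases mul_eq_zero.1 this with h | h
    · exact hs3 (by linear_combination h)
    · exact hy2 (by linear_combination -h)
  all_goals
    simp only [map_sub, map_add, map_mul, conj_ofReal, hηc]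
    push_cast
    field_simp
  · ring
  · ring
  · linear_combination k * hηe
  · linear_combination -k * hηe

theorem sat_family_hm {d D : ℕ} (hD0 : D ≠ 0) (hc : Nat.Coprime d D) (hd0 : d ≠ 0) (hd : Even d)
    {y0 : ℂ} (hy : y0 ^ d = 1) (hy2 : y0 ^ 2 ≠ 1) {z : Fin 4 → ℝ} (hz : Function.Injective z)
    (h : Hm (z 0) (z 1) (z 2) (z 3)) :
    ∃ X : Fin D → ℂ, Function.Injective X ∧ ∀ j, SatOK d D z (X j) := by
  have hζ := Complex.isPrimitiveRoot_exp D hD0
  set ζ := Complex.exp (2 * π * I / D)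
  have hζn : ‖ζ‖ = 1 := hζ.norm'_eq_one hD0
  have hyn : ‖y0‖ = 1 := norm_eq_one_of_pow_eq_one hy hd0
  have hy0 : y0 ≠ 0 := by rintro rfl; simp at hyn
  have hζD : ∀ k : ℕ, (ζ ^ k) ^ D = 1 := fun k => by
    rw [← pow_mul, mul_comm, pow_mul, hζ.pow_eq_one, one_pow]
  have key := fun j : Fin D => harm_point (hz.ne (by decide)) (hz.ne (by decide))
    (hz.ne (by decide)) h (y := y0 * ζ ^ (j : ℕ)) (by simp [hyn, hζn]) (fun e => hy2
      (roots_inj hc hd0 (η := (ζ ^ (j : ℕ)) ^ 2) (θ := 1)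
        (by rw [← pow_mul, mul_comm, pow_mul, hy, one_pow]) (one_pow _)
        (by rw [← pow_mul, mul_comm, pow_mul, hζD, one_pow]) (one_pow _)
        (by linear_combination e)))
  choose X l h1 h2 h3 h4 h5 h6 using key
  refine ⟨X, fun j j' e => ?_, fun j => ⟨h1 j, l j, ![1, -1, y0, y0⁻¹],
    ![1, 1, ζ ^ (j : ℕ), (ζ ^ (j : ℕ))⁻¹], h2 j, ?_, fun k => ?_⟩⟩
  · have hne : ∀ a : ℝ, conj (X j' - a) ≠ 0 := fun a e =>
      h1 j' (by simpa using congrArg Complex.im e)
    have e1 : l j = l j' := mul_right_cancel₀ (hne _) (by rw [← h3 j', ← e, ← h3 j])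
    have e2 : l j * (y0 * ζ ^ (j : ℕ)) = l j' * (y0 * ζ ^ (j' : ℕ)) :=
      mul_right_cancel₀ (hne _) (by rw [← h5 j', ← e, ← h5 j])
    have hl : l j' ≠ 0 := fun e => by simpa [e] using h2 j'
    rw [e1] at e2
    exact Fin.ext (hζ.pow_inj j.2 j'.2 (mul_left_cancel₀ hy0 (mul_left_cancel₀ hl e2)))
  · have a1 : y0 ≠ 1 := by rintro rfl; simp at hy2
    have a2 : y0 ≠ -1 := by rintro rfl; simp at hy2
    have a3 : y0⁻¹ ≠ 1 := by simpa using a1
    have a4 : y0⁻¹ ≠ -1 := fun e => a2 (by rw [← inv_inv y0, e]; norm_num)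
    have a5 : y0 ≠ y0⁻¹ := fun e => hy2 (by rw [sq]; nth_rewrite 1 [e]; exact inv_mul_cancel₀ hy0)
    have a6 : (1 : ℂ) ≠ -1 := by norm_num
    intro a b
    fin_cases a <;> fin_cases b <;>
      simp [a1, a2, a3, a4, a5, a6, a1.symm, a2.symm, a3.symm, a4.symm, a5.symm, a6.symm]
  · fin_cases k
    · simpa using h3 j
    · simpa [hd.neg_one_pow] using h4 j
    · simpa [hy, hζD, mul_assoc] using h5 j
    · simpa [hy, hζD, mul_assoc, mul_comm y0⁻¹] using h6 j

theorem sat_family {d D : ℕ} (hD0 : D ≠ 0) (hc : Nat.Coprime d D) (hd0 : d ≠ 0) (hd : Even d)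
    {y0 : ℂ} (hy : y0 ^ d = 1) (hy2 : y0 ^ 2 ≠ 1) {z : Fin 4 → ℝ} (hz : Function.Injective z)
    (h : Harm (z 0) (z 1) (z 2) (z 3)) :
    ∃ X : Fin D → ℂ, Function.Injective X ∧ ∀ j, SatOK d D z (X j) := by
  rcases h with h | h | h
  · exact sat_family_hm hD0 hc hd0 hd hy hy2 hz h
  · obtain ⟨X, h1, h2⟩ := sat_family_hm hD0 hc hd0 hd hy hy2
      (hz.comp (Equiv.swap (1 : Fin 4) 2).injective) h
    exact ⟨X, h1, fun j => (h2 j).perm _⟩
  · obtain ⟨X, h1, h2⟩ := sat_family_hm hD0 hc hd0 hd hy hy2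
      (hz.comp (Equiv.swap (2 : Fin 4) 3 * Equiv.swap (1 : Fin 4) 2).injective) h
    exact ⟨X, h1, fun j => (h2 j).perm _⟩

theorem exists_base (D : ℕ) : ∃ β : Fin 4 → ℝ, Function.Injective β ∧
    ∀ A : ℝ, SatOK 7 D (fun k => A + β k) (A + I) := by
  have key : ∀ z : ℂ, ‖z‖ = 1 → z ≠ 1 → ∃ β : ℝ, I - β = z * conj (I - β) := by
    intro z hz h1
    have hz0 : z ≠ 0 := by rintro rfl; simp at hz
    have hc : conj z = z⁻¹ := eq_inv_of_mul_eq_one_right (mul_conj_unit hz)
    have n1 : 1 - z ≠ 0 := sub_ne_zero.2 h1.symm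
    have n2 : z - 1 ≠ 0 := sub_ne_zero.2 h1
    have : conj (I * (1 + z) / (1 - z)) = I * (1 + z) / (1 - z) := by
      simp only [map_div₀, map_mul, map_add, map_sub, map_one, conj_I, hc]
      field_simp; ring
    refine ⟨(I * (1 + z) / (1 - z)).re, ?_⟩
    rw [map_sub, conj_ofReal, Complex.conj_eq_iff_re.1 this, conj_I]
    field_simp; ring
  let σ : Fin 4 → ℂ := fun k => W (![1, 2, 3, 4] k)
  have hσ : Function.Injective σ := W_injective.comp (by decide)
  choose β hβ using fun k => key (σ k) (norm_eq_one_of_pow_eq_one (W_pow _) (by norm_num))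
    (fun e => by
      rw [← AddChar.map_zero_eq_one W] at e
      have := W_injective e
      clear e; revert k; decide)
  refine ⟨β, fun k l e => hσ ?_, fun A => ⟨by simp, 1, σ, fun _ => 1, by simp, hσ, fun k =>
    ⟨W_pow _, one_pow _, ?_⟩⟩⟩
  · have hne : conj (I - β l) ≠ 0 := fun e => by simpa using congrArg Complex.im e
    exact mul_right_cancel₀ hne (by rw [← hβ l, ← e, ← hβ k])
  · have : (A : ℂ) + I - ((A + β k : ℝ) : ℂ) = I - β k := by push_cast; ring
    rw [this, one_mul, mul_one]; exact hβ k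

end Pool.Agent.P.MP_e1cc3f_lc
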